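import Pool.Agent.Helper64.NC.Rd.ConHom

/-!
NC-RD4. Converse of `planar_boundary` (`F1.lean`), and counting of faces.

`euler_of_boundary`: same linear algebra as in `planar_boundary`. With `Z = Inv α ⊓ (Inv σ)ᗮ`
(orthogonal for the dot product `F1_B`), `Z = (Inv α ⊔ Inv σ)ᗮ` (for `⊆` see the proof of
`planar_boundary`; `⊇`: `(Inv α)ᗮ = Inv α` because `Inv α ⊆ (Inv α)ᗮ` and both have dimension
`|D| / 2`), so by `LinearMap.BilinForm.finrank_add_finrank_orthogonal'` (see `F1_orth`)
`dim Z = |D| - dim (Inv α ⊔ Inv σ) = |D| - (|D|/2 + ncyc σ - 1)`, because `Inv α ⊓ Inv σ` = constants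
has dimension exactly `1` (`D` nonempty).  `B = T (Inv φ)`, `φ = σ α`, has dimension
`ncyc φ - 1` (kernel = constants, exactly `1`).  The hypothesis says `Z ⊆ B` (for `h ∈ Z` the
sum over a `σ`-cycle vanishes: pair with the indicator function of the cycle), and `B ⊆ Z` always.
So `ncyc φ - 1 = |D|/2 - ncyc σ + 1`.

`genus0_of_hom`: the case of a `CubicMap` (vertex sums: see `homology` in `St/Cut.lean`).

`ncyc_mul_le`: `|D|` is the sum over the cycles of their sizes; the size of the cycle of `x` is
`minimalPeriod π x`.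
`exists_short`: otherwise `6 * ncyc face ≤ |D|`, `3 * ncyc permσ = |D|` (all `σ`-cycles have
size `3`: `3 * ncyc ≤ |D|` is not enough, equality is needed, see `ncyc_mul_eq`), and Euler's formula
`2 (ncyc permσ + ncyc face) = |D| + 4` give a contradiction. -/

set_option linter.unusedSectionVars false

namespace Pool.H64.NC

open Equiv

theorem eu_cst {D : Type*} {σ α : Perm D}
    (hconn : ∀ S : Set D, S.Nonempty → (∀ d ∈ S, σ d ∈ S ∧ α d ∈ S) → S = Set.univ)
    (g : D → ZMod 2) (g1 : ∀ d, g (σ d) = g d) (g2 : ∀ d, g (α d) = g d) (x y : D) :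
    g x = g y := by
  have h3 := hconn {d | g d = g y} ⟨y, rfl⟩ (fun d hd => by
    rw [Set.mem_ofPred_eq] at hd
    constructor
    · rw [Set.mem_ofPred_eq, g1, hd]
    · rw [Set.mem_ofPred_eq, g2, hd])
  have h4 : x ∈ {d | g d = g y} := by rw [h3]; exact Set.mem_univ x
  exact h4

theorem eu_one_le {D : Type*} [Finite D] [Nonempty D] (S : Submodule (ZMod 2) (D → ZMod 2))
    (h : (fun _ => (1 : ZMod 2)) ∈ S) : 1 ≤ Module.finrank (ZMod 2) S := by
  have : Nontrivial S := by
    refine ⟨⟨⟨_, h⟩, 0, ?_⟩⟩
    intro e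
    have e1 := congrArg Subtype.val e
    have e2 := congrFun e1 (Classical.arbitrary D)
    exact one_ne_zero e2
  exact Module.finrank_pos

theorem eu_perp {D : Type*} [Fintype D] [DecidableEq D] (α : Perm D)
    (hα : ∀ d, α (α d) = d) (hα1 : ∀ d, α d ≠ d) (z : D → ZMod 2)
    (hz : ∀ s : D → ZMod 2, (∀ d, s (α d) = s d) → ∑ d, s d * z d = 0) (d : D) :
    z (α d) = z d := by
  have h1 := hz (fun x => if x = d ∨ x = α d then 1 else 0) (by
    intro x
    have e : (α x = d ∨ α x = α d) ↔ (x = d ∨ x = α d) := by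
      constructor
      · rintro (h | h)
        · right; rw [← h, hα]
        · left; exact α.injective h
      · rintro (h | h)
        · right; rw [h]
        · left; rw [h, hα]
    simp only [e])
  have h2 : ∑ x, (if x = d ∨ x = α d then (1 : ZMod 2) else 0) * z x = z d + z (α d) := by
    have e : ∀ x, (if x = d ∨ x = α d then (1 : ZMod 2) else 0) * z x =
        (if x = d then z x else 0) + (if x = α d then z x else 0) := by
      intro x
      by_cases h3 : x = d
      · have h4 : x ≠ α d := fun h => hα1 d (by rw [← h, h3])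
        rw [if_pos (Or.inl h3), if_pos h3, if_neg h4, one_mul, add_zero]
      · by_cases h4 : x = α d
        · rw [if_pos (Or.inr h4), if_neg h3, if_pos h4, one_mul, zero_add]
        · rw [if_neg (by tauto), if_neg h3, if_neg h4, zero_mul, add_zero]
    rw [Finset.sum_congr rfl fun x _ => e x, Finset.sum_add_distrib, Finset.sum_ite_eq',
      Finset.sum_ite_eq', if_pos (Finset.mem_univ _), if_pos (Finset.mem_univ _)]
  rw [h2] at h1
  exact (F1_add_eq_zero _ _).mp h1

theorem euler_of_boundary {D : Type*} [Fintype D] [DecidableEq D] [Nonempty D] (σ α : Perm D)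
    (hα : ∀ d, α (α d) = d) (hα1 : ∀ d, α d ≠ d)
    (hconn : ∀ S : Set D, S.Nonempty → (∀ d ∈ S, σ d ∈ S ∧ α d ∈ S) → S = Set.univ)
    (hB : ∀ h : D → ZMod 2, (∀ d, h (α d) = h d) →
      (∀ c : D → ZMod 2, (∀ d, c (σ d) = c d) → ∑ d, c d * h d = 0) →
      ∃ g : D → ZMod 2, (∀ d, g (σ (α d)) = g d) ∧ ∀ d, h d = g d + g (α d)) :
    2 * (ncyc σ + ncyc (σ * α)) = Fintype.card D + 4 := by
  have hcst := eu_cst (σ := σ) (α := α) hconn
  set Z : Submodule (ZMod 2) (D → ZMod 2) :=
    F1_Inv α ⊓ (F1_B D).orthogonal (F1_Inv σ) with hZ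
  set B : Submodule (ZMod 2) (D → ZMod 2) := (F1_Inv (σ * α)).map (F1_T α) with hBd
  have hE := F1_card α hα hα1
  have hTT : ∀ f g : D → ZMod 2, (∀ d, g (α d) = g d) → ∑ d, F1_T α f d * g d = 0 := by
    intro f g hg
    have h3 : ∑ d, f (α d) * g d = ∑ d, f d * g d := by
      rw [← Equiv.sum_comp α (fun d => f d * g d)]
      exact Finset.sum_congr rfl fun d _ => by rw [hg]
    simp only [F1_T_apply, add_mul]
    rw [Finset.sum_add_distrib, h3]
    exact (F1_add_eq_zero _ _).mpr rfl
  have hZo : Z = (F1_B D).orthogonal (F1_Inv α ⊔ F1_Inv σ) := by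
    apply le_antisymm
    · intro z hz s hs
      obtain ⟨s1, hs1, s2, hs2, rfl⟩ := Submodule.mem_sup.mp hs
      have h3 : ∑ d, s1 d * z d = 0 := by
        have h4 : s1 ∈ LinearMap.range (F1_T α) := by
          rw [F1_range α hα hα1]
          exact hs1
        obtain ⟨f, rfl⟩ := h4
        exact hTT f z hz.1
      have h4 : ∑ d, s2 d * z d = 0 := hz.2 s2 hs2
      change ∑ d, (s1 + s2) d * z d = 0
      simp only [Pi.add_apply, add_mul]
      rw [Finset.sum_add_distrib, h3, h4, add_zero]
    · intro z hz
      constructor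
      · exact eu_perp α hα hα1 z fun s hs =>
          hz s (Submodule.mem_sup_left hs)
      · intro s hs
        exact hz s (Submodule.mem_sup_right hs)
  have hdimZ : Module.finrank (ZMod 2) (F1_Inv α ⊔ F1_Inv σ : Submodule (ZMod 2) (D → ZMod 2)) +
      Module.finrank (ZMod 2) Z = Fintype.card D := by
    have h1 := LinearMap.BilinForm.finrank_add_finrank_orthogonal' (B := F1_B D)
      (F1_Inv α ⊔ F1_Inv σ)
    rw [F1_B_ker, inf_bot_eq, finrank_bot, add_zero, Module.finrank_fintype_fun_eq_card] at h1
    rw [hZo]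
    exact h1
  have hsup := Submodule.finrank_sup_add_finrank_inf_eq (F1_Inv α) (F1_Inv σ)
  have hinf : Module.finrank (ZMod 2) (F1_Inv α ⊓ F1_Inv σ : Submodule (ZMod 2) (D → ZMod 2)) = 1 :=
    le_antisymm (F1_const _ fun g hg => hcst g hg.2 hg.1)
      (eu_one_le _ ⟨fun _ => rfl, fun _ => rfl⟩)
  have hσ := F1_finrank σ
  have hφ := F1_finrank (σ * α)
  have hdimB : Module.finrank (ZMod 2) (F1_Inv (σ * α)) = Module.finrank (ZMod 2) B + 1 := by
    have h3 := LinearMap.finrank_range_add_finrank_ker ((F1_T α).domRestrict (F1_Inv (σ * α)))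
    rw [LinearMap.range_domRestrict] at h3
    have h4 : Module.finrank (ZMod 2)
        (LinearMap.ker ((F1_T α).domRestrict (F1_Inv (σ * α)))) = 1 := by
      have h5 : Module.finrank (ZMod 2) ((LinearMap.ker ((F1_T α).domRestrict
          (F1_Inv (σ * α)))).map (F1_Inv (σ * α)).subtype) = 1 := by
        apply le_antisymm
        · apply F1_const
          rintro g ⟨⟨g', hg'⟩, hk, rfl⟩
          have hk' : F1_T α g' = 0 := hk
          have h6 : g' ∈ F1_Inv α := by
            rw [← F1_ker, LinearMap.mem_ker]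
            exact hk'
          apply hcst
          · intro d
            have h7 := hg' (α d)
            rw [Perm.mul_apply, hα] at h7
            change g' (σ d) = g' d
            rw [h7]
            exact h6 d
          · exact h6
        · apply eu_one_le
          refine ⟨⟨fun _ => 1, fun _ => rfl⟩, ?_, rfl⟩
          change F1_T α (fun _ => 1) = 0
          funext d
          rw [F1_T_apply]
          rfl
      rwa [Submodule.finrank_map_subtype_eq] at h5
    rw [hBd]
    omega
  have hBZ : B ≤ Z := by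
    rintro _ ⟨g, hg, rfl⟩
    constructor
    · have : F1_T α g ∈ LinearMap.range (F1_T α) := ⟨g, rfl⟩
      rwa [F1_range α hα hα1] at this
    · intro y hy
      change ∑ d, y d * F1_T α g d = 0
      have hgs : ∀ d, g (α d) = g (σ d) := by
        intro d
        have h7 := hg (α d)
        rw [Perm.mul_apply, hα] at h7
        exact h7.symm
      have h3 : ∑ d, y d * g (α d) = ∑ d, y d * g d := by
        rw [← Equiv.sum_comp σ (fun d => y d * g d)]
        exact Finset.sum_congr rfl fun d _ => by rw [hgs, hy]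
      simp only [F1_T_apply, mul_add]
      rw [Finset.sum_add_distrib, h3]
      exact (F1_add_eq_zero _ _).mpr rfl
  have hZB : Z ≤ B := by
    intro h hh
    obtain ⟨g, hg, hgh⟩ := hB h hh.1 fun c hc => hh.2 c hc
    refine ⟨g, fun d => hg d, ?_⟩
    funext d
    exact (hgh d).symm
  have hEq : B = Z := le_antisymm hBZ hZB
  rw [← hEq] at hdimZ
  omega

theorem eu_card {D : Type*} [Fintype D] (π : Perm D) (f : Quotient (Perm.SameCycle.setoid π) → ℕ)
    (hf : ∀ x, f (Quotient.mk _ x) = Function.minimalPeriod π x) [Fintype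
      (Quotient (Perm.SameCycle.setoid π))] :
    ∑ q, f q = Fintype.card D := by
  classical
  have h1 := Finset.card_eq_sum_card_fiberwise (s := (Finset.univ : Finset D))
    (t := (Finset.univ : Finset (Quotient (Perm.SameCycle.setoid π))))
    (f := Quotient.mk (Perm.SameCycle.setoid π)) (fun _ _ => Finset.mem_coe.2 (Finset.mem_univ _))
  rw [← Finset.card_univ, h1]
  refine Finset.sum_congr rfl fun q _ => ?_
  obtain ⟨x, rfl⟩ := Quotient.mk_surjective q
  rw [hf x]
  have h2 : Finset.univ.filter (fun d => Quotient.mk (Perm.SameCycle.setoid π) d =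
      Quotient.mk (Perm.SameCycle.setoid π) x) =
      (Finset.range (Function.minimalPeriod π x)).image (fun n => π^[n] x) := by
    ext y
    rw [Finset.mem_filter, Finset.mem_image]
    constructor
    · rintro ⟨-, h⟩
      have h3 : π.SameCycle x y := Perm.SameCycle.symm (Quotient.exact h)
      obtain ⟨n, hn⟩ := h3.exists_nat_pow_eq
      have hp : 0 < Function.minimalPeriod π x :=
        Function.minimalPeriod_pos_of_mem_periodicPts
          (Function.Injective.mem_periodicPts π.injective x)
      refine ⟨n % Function.minimalPeriod π x, Finset.mem_range.2 (Nat.mod_lt _ hp), ?_⟩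
      rw [Function.iterate_mod_minimalPeriod_eq, ← hn]
      exact (Equiv.Perm.iterate_eq_pow π n) ▸ rfl
    · rintro ⟨n, -, rfl⟩
      refine ⟨Finset.mem_univ _, ?_⟩
      apply Quotient.sound
      change π.SameCycle _ _
      refine Perm.SameCycle.symm ⟨n, ?_⟩
      rw [zpow_natCast, ← Equiv.Perm.iterate_eq_pow]
  rw [h2, Finset.card_image_of_injOn, Finset.card_range]
  intro a ha b hb hab
  exact Function.iterate_injOn_Iio_minimalPeriod (Finset.mem_range.1 ha) (Finset.mem_range.1 hb) hab

/-- the size of a cycle -/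
noncomputable def eu_f {D : Type*} (π : Perm D) (q : Quotient (Perm.SameCycle.setoid π)) : ℕ :=
  Function.minimalPeriod π q.out

theorem eu_period {D : Type*} [Finite D] (π : Perm D) {x y : D} (h : π.SameCycle x y) :
    Function.minimalPeriod π x = Function.minimalPeriod π y := by
  obtain ⟨n, rfl⟩ := h.exists_nat_pow_eq
  rw [← Equiv.Perm.iterate_eq_pow]
  exact (Function.minimalPeriod_apply_iterate
    (Function.Injective.mem_periodicPts π.injective x) n).symm

theorem eu_hf {D : Type*} [Finite D] (π : Perm D) (x : D) :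
    eu_f π (Quotient.mk _ x) = Function.minimalPeriod π x := by
  unfold eu_f
  apply eu_period
  exact Quotient.exact (Quotient.out_eq (Quotient.mk (Perm.SameCycle.setoid π) x))

theorem ncyc_mul_le {D : Type*} [Fintype D] (π : Perm D) (k : ℕ)
    (h : ∀ x, k ≤ Function.minimalPeriod π x) : k * ncyc π ≤ Fintype.card D := by
  classical
  have : Finite (Quotient (Perm.SameCycle.setoid π)) := Quotient.finite _
  have : Fintype (Quotient (Perm.SameCycle.setoid π)) := Fintype.ofFinite _
  rw [← eu_card π (eu_f π) (eu_hf π), ncyc, Nat.card_eq_fintype_card, mul_comm, ← smul_eq_mul,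
    ← Finset.card_univ]
  exact Finset.card_nsmul_le_sum _ _ _ fun q _ => h _

theorem ncyc_mul_eq {D : Type*} [Fintype D] (π : Perm D) (k : ℕ)
    (h : ∀ x, Function.minimalPeriod π x = k) : k * ncyc π = Fintype.card D := by
  classical
  have : Finite (Quotient (Perm.SameCycle.setoid π)) := Quotient.finite _
  have : Fintype (Quotient (Perm.SameCycle.setoid π)) := Fintype.ofFinite _
  rw [← eu_card π (eu_f π) (eu_hf π), ncyc, Nat.card_eq_fintype_card, mul_comm, ← smul_eq_mul,
    ← Finset.card_univ]
  exact (Finset.sum_const_nat fun q _ => h _).symm ▸ (by rw [smul_eq_mul])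

namespace CubicMap
variable {D : Type*} [Fintype D] [DecidableEq D] {M : CubicMap D}

theorem genus0_of_hom [Nonempty D] (h1 : M.Cn) (h2 : M.Hom) : M.Genus0 := by
  refine ⟨h1, ?_⟩
  refine euler_of_boundary M.permσ M.permα M.α2 M.α1 h1 ?_
  intro h ha hc
  refine h2 h ha ?_
  intro d
  have h3 := hc (fun x => if x = d ∨ x = M.σ d ∨ x = M.σ (M.σ d) then 1 else 0) (by
    intro x
    have e : (M.σ x = d ∨ M.σ x = M.σ d ∨ M.σ x = M.σ (M.σ d)) ↔
        (x = d ∨ x = M.σ d ∨ x = M.σ (M.σ d)) := by
      constructor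
      · rintro (h | h | h)
        · right; right; rw [← h, M.σ3]
        · left; exact σinj h
        · right; left; exact σinj h
      · rintro (h | h | h)
        · right; left; rw [h]
        · right; right; rw [h]
        · left; rw [h, M.σ3]
    change (if M.σ x = d ∨ M.σ x = M.σ d ∨ M.σ x = M.σ (M.σ d) then (1 : ZMod 2) else 0) = _
    simp only [e])
  have e : ∀ x, (if x = d ∨ x = M.σ d ∨ x = M.σ (M.σ d) then (1 : ZMod 2) else 0) * h x =
      (if x = d then h x else 0) + (if x = M.σ d then h x else 0) +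
      (if x = M.σ (M.σ d) then h x else 0) := by
    intro x
    by_cases e1 : x = d
    · have e2 : x ≠ M.σ d := fun h' => M.σ1 d (by rw [← h', e1])
      have e3 : x ≠ M.σ (M.σ d) := fun h' => σσ1 d (by rw [← h', e1])
      rw [if_pos (Or.inl e1), if_pos e1, if_neg e2, if_neg e3, one_mul, add_zero, add_zero]
    · by_cases e2 : x = M.σ d
      · have e3 : x ≠ M.σ (M.σ d) := fun h' => σσ2 d (by rw [← h', e2])
        rw [if_pos (Or.inr (Or.inl e2)), if_neg e1, if_pos e2, if_neg e3, one_mul, add_zero,
          zero_add]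
      · by_cases e3 : x = M.σ (M.σ d)
        · rw [if_pos (Or.inr (Or.inr e3)), if_neg e1, if_neg e2, if_pos e3, one_mul, add_zero,
            zero_add]
        · rw [if_neg (by tauto), if_neg e1, if_neg e2, if_neg e3, zero_mul, add_zero, add_zero]
  rw [Finset.sum_congr rfl fun x _ => e x, Finset.sum_add_distrib, Finset.sum_add_distrib,
    Finset.sum_ite_eq', Finset.sum_ite_eq', Finset.sum_ite_eq', if_pos (Finset.mem_univ _),
    if_pos (Finset.mem_univ _), if_pos (Finset.mem_univ _)] at h3
  exact h3

theorem eu_three (M : CubicMap D) (x : D) : Function.minimalPeriod M.permσ x = 3 := by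
  have h3 : Function.IsPeriodicPt M.permσ 3 x := M.σ3 x
  have h1 : ¬ Function.IsPeriodicPt M.permσ 1 x := fun h => M.σ1 x h
  have hd := h3.minimalPeriod_dvd
  rcases (Nat.dvd_prime Nat.prime_three).1 hd with h | h
  · exfalso
    apply h1
    have := Function.isPeriodicPt_minimalPeriod M.permσ x
    rwa [h] at this
  · exact h

/-- a map of genus 0 has a face of length at most 5 -/
theorem exists_short [Nonempty D] (hM : M.Genus0) : ∃ x, M.flen x ≤ 5 := by
  by_contra hcon
  push Not at hcon
  have h1 := ncyc_mul_le M.face 6 hcon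
  have h2 := ncyc_mul_eq M.permσ 3 (eu_three M)
  have h3 := hM.2
  omega

end CubicMap
end Pool.H64.NC
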