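import Pool.Agent.Helper64.NC.Rd.Small
import Pool.Agent.Helper64.NC.Ck.Code2

/-! NC: maps which consist of one wheel only have no face of length at least 7. -/

set_option linter.unusedSectionVars false

namespace Pool.H64.NC

open Function Code

/-- does the face of `x` close after at most `n` steps? -/
def retF (q : List ℕ) (t : ℕ) : ℕ → ℕ → ℕ → Bool
  | 0, _, _ => false
  | n + 1, x, y => Nat.beq (fcF q t y) x || retF q t n x (fcF q t y)

def all6 (q : List ℕ) (t : ℕ) : Bool := (codes q).all (fun x => retF q t 6 x x)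

def leafB (q : List ℕ) (t : ℕ) : Bool :=
  (List.range (wL q).length).any (fun i => Nat.beq (dig t i) i) || (shortF q t || all6 q t)

/-- run over all noncrossing involutions -/
def dfsP (K : ℕ) (P : ℕ → Bool) : ℕ → ℕ → ℕ → Bool
  | 0, _, t => P t
  | n + 1, i, t =>
    let a := clm t i i
    bif Nat.beq a 0 then
      force (fun t => dfsP K P n (i + 1) t) (t + (i <<< (4 * i))) &&
        (List.range (lim K t i i - (i + 1))).all (fun k =>
          force (fun t => dfsP K P n (i + 1) t) (t + ((i + 1 + k) <<< (4 * i))))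
    else force (fun t => dfsP K P n (i + 1) t) (t + ((a - 1) <<< (4 * i)))

def bigOK (q : List ℕ) : Bool := dfsP (wL q).length (leafB q) (wL q).length 0 0

theorem dfsP_step (K : ℕ) (P : ℕ → Bool) (f : ℕ → ℕ)
    (hK : K ≤ 15) (h1 : ∀ i < K, f i < K) (h2 : ∀ i < K, f (f i) = i)
    (h3 : ∀ a < K, ∀ i < K, a < i → i < f a → f i < f a) (n : ℕ) :
    ∀ i, n + i = K → dfsP K P n i (pack f i) = true → P (pack f K) = true := by
  induction n with
  | zero =>
    intro i hi h
    rw [zero_add] at hi
    rw [hi] at h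
    exact h
  | succ n ih =>
    intro i hi h
    have hiK : i < K := by omega
    refine ih (i + 1) (by omega) ?_
    have hd : ∀ a < i, dig (pack f i) a = f a := fun a ha =>
      dig_pack f i a ha fun j hj => by have := h1 j (by omega); omega
    rw [pack]
    rw [dfsP] at h
    simp only [force_eq] at h
    by_cases hc : clm (pack f i) i i = 0
    · have hb : Nat.beq (clm (pack f i) i i) 0 = true := by rw [hc]; rfl
      simp only [hb, cond_true, Bool.and_eq_true] at h
      have hge : i ≤ f i := by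
        by_contra hlt
        rw [not_le] at hlt
        refine dfs_clm_zero _ _ _ hc (f i) hlt ?_
        rw [hd _ hlt]
        exact h2 i hiK
      rcases Nat.eq_or_lt_of_le hge with he | hl
      · rw [← he]
        exact h.1
      · have hlim : f i < lim K (pack f i) i i := by
          refine dfs_lim _ _ _ _ _ (h1 i hiK) fun a ha hia => ?_
          rw [hd a ha] at hia ⊢
          exact h3 a (by omega) i hiK ha hia
        have h4 := List.all_eq_true.mp h.2 (f i - (i + 1)) (List.mem_range.mpr (by omega))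
        rw [show i + 1 + (f i - (i + 1)) = f i by omega] at h4
        exact h4
    · have hb : Nat.beq (clm (pack f i) i i) 0 = false := by
        rw [Bool.eq_false_iff]
        intro h5
        exact hc (Nat.eq_of_beq_eq_true h5)
      simp only [hb, cond_false] at h
      obtain ⟨h5, h6⟩ := dfs_clm_ne _ _ _ hc
      rw [hd _ h5] at h6
      have h7 : clm (pack f i) i i - 1 = f i := by
        rw [← h6, h2 _ (by omega), h6]
      rw [h7] at h
      exact h

theorem ret_spec {D : Type*} [Fintype D] [DecidableEq D] {M : CubicMap D} {q : List ℕ}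
    {ι : ℕ → D} (hc : Coded M q ι) (hq : WOK q) (hall : ∀ y, ∃ c ∈ codes q, ι c = y) {t : ℕ}
    (ht : ∀ i : Fin (wL q).length,
      dig t i = ((hc.patch hq).ext.trace ∅ i : Fin (wL q).length)) {x : ℕ} :
    ∀ (n y : ℕ), y ∈ codes q → retF q t n x y = true →
      ∃ k, 1 ≤ k ∧ k ≤ n ∧ M.face^[k] (ι y) = ι x
  | 0, y, _, h => by simp [retF] at h
  | n + 1, y, hy, h => by
    obtain ⟨h1, h2⟩ := h27_fc hc hq hall ht hy
    unfold retF at h
    rw [Bool.or_eq_true, Nat.beq_eq] at h
    rcases h with h | h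
    · refine ⟨1, le_refl _, by omega, ?_⟩
      rw [iterate_one, h1, h]
    · obtain ⟨k, k1, k2, k3⟩ := ret_spec hc hq hall ht n _ h2 h
      refine ⟨k + 1, by omega, by omega, ?_⟩
      rw [iterate_succ_apply, h1, k3]

theorem small_big {D : Type*} [Fintype D] [DecidableEq D] {M : CubicMap D} {q : List ℕ}
    {ι : ℕ → D} (hc : Coded M q ι) (hq : WOK q) (hr : Ring q)
    (hall : ∀ y, ∃ c ∈ codes q, ι c = y) (hB : M.Hom) (h4 : ∀ x, 4 ≤ M.flen x)
    (h : bigOK q = true) : ∀ x, M.flen x ≤ 6 := by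
  have hS : (hc.patch hq).Sided := fun a b hab e e1 e2 e3 e4 =>
    side hc hq hr hB hab e e1 e2 e3 e4
  have hN := CubicMap.Patch.nct hS (h27_closed hc hq hall)
  set τ := (hc.patch hq).ext.trace ∅ with hτ
  have hK := hq.K15
  have h16 : ∀ j < (wL q).length, ext0 τ j < 16 := fun j hj => by
    have := ext0_lt τ hj; omega
  have ht : ∀ i : Fin (wL q).length, dig (pack (ext0 τ) (wL q).length) i = (τ i : ℕ) := by
    intro i
    rw [dig_pack _ _ _ i.2 h16, ext0_val]
  have hleaf : leafB q (pack (ext0 τ) (wL q).length) = true := by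
    refine dfsP_step (wL q).length (leafB q) (ext0 τ) hK (fun i hi => ext0_lt τ hi) ?_ ?_
      (wL q).length 0 (by omega) h
    · intro i hi
      have h1 : ext0 τ i = (τ ⟨i, hi⟩ : ℕ) := ext0_val τ ⟨i, hi⟩
      rw [h1, ext0_val, hN.1]
    · intro a ha i hi h1 h2
      have e1 : ext0 τ a = (τ ⟨a, ha⟩ : ℕ) := ext0_val τ ⟨a, ha⟩
      have e2 : ext0 τ i = (τ ⟨i, hi⟩ : ℕ) := ext0_val τ ⟨i, hi⟩
      rw [e1] at h2 ⊢
      rw [e2]
      exact hN.2 ⟨a, ha⟩ ⟨i, hi⟩ h1 h2
  unfold leafB at hleaf
  rw [Bool.or_eq_true, Bool.or_eq_true] at hleaf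
  rcases hleaf with h1 | h1 | h1
  · obtain ⟨i, hi, h2⟩ := List.any_eq_true.1 h1
    rw [Nat.beq_eq] at h2
    have hi' := List.mem_range.1 hi
    have h3 := ht ⟨i, hi'⟩
    have h5 : (τ ⟨i, hi'⟩ : ℕ) = i := h3.symm.trans h2
    exact absurd (Fin.ext h5) (h27_tau hc hq hall ⟨i, hi'⟩).2
  · obtain ⟨x, hx⟩ := h27_short hc hq hall ht h1
    have := h4 x
    omega
  · intro y
    obtain ⟨x, hx, rfl⟩ := hall y
    obtain ⟨k, k1, k2, k3⟩ := ret_spec hc hq hall ht 6 x hx (List.all_eq_true.1 h1 x hx)
    have : M.flen (ι x) ≤ k := Function.IsPeriodicPt.minimalPeriod_le k1 k3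
    omega

end Pool.H64.NC
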