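import Pool.Agent.Helper64.NC.St.Wheel

/-! NC: neighbour lists of a face. -/

set_option linter.unusedSectionVars false

namespace Pool.H64.NC

open Function

/-- all lists of length `n` over `{4, 5, 6}` -/
def lists : ℕ → List (List ℕ)
  | 0 => [[]]
  | n + 1 => (lists n).flatMap (fun l => [4 :: l, 5 :: l, 6 :: l])

theorem mem_lists : ∀ (l : List ℕ), (∀ x ∈ l, x = 4 ∨ x = 5 ∨ x = 6) → l ∈ lists l.length
  | [], _ => List.mem_singleton.2 rfl
  | x :: l, h => by
    have ih := mem_lists l (fun y hy => h y (List.mem_cons_of_mem _ hy))
    rw [List.length_cons]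
    unfold lists
    rw [List.mem_flatMap]
    refine ⟨l, ih, ?_⟩
    rcases h x (List.mem_cons_self ..) with rfl | rfl | rfl <;> simp

namespace CubicMap
variable {D : Type*} [Fintype D] [DecidableEq D] {M : CubicMap D}

/-- lengths of the neighbours of a face, in cyclic order -/
noncomputable def nbl (M : CubicMap D) (x : D) (p : ℕ) : List ℕ :=
  (List.range p).map (fun i => M.flen (M.α (M.face^[i] x)))

theorem nbl_length (x : D) (p : ℕ) : (nbl M x p).length = p := by
  unfold nbl; rw [List.length_map, List.length_range]

theorem nbl_getD (x : D) (p i : ℕ) (hi : i < p) :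
    (nbl M x p).getD i 0 = M.flen (M.α (M.face^[i] x)) := by
  unfold nbl
  rw [List.getD_eq_getElem?_getD, List.getElem?_map, List.getElem?_range hi]
  rfl

theorem flen_face (x : D) (i : ℕ) : M.flen (M.face^[i] x) = M.flen x := by
  unfold flen
  exact minimalPeriod_apply_iterate ((Injective.mem_periodicPts (M.face.injective)) _) i

theorem nbl_face {x : D} {p : ℕ} (hx : M.flen x = p) (r : ℕ) :
    nbl M (M.face^[r] x) p = (nbl M x p).rotate r := by
  have hp : 0 < p := by
    rw [← hx]
    exact minimalPeriod_pos_of_mem_periodicPts ((Injective.mem_periodicPts (M.face.injective)) _)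
  apply List.ext_getElem
  · rw [List.length_rotate, nbl_length, nbl_length]
  · intro i h1 h2
    rw [nbl_length] at h1
    rw [List.getElem_rotate]
    unfold nbl
    rw [List.getElem_map, List.getElem_map, List.getElem_range, List.getElem_range,
      List.length_map, List.length_range, ← iterate_add_apply]
    congr 2
    have h3 : M.face^[(i + r) % p] x = M.face^[i + r] x := by
      rw [← hx]
      exact iterate_mod_minimalPeriod_eq
    exact h3.symm

end CubicMap
end Pool.H64.NC
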