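import Pool.Agent.Helper64.NC.Ck.Assemble2
import Pool.Agent.Helper64.NC.Rd.Big
import Pool.Agent.Helper64.NC.Rd.Euler
import Pool.Agent.Helper64.NC.Rd.Lists
import Pool.Agent.Helper64.NC.St.Cut

/-! NC: local consequences of the certificates. -/

set_option linter.unusedSectionVars false

namespace Pool.H64.NC

open Function Code

/-- what we need to know about a wheel -/
structure Good (q : List ℕ) : Prop where
  wok : WOK q
  ring : Ring q
  cert : (wL q).length = 0 ∨ ∃ c G, Cert2 q c G

namespace CubicMap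
variable {D : Type*} [Fintype D] [DecidableEq D] {M : CubicMap D}

theorem flen_pos (x : D) : 0 < M.flen x :=
  minimalPeriod_pos_of_mem_periodicPts ((Injective.mem_periodicPts (M.face.injective)) _)

theorem flen_iter (x : D) : M.face^[M.flen x] x = x := iterate_minimalPeriod

/-- all faces have length at least 4 -/
theorem flen_ge4 (hC : M.C4) (hn : 12 ≤ Fintype.card D) (h3 : ∀ x, M.flen x ≠ 3) (x : D) :
    4 ≤ M.flen x := by
  by_contra hlt
  have h0 := M.flen_pos x
  have hi := M.flen_iter x
  have hx3 := h3 x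
  have hcases : M.flen x = 1 ∨ M.flen x = 2 := by omega
  obtain ⟨l1, l2⟩ := noloop hC hn x
  rcases hcases with h | h
  · rw [h, iterate_one, face_apply] at hi
    apply l2
    rw [← M.σ3 (M.α x), hi]
  · rw [h] at hi
    set y := M.face x with hy
    have hyx : M.face y = x := hi
    have ey : M.σ (M.α x) = y := rfl
    have ex : M.σ (M.α y) = x := hyx
    have e1 : M.σ (M.σ x) = M.α y := by rw [← ex, M.σ3]
    have e2 : M.σ (M.σ y) = M.α x := by rw [← ey, M.σ3]
    have hyV : y ∉ M.cuV x := by
      rw [cu_mem]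
      rintro (h' | h' | h')
      · have : M.flen x = 1 := by
          have h5 : IsPeriodicPt M.face 1 x := h'
          have := h5.minimalPeriod_le (by norm_num)
          have h6 : M.flen x = minimalPeriod M.face x := rfl
          omega
        omega
      · rw [← ey] at h'
        exact M.α1 x (σinj h')
      · rw [← ey] at h'
        exact l1 (σinj h')
    have hd := cu_disj hyV
    have hcard : (M.cuV x ∪ M.cuV y).card = 6 := by
      rw [Finset.card_union_of_disjoint hd, cu_card, cu_card]
    have hσ : ∀ z ∈ M.cuV x ∪ M.cuV y, M.σ z ∈ M.cuV x ∪ M.cuV y := by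
      intro z hz
      rw [Finset.mem_union] at hz ⊢
      rcases hz with hz | hz
      · exact Or.inl (cu_σ hz)
      · exact Or.inr (cu_σ hz)
    have h4 := hC _ hσ (by omega) (by rw [Finset.card_compl]; omega)
    have hsub : (M.cuV x ∪ M.cuV y).filter (fun z => M.α z ∉ M.cuV x ∪ M.cuV y) ⊆
        {M.σ x, M.σ y} := by
      intro z hz
      rw [Finset.mem_filter, Finset.mem_union, Finset.mem_union, cu_mem, cu_mem, cu_mem,
        cu_mem] at hz
      rw [Finset.mem_insert, Finset.mem_singleton]
      obtain ⟨hz1, hz2⟩ := hz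
      rcases hz1 with (rfl | rfl | rfl) | (hz1 | rfl | hz1)
      · exact absurd (Or.inr (Or.inr (Or.inr e2.symm))) hz2
      · exact Or.inl rfl
      · rw [e1, M.α2] at hz2
        exact absurd (Or.inr (Or.inl rfl)) hz2
      · rw [hz1] at hz2
        exact absurd (Or.inl (Or.inr (Or.inr e1.symm))) hz2
      · exact Or.inr rfl
      · rw [hz1, e2, M.α2] at hz2
        exact absurd (Or.inl (Or.inl rfl)) hz2
    have h5 := Finset.card_le_card hsub
    have h6 : ({M.σ x, M.σ y} : Finset D).card ≤ 2 := Finset.card_le_two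
    omega

/-- the face of `x0` and its neighbours form a wheel -/
theorem wheel_of (hM : M.Genus0) (hC : M.C4) (hn : 12 ≤ Fintype.card D) {x0 : D} {p : ℕ}
    (hp : 4 ≤ p) (hx : M.flen x0 = p) (h6 : ∀ i < p, M.flen (M.α (M.face^[i] x0)) ≤ 6) :
    ∃ ι, Coded M (nbl M x0 p) ι ∧ ι 0 = x0 :=
  wheel (adj0 hM hC hn) (fun _ _ => adj1 hM hC hn) (fun _ _ _ => adj2 hM hC hn) x0 p hp hx
    (nbl M x0 p) (nbl_length x0 p) (fun i hi => nbl_getD x0 p i hi)
    (fun i hi => by rw [nbl_getD x0 p i hi]; exact (h6 i hi).trans (by norm_num))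

theorem hom_of (hM : M.Genus0) : M.Hom := fun h h1 h2 => homology hM h h1 h2

/-- a certified wheel is the whole map -/
theorem wheel_all (hM : M.Genus0) (hT : M.Three) {q : List ℕ} {ι : ℕ → D} (hc : Coded M q ι)
    (hq : WOK q) (h0 : 0 ∈ codes q)
    (hcert : (wL q).length = 0 ∨ ∃ c G, Cert2 q c G) : ∀ y, ∃ c ∈ codes q, ι c = y := by
  rcases hcert with h | ⟨c, G, hcert⟩
  · have := hM.1 {y | y ∈ (hc.patch hq).P} ⟨ι 0, (mem_P hc hq).2 ⟨0, h0, rfl⟩⟩ (by
      intro d hd
      refine ⟨(hc.patch hq).σP d hd, ((hc.patch hq).αP d hd ?_).1⟩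
      intro i
      have := i.2
      omega)
    intro y
    have hy : y ∈ {y | y ∈ (hc.patch hq).P} := by rw [this]; exact Set.mem_univ y
    exact (mem_P hc hq).1 hy
  · intro y
    by_contra hcon
    refine cert2_no_three hc hcert ⟨y, fun h => hcon ?_⟩ (hom_of hM) hT
    exact (mem_P hc hcert.wok).1 h

end CubicMap
end Pool.H64.NC
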