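import Pool.Agent.Helper64.NC.Rd.Cut3

/-!
NC-RD3. Connectivity and homology of the contracted map `c.con`.

`con_conn`: if `M` is connected then `c.con` is connected.  Claim: a nonempty closed `S` contains a
new dart; otherwise all elements of `S` are in `A`, the set of their values is closed under `M.σ` and
`M.α`, hence everything, but `α (b 0) ∉ A`. So `S` contains all new darts.  The complement of `S` is
closed too (`σ³ = 1`, `α² = 1`); if it were nonempty it would contain a new dart.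

`ring_ne`: if `ring` and no face is on both sides of an edge then the faces of `b i`, `b j`
(`i ≠ j`) are different (if `j = i + 1`: `Fc (b i) (α (b (i+1)))`, so `Fc (b i) (b (i+1))` would
give `Fc (b (i+1)) (α (b (i+1)))`).

`con_hom`: let `h` be a cycle of `c.con`, `s i = h (ob i) = h (nb i)`, `s 0 + s 1 + s 2 = 0`. Put
`cc x = s 1` if `Fc (b 1) x`, `s 1 + s 2` if `Fc (b 2) x`, `0` otherwise: constant on faces; by
`ring_ne` and `ring`: `cc (b 0) = 0`, `cc (b 1) = s 1`, `cc (b 2) = s 1 + s 2`,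
`cc (α (b (i+1))) = cc (b i)`, so `cc (b i) + cc (α (b i)) = s i`.
`h' x = h x + cc x + cc (α x)` for `x ∈ A` and `0` otherwise is a cycle of `M` (at a vertex:
`cc (α y) = cc (σ y)` because `face (α y) = σ y`; on the cut edges it is `0`). By `Hom` of `M`,
`h' = g + g ∘ α` with `g` constant on faces. Then `g' x = g x + cc x` on `c.DA` works: constant on
the faces of `c.con` because `con.face (ob i) = nb (i+1)` and `Fc (b i) (α (b (i+1)))`, and
`con.face x = face x` for the other darts. -/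

set_option linter.unusedSectionVars false

namespace Pool.H64.NC.CubicMap

open Function

variable {D : Type*} [DecidableEq D] {M : CubicMap D}

/-- connected -/
def Cn {D : Type*} (M : CubicMap D) : Prop :=
  ∀ S : Set D, S.Nonempty → (∀ d ∈ S, M.σ d ∈ S ∧ M.α d ∈ S) → S = Set.univ

/-- every mod 2 cycle is the boundary of a set of faces -/
def Hom {D : Type*} (M : CubicMap D) : Prop :=
  ∀ h : D → ZMod 2, (∀ d, h (M.α d) = h d) → (∀ d, h d + h (M.σ d) + h (M.σ (M.σ d)) = 0) →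
    ∃ g : D → ZMod 2, (∀ d, g (M.σ (M.α d)) = g d) ∧ ∀ d, h d = g d + g (M.α d)

namespace Cut3
variable (c : M.Cut3)

/-- the cyclic order of the cut edges agrees with the faces -/
def Ring3 : Prop := ∀ i, M.Fc (c.b i) (M.α (c.b (i + 1)))

theorem rd3_new (h : M.Cn) (S : Set c.DA) (hS : S.Nonempty)
    (hc : ∀ d ∈ S, c.con.σ d ∈ S ∧ c.con.α d ∈ S) : ∀ i, c.nb i ∈ S := by
  have h0 : ∃ i, c.nb i ∈ S := by
    by_contra hcon
    push Not at hcon
    have hA : ∀ x ∈ S, x.1 ∈ c.A := by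
      intro x hx
      rcases c.cases x with h1 | ⟨i, hi⟩
      · exact h1
      · exact absurd (hi ▸ hx) (hcon i)
    have hT : {d : D | ∃ x ∈ S, x.1 = d} = Set.univ := by
      apply h
      · obtain ⟨x, hx⟩ := hS
        exact ⟨x.1, x, hx, rfl⟩
      · rintro d ⟨x, hx, rfl⟩
        exact ⟨⟨_, (hc x hx).1, c.con_σ_in (hA x hx)⟩, ⟨_, (hc x hx).2, rfl⟩⟩
    have h1 : M.α (c.b 0) ∈ {d : D | ∃ x ∈ S, x.1 = d} := by
      rw [hT]
      exact Set.mem_univ _
    obtain ⟨x, hx, hx1⟩ := h1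
    exact c.bO 0 (hx1 ▸ hA x hx)
  obtain ⟨i, hi⟩ := h0
  have h1 : c.nb (i + 1) ∈ S := by
    rw [← c.con_σ_nb]
    exact (hc _ hi).1
  have h2 : c.nb (i + 1 + 1) ∈ S := by
    rw [← c.con_σ_nb]
    exact (hc _ h1).1
  intro j
  have h3 : j = i ∨ j = i + 1 ∨ j = i + 1 + 1 := by
    clear hi h1 h2
    revert i j
    decide
  rcases h3 with rfl | rfl | rfl
  · exact hi
  · exact h1
  · exact h2

theorem con_conn (h : M.Cn) : c.con.Cn := by
  intro S hS hc
  have h1 := c.rd3_new h S hS hc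
  by_contra hne
  have h2 : Sᶜ.Nonempty := by
    rw [Set.nonempty_compl]
    exact hne
  have h3 : ∀ d ∈ Sᶜ, c.con.σ d ∈ Sᶜ ∧ c.con.α d ∈ Sᶜ := by
    intro d hd
    constructor
    · intro h4
      have h5 := (hc _ (hc _ h4).1).1
      rw [c.con.σ3] at h5
      exact hd h5
    · intro h4
      have h5 := (hc _ h4).2
      rw [c.con.α2] at h5
      exact hd h5
  exact c.rd3_new h Sᶜ h2 h3 0 (h1 0)

theorem ring_ne (A0 : ∀ x, ¬ M.Fc x (M.α x)) (hr : c.Ring3) {i j : Fin 3} (h : i ≠ j) :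
    ¬ M.Fc (c.b i) (c.b j) := by
  intro hf
  have h1 : j = i + 1 ∨ i = j + 1 := by
    clear hf
    revert i j
    decide
  rcases h1 with rfl | rfl
  · exact A0 (c.b (i + 1)) (hf.symm.trans (hr i))
  · exact A0 (c.b (j + 1)) (hf.trans (hr j))

theorem rd3_const (g : D → ZMod 2) (hg : ∀ d, g (M.σ (M.α d)) = g d) {x y : D} (h : M.Fc x y) :
    g y = g x := by
  have h1 : ∀ n : ℕ, g ((M.face ^ n) x) = g x := by
    intro n
    induction n with
    | zero => rfl
    | succ n ih =>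
      rw [pow_succ', Equiv.Perm.mul_apply, M.face_apply, hg, ih]
  have h2 : ∀ n : ℕ, ∀ z, g ((M.face ^ n) z) = g z := by
    intro n
    induction n with
    | zero => intro z; rfl
    | succ n ih =>
      intro z
      rw [pow_succ', Equiv.Perm.mul_apply, M.face_apply, hg, ih]
  obtain ⟨n, hn⟩ := h
  rcases Int.eq_nat_or_neg n with ⟨k, rfl | rfl⟩
  · rw [zpow_natCast] at hn
    rw [← hn, h1]
  · rw [zpow_neg, zpow_natCast] at hn
    have h3 : (M.face ^ k) y = x := by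
      rw [← hn]
      exact Equiv.apply_symm_apply (M.face ^ k) x
    rw [← h3, h2]

theorem rd3_two (a : ZMod 2) : a + a = 0 := by
  revert a
  decide

theorem rd3_a (p q r : ZMod 2) (h : p + q + r = 0) : 0 + (q + r) = p := by
  revert p q r
  decide

theorem con_hom (A0 : ∀ x, ¬ M.Fc x (M.α x)) (hr : c.Ring3) (h : M.Hom) : c.con.Hom := by
  classical
  intro k hkα hkv
  let s : Fin 3 → ZMod 2 := fun i => k (c.ob i)
  have hs : ∀ i, k (c.nb i) = s i := fun i => by
    have := hkα (c.ob i)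
    rw [c.con_α_ob] at this
    exact this
  have hs0 : s 0 + s 1 + s 2 = 0 := by
    have h1 := hkv (c.nb 0)
    rw [c.con_σ_nb, c.con_σ_nb, hs, hs, hs] at h1
    exact h1
  let cc : D → ZMod 2 := fun x =>
    if M.Fc (c.b 1) x then s 1 else if M.Fc (c.b 2) x then s 1 + s 2 else 0
  have hcc : ∀ {x y : D}, M.Fc x y → cc x = cc y := by
    intro x y hxy
    have e1 : M.Fc (c.b 1) x ↔ M.Fc (c.b 1) y := ⟨fun h => h.trans hxy, fun h => h.trans hxy.symm⟩
    have e2 : M.Fc (c.b 2) x ↔ M.Fc (c.b 2) y := ⟨fun h => h.trans hxy, fun h => h.trans hxy.symm⟩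
    simp only [cc, e1, e2]
  have c0 : cc (c.b 0) = 0 := by
    have h1 := c.ring_ne A0 hr (show (1 : Fin 3) ≠ 0 by decide)
    have h2 := c.ring_ne A0 hr (show (2 : Fin 3) ≠ 0 by decide)
    simp only [cc, if_neg h1, if_neg h2]
  have c1 : cc (c.b 1) = s 1 := by
    have h1 : M.Fc (c.b 1) (c.b 1) := Equiv.Perm.SameCycle.refl _ _
    simp only [cc, if_pos h1]
  have c2 : cc (c.b 2) = s 1 + s 2 := by
    have h1 := c.ring_ne A0 hr (show (1 : Fin 3) ≠ 2 by decide)
    have h2 : M.Fc (c.b 2) (c.b 2) := Equiv.Perm.SameCycle.refl _ _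
    simp only [cc, if_neg h1, if_pos h2]
  have hcα : ∀ i, cc (M.α (c.b (i + 1))) = cc (c.b i) := fun i => (hcc (hr i)).symm
  have hsum : ∀ i, cc (c.b i) + cc (M.α (c.b i)) = s i := by
    intro i
    fin_cases i
    · have h1 := hcα 2
      change cc (M.α (c.b 0)) = _ at h1
      change cc (c.b 0) + cc (M.α (c.b 0)) = s 0
      rw [h1, c0, c2]
      exact rd3_a _ _ _ hs0
    · have h1 := hcα 0
      change cc (M.α (c.b 1)) = _ at h1
      change cc (c.b 1) + cc (M.α (c.b 1)) = s 1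
      rw [h1, c0, c1, add_zero]
    · have h1 := hcα 1
      change cc (M.α (c.b 2)) = _ at h1
      change cc (c.b 2) + cc (M.α (c.b 2)) = s 2
      rw [h1, c1, c2, add_comm, ← add_assoc, rd3_two, zero_add]
  let k' : D → ZMod 2 := fun x =>
    if hx : x ∈ c.A then k ⟨x, Or.inl hx⟩ + cc x + cc (M.α x) else 0
  have hk'in : ∀ x (hx : x ∈ c.A), k' x = k ⟨x, Or.inl hx⟩ + cc x + cc (M.α x) := by
    intro x hx
    simp only [k', dif_pos hx]
  have hk'out : ∀ x, x ∉ c.A → k' x = 0 := by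
    intro x hx
    simp only [k', dif_neg hx]
  have hk'b : ∀ i, k' (c.b i) = 0 := by
    intro i
    rw [hk'in _ (c.bA i), add_assoc, hsum]
    exact rd3_two _
  have hα' : ∀ d, k' (M.α d) = k' d := by
    intro d
    by_cases h1 : d ∈ c.A
    · by_cases h2 : M.α d ∈ c.A
      · rw [hk'in _ h1, hk'in _ h2]
        have h3 : k ⟨M.α d, Or.inl h2⟩ = k ⟨d, Or.inl h1⟩ := hkα ⟨d, Or.inl h1⟩
        rw [h3, M.α2, add_assoc, add_assoc, add_comm (cc (M.α d))]
      · obtain ⟨i, rfl⟩ := (c.hb d).1 ⟨h1, h2⟩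
        rw [hk'out _ h2, hk'b]
    · by_cases h2 : M.α d ∈ c.A
      · obtain ⟨i, hi⟩ := (c.hb (M.α d)).1 ⟨h2, by rw [M.α2]; exact h1⟩
        rw [hk'out _ h1, ← hi, hk'b]
      · rw [hk'out _ h1, hk'out _ h2]
  have hFα : ∀ x, cc (M.α x) = cc (M.σ x) := by
    intro x
    apply hcc
    refine ⟨1, ?_⟩
    rw [zpow_one, M.face_apply, M.α2]
  have hv' : ∀ d, k' d + k' (M.σ d) + k' (M.σ (M.σ d)) = 0 := by
    intro d
    by_cases h1 : d ∈ c.A
    · have h2 : M.σ d ∈ c.A := (c.hσ d).2 h1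
      have h3 : M.σ (M.σ d) ∈ c.A := (c.hσ _).2 h2
      rw [hk'in _ h1, hk'in _ h2, hk'in _ h3, hFα, hFα, hFα, M.σ3]
      have h4 := hkv ⟨d, Or.inl h1⟩
      have e1 : c.con.σ ⟨d, Or.inl h1⟩ = ⟨M.σ d, Or.inl h2⟩ := Subtype.ext (c.con_σ_in h1)
      have e2 : c.con.σ ⟨M.σ d, Or.inl h2⟩ = ⟨M.σ (M.σ d), Or.inl h3⟩ :=
        Subtype.ext (c.con_σ_in h2)
      rw [e1, e2] at h4
      generalize k ⟨d, Or.inl h1⟩ = p1 at h4 ⊢
      generalize k ⟨M.σ d, Or.inl h2⟩ = p2 at h4 ⊢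
      generalize k ⟨M.σ (M.σ d), Or.inl h3⟩ = p3 at h4 ⊢
      generalize cc d = q1
      generalize cc (M.σ d) = q2
      generalize cc (M.σ (M.σ d)) = q3
      revert h4
      revert p1 p2 p3 q1 q2 q3
      decide
    · have h2 : M.σ d ∉ c.A := fun h => h1 ((c.hσ d).1 h)
      have h3 : M.σ (M.σ d) ∉ c.A := fun h => h2 ((c.hσ _).1 h)
      rw [hk'out _ h1, hk'out _ h2, hk'out _ h3]
      rfl
  obtain ⟨g, hg, hgk⟩ := h k' hα' hv'
  have hob : ∀ d : c.DA, d.1 ∈ c.A → k d = (g d.1 + cc d.1) + (g (M.α d.1) + cc (M.α d.1)) := by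
    rintro ⟨d, hd'⟩ hd
    have h1 := hgk d
    rw [hk'in _ hd] at h1
    change k ⟨d, Or.inl hd⟩ = (g d + cc d) + (g (M.α d) + cc (M.α d))
    generalize k ⟨d, Or.inl hd⟩ = p at h1 ⊢
    generalize cc d = q1 at h1 ⊢
    generalize cc (M.α d) = q2 at h1 ⊢
    generalize g d = q3 at h1 ⊢
    generalize g (M.α d) = q4 at h1 ⊢
    revert h1
    revert p q1 q2 q3 q4
    decide
  refine ⟨fun x => g x.1 + cc x.1, ?_, ?_⟩
  · intro x
    change g (c.con.σ (c.con.α x)).1 + cc (c.con.σ (c.con.α x)).1 = g x.1 + cc x.1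
    by_cases h1 : (c.con.α x).1 ∈ c.A
    · have h2 : (c.con.σ (c.con.α x)).1 = M.σ (M.α x.1) := c.con_σ_in h1
      rw [h2, hg]
      congr 1
      symm
      apply hcc
      exact ⟨1, by rw [zpow_one, M.face_apply]⟩
    · have h3 : x.1 ∈ c.A := x.2.resolve_right h1
      obtain ⟨i, hi⟩ := (c.hb x.1).1 ⟨h3, h1⟩
      have h4 : x = c.ob i := Subtype.ext hi.symm
      rw [h4, c.con_α_ob, c.con_σ_nb]
      change g (M.α (c.b (i + 1))) + cc (M.α (c.b (i + 1))) = g (c.b i) + cc (c.b i)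
      rw [hcα, rd3_const g hg (hr i)]
  · intro x
    rcases c.cases x with h1 | ⟨i, rfl⟩
    · exact hob x h1
    · have h2 := hob (c.ob i) (c.bA i)
      have h3 : k (c.nb i) = k (c.ob i) := hs i
      rw [h3, h2, c.con_α_nb, add_comm]
      rfl

end Cut3
end Pool.H64.NC.CubicMap
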