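import Pool.Agent.Helper64.NC.Rd.CutLem

/-!
NC-RD2. Contraction of a side of a 3-edge cut preserves the property to have exactly three Hamilton
circuits.  `c.con` is the contracted map (see `Rd/Cut3.lean`), `c.op` the same cut seen from the other
side.  Use `cut3_one` (being proved in parallel in `Rd/CutLem.lean`).

(1) `ham_res`: if `M.Ham U` then `c.con.Ham (c.res U)`.  `Clo`: clear (at the new vertex:
`cut3_one`). Connectivity: choose `j` with `b j ∉ U`; let `κ x` be `x` as a dart of `c.DA` if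
possible, `nb j` otherwise. The relation `Conn` of `c.con` pulled back along `κ` contains the steps
`sw M.σ U` and `ae M.α U` (`conn_map`): for `x ∈ A` the maps `sw` correspond; for `x ∉ A`, `x` and
`sw x` both used (else nothing to prove), both are mapped to used new darts, and the two used new darts
are exchanged by `sw` of `c.con`.  `ae`: if `x ∈ DA` then `α x ∈ DA`; otherwise both go to `nb j`.
(2) `ham_glue`: if `M.Clo U`, `c.con.Ham (c.res U)` and `c.op.con.Ham (c.op.res U)` then `M.Ham U`.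
Use `vpatch_ham` and `vpatch_trace` (`Smith.lean`) for the map `c.con`, `d = c.nb 0`,
`T = c.con.vpatch d` (so `T.m i = c.nb i`): `Cov` says that every used `x ∈ A` is `T.ext.R`-connected
to some `nb i`; since `T.ext.σ` fixes the new darts, this path is a path of `M` (`conn_map` with
`Subtype.val`), so `x` is connected in `M` to some used `α (b i)`. Likewise (with `c.op`) every used
`y ∉ A` is connected to a used `α (α (b i)) = b i` and so to `α (b i)` (`ae`). The two used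
`α (b i)` are connected in `M` by `Re_trace` for `T` (`vpatch_trace`: the trace is an
involution, with `trace i = i` iff `nb i ∈ c.res U`, and not the identity).
(3) Let `U1, U2, U3` be the Hamilton circuits of `M`. `c.res Uk` are three Hamilton circuits of
`c.con`, different, since `b i` is in exactly one `Uk` (`three_one`) and each `Uk` contains
exactly one `b i` (`cut3_one`). Let `c.con.Ham V`. Exactly one `nb i` is in `V`; let `b i ∈ Uk`. Let `U`
be `V` on `A` and `Uk` outside of `A`. Then `M.Clo U` (`b j ∈ U` iff `j = i` iff `α (b j) ∈ U`),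
`c.res U = V`, `c.op.res U = c.op.res Uk`. By (1) for `c.op` and `Uk` and by (2) `M.Ham U`, so
`U = Uk` because `b i ∈ U`; hence `V = c.res Uk`. -/

set_option linter.unusedSectionVars false

namespace Pool.H64.NC.CubicMap

open Function

variable {D : Type*} [Fintype D] [DecidableEq D] {M : CubicMap D}

namespace Cut3
variable (c : M.Cut3)

/-- restriction of a set of darts to the contracted map -/
def res (U : Finset D) : Finset c.DA := U.subtype _

theorem mem_res {U : Finset D} {x : c.DA} : x ∈ c.res U ↔ x.1 ∈ U := Finset.mem_subtype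

/-! ### auxiliary lemmas -/

theorem r2_nb {U : Finset D} (hU : M.Clo U) (i : Fin 3) : c.nb i ∈ c.res U ↔ c.b i ∈ U := by
  rw [mem_res]; exact (hU.1 (c.b i)).symm

/-- two used darts of a vertex are connected -/
theorem r2_vtx {E : Type*} [DecidableEq E] {N : CubicMap E} {R : Finset E} (h : N.Clo R) {x : E}
    (h1 : x ∉ R) (h2 : N.σ x ∉ R) : Conn (sw N.σ R) (ae N.α R) x (N.σ x) := by
  have h3 : N.σ (N.σ x) ∈ R := by
    have := h.2 x
    unfold One3 at this
    tauto
  have h4 : sw N.σ R x = N.σ x := by unfold sw; rw [if_pos ⟨h1, h2, h3⟩]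
  have h5 : Conn (sw N.σ R) (ae N.α R) x (sw N.σ R x) := Conn.ms x
  rwa [h4] at h5

theorem r2_new {R : Finset c.DA} (h : c.con.Clo R) {i k : Fin 3} (hi : c.nb i ∉ R)
    (hk : c.nb k ∉ R) : Conn (sw c.con.σ R) (ae c.con.α R) (c.nb i) (c.nb k) := by
  have h3 : ∀ i k : Fin 3, k = i ∨ k = i + 1 ∨ i = k + 1 := by decide
  rcases h3 i k with e | e | e
  · rw [e]; exact Conn.refl _
  · have := r2_vtx h hi (by rw [c.con_σ_nb, ← e]; exact hk)
    rwa [c.con_σ_nb, ← e] at this
  · have := r2_vtx h hk (by rw [c.con_σ_nb, ← e]; exact hi)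
    rw [c.con_σ_nb, ← e] at this
    exact this.symm

theorem r2_σσ {x : c.DA} (h : x.1 ∈ c.A) : (c.con.σ (c.con.σ x)).1 = M.σ (M.σ x.1) := by
  have h1 := c.con_σ_in h
  have h2 : (c.con.σ x).1 ∈ c.A := by rw [h1]; exact (c.hσ _).2 h
  rw [c.con_σ_in h2, h1]

theorem r2_sw {U : Finset D} {x : c.DA} (h : x.1 ∈ c.A) :
    (sw c.con.σ (c.res U) x).1 = sw M.σ U x.1 := by
  have e1 := c.con_σ_in h
  have e2 := c.r2_σσ h
  unfold sw
  simp only [mem_res, e1, e2]
  split_ifs
  · exact e1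
  · exact e2
  · rfl

theorem r2_ae {U : Finset D} (x : c.DA) : (ae c.con.α (c.res U) x).1 = ae M.α U x.1 := by
  unfold ae
  simp only [mem_res, c.con_α]
  split_ifs
  · rfl
  · rfl

theorem r2_clo {U : Finset D} (hU : M.Clo U)
    (h1 : One3 (c.b 0 ∈ U) (c.b 1 ∈ U) (c.b 2 ∈ U)) : c.con.Clo (c.res U) := by
  refine ⟨?_, ?_⟩
  · intro x
    rw [mem_res, mem_res, c.con_α]
    exact hU.1 x.1
  · intro x
    rcases c.cases x with h | ⟨i, rfl⟩
    · rw [mem_res, mem_res, mem_res, c.con_σ_in h, c.r2_σσ h]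
      exact hU.2 x.1
    · rw [c.con_σ_nb, c.con_σ_nb, c.r2_nb hU, c.r2_nb hU, c.r2_nb hU]
      fin_cases i
      · exact h1
      · change One3 (c.b 1 ∈ U) (c.b 2 ∈ U) (c.b 0 ∈ U)
        unfold One3 at h1 ⊢; tauto
      · change One3 (c.b 2 ∈ U) (c.b 0 ∈ U) (c.b 1 ∈ U)
        unfold One3 at h1 ⊢; tauto

theorem r2_mem_op {x : D} (h : ¬ (x ∈ c.A ∨ M.α x ∈ c.A)) :
    ¬ (M.α x ∈ c.A ∨ M.α (M.α x) ∈ c.A) := by
  rw [M.α2]; tauto

theorem ham_res {U : Finset D} (hU : M.Ham U) : c.con.Ham (c.res U) := by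
  have hone := cut3_one c hU
  have hclo := c.r2_clo hU.1 hone
  refine ⟨hclo, ?_⟩
  obtain ⟨j, hj⟩ : ∃ j, c.b j ∉ U := by
    unfold One3 at hone
    by_cases h : c.b 0 ∈ U
    · exact ⟨1, by tauto⟩
    · exact ⟨0, h⟩
  have hjn : c.nb j ∉ c.res U := fun h => hj ((c.r2_nb hU.1 j).1 h)
  let κ : D → c.DA := fun x => if h : x ∈ c.A ∨ M.α x ∈ c.A then ⟨x, h⟩ else c.nb j
  have κin : ∀ (x : D) (h : x ∈ c.A ∨ M.α x ∈ c.A), κ x = ⟨x, h⟩ := fun x h => dif_pos h
  have κout : ∀ x : D, ¬ (x ∈ c.A ∨ M.α x ∈ c.A) → κ x = c.nb j := fun x h => dif_neg h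
  have κnew : ∀ x : D, x ∉ c.A → x ∉ U → ∃ i, κ x = c.nb i ∧ c.nb i ∉ c.res U := by
    intro x hx hxU
    by_cases h : x ∈ c.A ∨ M.α x ∈ c.A
    · refine ⟨c.idx x, ?_, ?_⟩
      · rw [κin x h]; exact c.new_of (x := ⟨x, h⟩) hx
      · intro h'
        rw [← c.new_of (x := ⟨x, h⟩) hx, mem_res] at h'
        exact hxU h'
    · exact ⟨j, κout x h, hjn⟩
  have key : ∀ x y : D, Conn (sw M.σ U) (ae M.α U) x y →
      Conn (sw c.con.σ (c.res U)) (ae c.con.α (c.res U)) (κ x) (κ y) := by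
    intro x y hxy
    refine conn_map conn_equiv κ ?_ ?_ hxy
    · intro z
      by_cases hz : z ∈ c.A
      · have hz' : sw M.σ U z ∈ c.A := by
          rcases sw_casesM (M := M) U z with h | h | h <;> rw [h]
          · exact hz
          · exact (c.hσ _).2 hz
          · exact (c.hσ _).2 ((c.hσ _).2 hz)
        rw [κin z (Or.inl hz), κin _ (Or.inl hz')]
        have : (⟨sw M.σ U z, Or.inl hz'⟩ : c.DA) =
            sw c.con.σ (c.res U) (⟨z, Or.inl hz⟩ : c.DA) :=
          Subtype.ext (c.r2_sw (x := ⟨z, Or.inl hz⟩) hz).symm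
        rw [this]
        exact Conn.ms _
      · by_cases hs : sw M.σ U z = z
        · rw [hs]; exact Conn.refl _
        · have hzU : z ∉ U := fun h => hs (M.pole0.sw_mem h)
          have hsU : sw M.σ U z ∉ U := fun h => by
            have h1 : sw M.σ U (sw M.σ U z) = sw M.σ U z := M.pole0.sw_mem h
            rw [sw_invM] at h1
            exact hs h1.symm
          have hsA : sw M.σ U z ∉ c.A := by
            rcases sw_casesM (M := M) U z with h | h | h <;> rw [h]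
            · exact hz
            · exact fun h => hz ((c.hσ _).1 h)
            · exact fun h => hz ((c.hσ _).1 ((c.hσ _).1 h))
          obtain ⟨i, hi, hi'⟩ := κnew z hz hzU
          obtain ⟨k, hk, hk'⟩ := κnew _ hsA hsU
          rw [hi, hk]
          exact c.r2_new hclo hi' hk'
    · intro z
      by_cases hz : z ∈ c.A ∨ M.α z ∈ c.A
      · have hz' : ae M.α U z ∈ c.A ∨ M.α (ae M.α U z) ∈ c.A := by
          rcases ae_casesM (M := M) U z with h | h <;> rw [h]
          · exact hz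
          · rw [M.α2]; exact hz.symm
        rw [κin z hz, κin _ hz']
        have : (⟨ae M.α U z, hz'⟩ : c.DA) = ae c.con.α (c.res U) (⟨z, hz⟩ : c.DA) :=
          Subtype.ext (c.r2_ae (⟨z, hz⟩ : c.DA)).symm
        rw [this]
        exact Conn.ma _
      · have hz' : ¬ (ae M.α U z ∈ c.A ∨ M.α (ae M.α U z) ∈ c.A) := by
          rcases ae_casesM (M := M) U z with h | h <;> rw [h]
          · exact hz
          · exact c.r2_mem_op hz
        rw [κout z hz, κout _ hz']
        exact Conn.refl _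
  intro x y hx hy
  rw [mem_res] at hx hy
  have := key x.1 y.1 (hU.2 _ _ hx hy)
  rwa [κin x.1 x.2, κin y.1 y.2] at this

theorem r2_m (i : Fin 3) : (c.con.vpatch (c.nb 0)).m i = c.nb i := by
  have e1 : c.con.σ (c.nb 0) = c.nb 1 := c.con_σ_nb 0
  have e2 : c.con.σ (c.nb 1) = c.nb 2 := c.con_σ_nb 1
  fin_cases i
  · rfl
  · exact e1
  · change c.con.σ (c.con.σ (c.nb 0)) = c.nb 2
    rw [e1, e2]

theorem r2_P {x : c.DA} : x ∈ (c.con.vpatch (c.nb 0)).P ↔ x.1 ∉ c.A := by
  constructor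
  · intro h h'
    have h1 : ∀ i, c.nb i ≠ x := fun i hi => c.nbA i (by rw [hi]; exact h')
    have e1 : c.con.σ (c.nb 0) = c.nb 1 := c.con_σ_nb 0
    have e2 : c.con.σ (c.nb 1) = c.nb 2 := c.con_σ_nb 1
    simp only [vpatch, Finset.mem_insert, Finset.mem_singleton] at h
    rw [e1, e2] at h
    rcases h with h | h | h
    · exact h1 0 h.symm
    · exact h1 1 h.symm
    · exact h1 2 h.symm
  · intro h
    have h2 := (c.con.vpatch (c.nb 0)).mP (c.idx x.1)
    rw [c.r2_m, ← c.new_of h] at h2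
    exact h2

theorem r2_R {U : Finset D} {x y : c.DA} (h : (c.con.vpatch (c.nb 0)).ext.R (c.res U) x y) :
    Conn (sw M.σ U) (ae M.α U) x.1 y.1 := by
  have hglue : (c.con.vpatch (c.nb 0)).glue (c.res U) (c.res U) = c.res U := by
    ext z
    rw [Patch.mem_glue]; tauto
  refine conn_map conn_equiv Subtype.val ?_ ?_ h
  · intro z
    by_cases hz : z ∈ (c.con.vpatch (c.nb 0)).P
    · rw [Patch.ext_sw_in _ hz]; exact Conn.refl _
    · rw [Patch.ext_sw_out (C := c.res U) _ hz, hglue]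
      have hz' : z.1 ∈ c.A := by
        by_contra hcon
        exact hz (c.r2_P.2 hcon)
      rw [c.r2_sw hz']
      exact Conn.ms _
  · intro z
    rw [Patch.ext_ae_out (C := c.res U) _ (fun i => Iff.rfl) (c.con.vpatch_X _ z), hglue, c.r2_ae]
    exact Conn.ma _

theorem r2_side {U : Finset D} (hU : M.Clo U) (h1 : c.con.Ham (c.res U)) {x : D}
    (hx : x ∈ c.A) (hxU : x ∉ U) :
    ∃ i, c.b i ∉ U ∧ Conn (sw M.σ U) (ae M.α U) x (M.α (c.b i)) := by
  obtain ⟨hcl, hcov⟩ := (vpatch_ham (M := c.con) (d := c.nb 0)).1 h1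
  have hxP : (⟨x, Or.inl hx⟩ : c.DA) ∉ (c.con.vpatch (c.nb 0)).P := fun h => c.r2_P.1 h hx
  have hxR : (⟨x, Or.inl hx⟩ : c.DA) ∉ c.res U := fun h => hxU (c.mem_res.1 h)
  obtain ⟨i, hi⟩ := hcov _ ((Patch.ext_σ_ne _).2 hxP) hxR
  refine ⟨i, ?_, ?_⟩
  · intro h
    have h2 : (c.con.vpatch (c.nb 0)).ext.m i ∈ c.res U := by
      rw [Patch.ext_m, c.r2_m]; exact (c.r2_nb hU i).2 h
    have h3 := Pole.R_iso' h2 hi
    rw [Patch.ext_m] at h3
    rw [h3] at hxP
    exact hxP ((c.con.vpatch (c.nb 0)).mP i)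
  · have h2 := c.r2_R hi
    rw [Patch.ext_m, c.r2_m] at h2
    exact h2

theorem r2_two {U : Finset D} (hU : M.Clo U) (h1 : c.con.Ham (c.res U)) {i k : Fin 3}
    (hi : c.b i ∉ U) (hk : c.b k ∉ U) :
    Conn (sw M.σ U) (ae M.α U) (M.α (c.b i)) (M.α (c.b k)) := by
  obtain ⟨hcl, hcov⟩ := (vpatch_ham (M := c.con) (d := c.nb 0)).1 h1
  obtain ⟨t1, t2, t3⟩ := vpatch_trace hcl hcov
  have hu : ∀ i, c.b i ∉ U → (c.con.vpatch (c.nb 0)).ext.trace (c.res U) i ≠ i := by
    intro i hi h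
    have := (t3 i).2 h
    rw [c.r2_m, c.r2_nb hU] at this
    exact hi this
  rcases transp3' _ t1 i k (hu i hi) (hu k hk) with h | h
  · rw [h]; exact Conn.refl _
  · have h2 := c.r2_R (Patch.Re_trace (c.con.vpatch (c.nb 0)) (E := c.res U) i)
    rw [← h, c.r2_m, c.r2_m] at h2
    exact h2

theorem ham_glue {U : Finset D} (hU : M.Clo U) (h1 : c.con.Ham (c.res U))
    (h2 : c.op.con.Ham (c.op.res U)) : M.Ham U := by
  refine ⟨hU, ?_⟩
  have key : ∀ x, x ∉ U → ∃ i, c.b i ∉ U ∧ Conn (sw M.σ U) (ae M.α U) x (M.α (c.b i)) := by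
    intro x hx
    by_cases hxA : x ∈ c.A
    · exact c.r2_side hU h1 hxA hx
    · obtain ⟨i, hi, hi'⟩ := c.op.r2_side hU h2 (x := x) (Finset.mem_compl.2 hxA) hx
      have hi : M.α (c.b i) ∉ U := hi
      have hi' : Conn (sw M.σ U) (ae M.α U) x (M.α (M.α (c.b i))) := hi'
      rw [M.α2] at hi'
      have hb : c.b i ∉ U := fun h => hi ((hU.1 _).1 h)
      refine ⟨i, hb, hi'.trans ?_⟩
      have e : ae M.α U (c.b i) = M.α (c.b i) := by unfold ae; rw [if_pos ⟨hb, hi⟩]
      have := Conn.ma (s := sw M.σ U) (a := ae M.α U) (c.b i)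
      rwa [e] at this
  intro x y hx hy
  obtain ⟨i, hi, hxi⟩ := key x hx
  obtain ⟨k, hk, hyk⟩ := key y hy
  exact hxi.trans ((c.r2_two hU h1 hi hk).trans hyk.symm)

/-- exchange of the `A` part of a Hamilton circuit -/
theorem r2_exch {V : Finset c.DA} (hV : c.con.Ham V) {W : Finset D} (hW : M.Ham W)
    (hVW : ∀ j, c.nb j ∈ V ↔ c.b j ∈ W) :
    ∃ U, M.Ham U ∧ c.res U = V ∧ ∀ j, c.b j ∈ U ↔ c.nb j ∈ V := by
  let U : Finset D := Finset.univ.filter
    (fun x => (∃ h : x ∈ c.A, (⟨x, Or.inl h⟩ : c.DA) ∈ V) ∨ (x ∉ c.A ∧ x ∈ W))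
  have hin : ∀ (x : D) (h : x ∈ c.A), x ∈ U ↔ (⟨x, Or.inl h⟩ : c.DA) ∈ V := by
    intro x h
    simp only [U, Finset.mem_filter, Finset.mem_univ, true_and]
    constructor
    · rintro (⟨_, h1⟩ | ⟨h1, _⟩)
      · exact h1
      · exact absurd h h1
    · intro h1; exact Or.inl ⟨h, h1⟩
  have hout : ∀ x : D, x ∉ c.A → (x ∈ U ↔ x ∈ W) := by
    intro x h
    simp only [U, Finset.mem_filter, Finset.mem_univ, true_and]
    constructor
    · rintro (⟨h1, _⟩ | ⟨_, h1⟩)
      · exact absurd h1 h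
      · exact h1
    · intro h1; exact Or.inr ⟨h, h1⟩
  have hbU : ∀ j, c.b j ∈ U ↔ c.nb j ∈ V := by
    intro j
    rw [hin _ (c.bA j)]
    have := hV.1.1 (c.nb j)
    rw [c.con_α_nb] at this
    exact this.symm
  have hαb : ∀ j, M.α (c.b j) ∈ U ↔ c.nb j ∈ V := by
    intro j
    rw [hout _ (c.bO j), hVW]
    exact (hW.1.1 _).symm
  have hcross : ∀ x : D, x ∈ c.A → M.α x ∉ c.A → (x ∈ U ↔ M.α x ∈ U) := by
    intro x h1 h2
    obtain ⟨j, rfl⟩ := (c.hb x).1 ⟨h1, h2⟩
    rw [hbU, hαb]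
  have hclo : M.Clo U := by
    refine ⟨?_, ?_⟩
    · intro x
      by_cases h1 : x ∈ c.A <;> by_cases h2 : M.α x ∈ c.A
      · rw [hin _ h1, hin _ h2]
        exact hV.1.1 (⟨x, Or.inl h1⟩ : c.DA)
      · exact hcross x h1 h2
      · have := hcross (M.α x) h2 (by rw [M.α2]; exact h1)
        rw [M.α2] at this
        exact this.symm
      · rw [hout _ h1, hout _ h2]
        exact hW.1.1 x
    · intro x
      by_cases h1 : x ∈ c.A
      · have h2 : M.σ x ∈ c.A := (c.hσ _).2 h1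
        have h3 : M.σ (M.σ x) ∈ c.A := (c.hσ _).2 h2
        rw [hin _ h1, hin _ h2, hin _ h3]
        have h4 := hV.1.2 (⟨x, Or.inl h1⟩ : c.DA)
        have e1 : c.con.σ (⟨x, Or.inl h1⟩ : c.DA) = ⟨M.σ x, Or.inl h2⟩ :=
          Subtype.ext (c.con_σ_in (x := ⟨x, Or.inl h1⟩) h1)
        have e2 : c.con.σ (⟨M.σ x, Or.inl h2⟩ : c.DA) = ⟨M.σ (M.σ x), Or.inl h3⟩ :=
          Subtype.ext (c.con_σ_in (x := ⟨M.σ x, Or.inl h2⟩) h2)
        rw [e1, e2] at h4
        exact h4
      · have h2 : M.σ x ∉ c.A := fun h => h1 ((c.hσ _).1 h)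
        have h3 : M.σ (M.σ x) ∉ c.A := fun h => h2 ((c.hσ _).1 h)
        rw [hout _ h1, hout _ h2, hout _ h3]
        exact hW.1.2 x
  have hres : c.res U = V := by
    ext x
    rw [mem_res]
    rcases c.cases x with h | ⟨j, rfl⟩
    · exact hin x.1 h
    · exact hαb j
  have hop : c.op.res U = c.op.res W := by
    ext x
    rw [mem_res, mem_res]
    by_cases h : x.1 ∈ c.A
    · have h2 : M.α x.1 ∉ c.A := by
        rcases x.2 with h' | h'
        · exact absurd h (Finset.mem_compl.1 h')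
        · exact Finset.mem_compl.1 h'
      obtain ⟨j, hj⟩ := (c.hb x.1).1 ⟨h, h2⟩
      rw [← hj, hbU, hVW]
    · exact hout _ h
  refine ⟨U, ?_, hres, hbU⟩
  apply c.ham_glue hclo
  · rw [hres]; exact hV
  · rw [hop]; exact c.op.ham_res hW

theorem con_three (h : M.Three) : c.con.Three := by
  obtain ⟨U1, U2, U3, hU1, hU2, hU3, h12, h13, h23, hall⟩ := h
  have hone := three_one hU1 hU2 hU3 h12 h13 h23 hall
  have hd : ∀ V V' : Finset D, M.Ham V → M.Ham V' → (∀ d, ¬ (d ∈ V ∧ d ∈ V')) →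
      c.res V ≠ c.res V' := by
    intro V V' hV hV' hd heq
    have h1 := cut3_one c hV
    obtain ⟨i, hi⟩ : ∃ i, c.b i ∈ V := by
      unfold One3 at h1
      rcases h1 with h1 | h1 | h1
      · exact ⟨0, h1.1⟩
      · exact ⟨1, h1.2.1⟩
      · exact ⟨2, h1.2.2⟩
    have h2 := (c.r2_nb hV.1 i).2 hi
    rw [heq] at h2
    exact hd _ ⟨hi, (c.r2_nb hV'.1 i).1 h2⟩
  refine ⟨c.res U1, c.res U2, c.res U3, c.ham_res hU1, c.ham_res hU2, c.ham_res hU3, ?_, ?_, ?_, ?_⟩
  · exact hd _ _ hU1 hU2 (fun d => by have := hone d; unfold One3 at this; tauto)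
  · exact hd _ _ hU1 hU3 (fun d => by have := hone d; unfold One3 at this; tauto)
  · exact hd _ _ hU2 hU3 (fun d => by have := hone d; unfold One3 at this; tauto)
  intro V hV
  have hv : One3 (c.nb 0 ∈ V) (c.nb 1 ∈ V) (c.nb 2 ∈ V) := by
    have := hV.1.2 (c.nb 0)
    rwa [c.con_σ_nb, c.con_σ_nb] at this
  obtain ⟨i, hi, hi'⟩ : ∃ i, c.nb i ∈ V ∧ ∀ j, c.nb j ∈ V → j = i := by
    unfold One3 at hv
    rcases hv with ⟨h1, h2, h3⟩ | ⟨h1, h2, h3⟩ | ⟨h1, h2, h3⟩
    · refine ⟨0, h1, fun j hj => ?_⟩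
      fin_cases j
      · rfl
      · exact absurd hj h2
      · exact absurd hj h3
    · refine ⟨1, h2, fun j hj => ?_⟩
      fin_cases j
      · exact absurd hj h1
      · rfl
      · exact absurd hj h3
    · refine ⟨2, h3, fun j hj => ?_⟩
      fin_cases j
      · exact absurd hj h1
      · exact absurd hj h2
      · rfl
  have huniq : ∀ W : Finset D, M.Ham W → c.b i ∈ W → ∀ j, c.b j ∈ W → j = i := by
    intro W hW hiW j hj
    have h1 := cut3_one c hW
    unfold One3 at h1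
    by_contra hne
    fin_cases i <;> fin_cases j <;> simp_all
  have hmain : ∀ W : Finset D, M.Ham W → c.b i ∈ W →
      ∃ U, M.Ham U ∧ c.res U = V ∧ c.b i ∈ U := by
    intro W hW hiW
    obtain ⟨U, h1, h2, h3⟩ := c.r2_exch hV hW (by
      intro j
      constructor
      · intro hj; rw [hi' j hj]; exact hiW
      · intro hj; rw [huniq W hW hiW j hj]; exact hi)
    exact ⟨U, h1, h2, (h3 i).2 hi⟩
  obtain ⟨U, g1, g2, g3⟩ : ∃ U, M.Ham U ∧ c.res U = V ∧ c.b i ∈ U := by
    have := hone (c.b i)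
    unfold One3 at this
    rcases this with h1 | h1 | h1
    · exact hmain U1 hU1 h1.1
    · exact hmain U2 hU2 h1.2.1
    · exact hmain U3 hU3 h1.2.2
  rcases hall U g1 with rfl | rfl | rfl
  · exact Or.inl g2.symm
  · exact Or.inr (Or.inl g2.symm)
  · exact Or.inr (Or.inr g2.symm)

end Cut3
end Pool.H64.NC.CubicMap
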