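import Pool.Agent.Helper64.NC.Rd.Euler

/-! NC: curvature sum over the darts. -/

set_option linter.unusedSectionVars false

namespace Pool.H64.NC

open Function Equiv

namespace CubicMap
variable {D : Type*} [Fintype D] [DecidableEq D] {M : CubicMap D}

theorem fc_iter {x y : D} (h : M.Fc x y) : ∃ n < M.flen x, M.face^[n] x = y := by
  obtain ⟨n, hn⟩ := h.exists_nat_pow_eq
  have hp : 0 < M.flen x := minimalPeriod_pos_of_mem_periodicPts
    ((Injective.mem_periodicPts (M.face.injective)) _)
  refine ⟨n % M.flen x, Nat.mod_lt _ hp, ?_⟩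
  have h1 : M.face^[n % M.flen x] x = M.face^[n] x := iterate_mod_minimalPeriod_eq
  rw [h1, ← hn]
  exact (Equiv.Perm.iterate_eq_pow M.face n) ▸ rfl

theorem fc_iterate (x : D) (n : ℕ) : M.Fc x (M.face^[n] x) := by
  refine ⟨n, ?_⟩
  rw [zpow_natCast, ← Equiv.Perm.iterate_eq_pow]

theorem flen_fc {x y : D} (h : M.Fc x y) : M.flen x = M.flen y := eu_period _ h

open Classical in
theorem face_card (x : D) : (Finset.univ.filter (fun y => M.Fc x y)).card = M.flen x := by
  have h2 : Finset.univ.filter (fun y => M.Fc x y) =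
      (Finset.range (M.flen x)).image (fun n => M.face^[n] x) := by
    ext y
    rw [Finset.mem_filter, Finset.mem_image]
    constructor
    · rintro ⟨-, h⟩
      obtain ⟨n, hn, h'⟩ := fc_iter h
      exact ⟨n, Finset.mem_range.2 hn, h'⟩
    · rintro ⟨n, -, rfl⟩
      exact ⟨Finset.mem_univ _, fc_iterate x n⟩
  rw [h2, Finset.card_image_of_injOn, Finset.card_range]
  intro a ha b hb hab
  exact iterate_injOn_Iio_minimalPeriod (Finset.mem_range.1 ha) (Finset.mem_range.1 hb) hab

open Classical in
/-- the number of faces as a sum over the darts -/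
theorem sum_inv : ∑ x : D, (1 : ℚ) / M.flen x = ncyc M.face := by
  have : Finite (Quotient (Perm.SameCycle.setoid M.face)) := Quotient.finite _
  have : Fintype (Quotient (Perm.SameCycle.setoid M.face)) := Fintype.ofFinite _
  rw [← Finset.sum_fiberwise Finset.univ (Quotient.mk (Perm.SameCycle.setoid M.face))
      (fun x => (1 : ℚ) / M.flen x)]
  have h1 : ∀ q ∈ (Finset.univ : Finset (Quotient (Perm.SameCycle.setoid M.face))),
      ∑ x ∈ Finset.univ.filter (fun x => Quotient.mk (Perm.SameCycle.setoid M.face) x = q),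
        (1 : ℚ) / M.flen x = 1 := by
    intro q _
    obtain ⟨x, rfl⟩ := Quotient.mk_surjective q
    have h2 : Finset.univ.filter (fun d => Quotient.mk (Perm.SameCycle.setoid M.face) d =
        Quotient.mk (Perm.SameCycle.setoid M.face) x) =
        Finset.univ.filter (fun y => M.Fc x y) := by
      ext y
      rw [Finset.mem_filter, Finset.mem_filter]
      refine and_congr_right fun _ => ?_
      constructor
      · intro h; exact Perm.SameCycle.symm (Quotient.exact h)
      · intro h; exact Quotient.sound (Perm.SameCycle.symm h)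
    rw [h2]
    have h3 : ∀ y ∈ Finset.univ.filter (fun y => M.Fc x y), (1 : ℚ) / M.flen y = 1 / M.flen x := by
      intro y hy
      rw [flen_fc (Finset.mem_filter.1 hy).2]
    rw [Finset.sum_congr rfl h3, Finset.sum_const, face_card, nsmul_eq_mul]
    have hp : 0 < M.flen x := minimalPeriod_pos_of_mem_periodicPts
      ((Injective.mem_periodicPts (M.face.injective)) _)
    have : (M.flen x : ℚ) ≠ 0 := by exact_mod_cast hp.ne'
    field_simp
  rw [Finset.sum_congr rfl h1, Finset.sum_const, Finset.card_univ, ncyc, Nat.card_eq_fintype_card]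
  simp

/-- Euler's formula: total curvature -/
theorem euler_sum (hM : M.Genus0) : ∑ x : D, ((6 : ℚ) / M.flen x - 1) = 12 := by
  have h1 := sum_inv (M := M)
  have h2 := ncyc_mul_eq M.permσ 3 (eu_three M)
  have h3 := hM.2
  have h4 : ∑ x : D, ((6 : ℚ) / M.flen x - 1) =
      6 * ∑ x : D, (1 : ℚ) / M.flen x - Fintype.card D := by
    rw [Finset.sum_sub_distrib, Finset.mul_sum]
    congr 1
    · exact Finset.sum_congr rfl fun x _ => by ring
    · simp
  rw [h4, h1]
  have h5 : (3 : ℚ) * ncyc M.permσ = Fintype.card D := by exact_mod_cast h2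
  have h6 : (2 : ℚ) * (ncyc M.permσ + ncyc M.face) = Fintype.card D + 4 := by exact_mod_cast h3
  linarith

open Classical in
/-- If all faces have length at least 5, at most one has length more than 6 and every face of
length 5 is adjacent to the face of `s`, then Euler's formula fails. -/
theorem one_big_count (hM : M.Genus0) (s : D) (h5 : ∀ x, 5 ≤ M.flen x)
    (h6 : ∀ x, ¬ M.Fc s x → M.flen x ≤ 6)
    (ha : ∀ x, M.flen x = 5 → ∃ y, M.Fc x y ∧ M.Fc s (M.α y)) (hs : 6 < M.flen s) : False := by
  have hE := euler_sum hM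
  set S := Finset.univ.filter (fun y => M.Fc s y) with hS
  set F := Finset.univ.filter (fun y => M.flen y = 5) with hF
  have hSc : S.card = M.flen s := face_card s
  -- upper bound for the number of darts in faces of length 5
  have hFc : F.card ≤ M.flen s * 5 := by
    have hsub : F ⊆ (S ×ˢ Finset.range 5).image (fun p => M.face^[p.2] (M.α p.1)) := by
      intro x hx
      obtain ⟨y, h1, h2⟩ := ha x (Finset.mem_filter.1 hx).2
      have h3 : M.Fc y x := Perm.SameCycle.symm h1
      obtain ⟨n, hn, h4⟩ := fc_iter h3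
      rw [flen_fc h3, (Finset.mem_filter.1 hx).2] at hn
      rw [Finset.mem_image]
      refine ⟨(M.α y, n), Finset.mem_product.2 ⟨Finset.mem_filter.2 ⟨Finset.mem_univ _, h2⟩,
        Finset.mem_range.2 hn⟩, ?_⟩
      simp only [M.α2]
      exact h4
    have h1 := Finset.card_le_card hsub
    have h2 := Finset.card_image_le (s := S ×ˢ Finset.range 5)
      (f := fun p : D × ℕ => M.face^[p.2] (M.α p.1))
    rw [Finset.card_product, Finset.card_range, hSc] at h2
    exact h1.trans h2
  -- curvature sum
  have hle : ∀ x : D, ((6 : ℚ) / M.flen x - 1) ≤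
      (if x ∈ S then (6 : ℚ) / M.flen s - 1 else 0) + (if x ∈ F then 1 / 5 else 0) := by
    intro x
    by_cases hx : x ∈ S
    · have h1 : M.flen x = M.flen s := (flen_fc (Finset.mem_filter.1 hx).2).symm
      have h2 : x ∉ F := by
        intro h
        have := (Finset.mem_filter.1 h).2
        omega
      rw [if_pos hx, if_neg h2, h1]
      linarith
    · have h1 : M.flen x ≤ 6 := h6 x (fun h => hx (Finset.mem_filter.2 ⟨Finset.mem_univ _, h⟩))
      have h2 := h5 x
      rw [if_neg hx]
      have h3 : M.flen x = 5 ∨ M.flen x = 6 := by omega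
      rcases h3 with h3 | h3
      · have h7 : x ∈ F := Finset.mem_filter.2 ⟨Finset.mem_univ _, h3⟩
        rw [if_pos h7, h3]
        norm_num
      · have h7 : x ∉ F := fun h => by
          have := (Finset.mem_filter.1 h).2
          omega
        rw [if_neg h7, h3]
        norm_num
  have h1 := Finset.sum_le_sum (fun x (_ : x ∈ (Finset.univ : Finset D)) => hle x)
  rw [hE, Finset.sum_add_distrib] at h1
  have h2 : ∑ x : D, (if x ∈ S then (6 : ℚ) / M.flen s - 1 else 0) = 6 - M.flen s := by
    rw [← Finset.sum_filter, Finset.filter_mem_eq_inter, Finset.univ_inter, Finset.sum_const, hSc,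
      nsmul_eq_mul]
    have : (M.flen s : ℚ) ≠ 0 := by
      have : M.flen s ≠ 0 := by omega
      exact_mod_cast this
    field_simp
  have h3 : ∑ x : D, (if x ∈ F then (1 : ℚ) / 5 else 0) = F.card / 5 := by
    rw [← Finset.sum_filter, Finset.filter_mem_eq_inter, Finset.univ_inter, Finset.sum_const,
      nsmul_eq_mul]
    ring
  rw [h2, h3] at h1
  have h4 : (F.card : ℚ) ≤ M.flen s * 5 := by exact_mod_cast hFc
  linarith

end CubicMap
end Pool.H64.NC
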