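import Pool.Agent.Helper64.NC.Plane
import Pool.Agent.Helper64.NC.NoThree

/-! NC-RD. Three-edge cuts of a cubic map and their contraction. -/

set_option linter.unusedSectionVars false

namespace Pool.H64.NC

open Function

namespace CubicMap
variable {D : Type*} [DecidableEq D] (M : CubicMap D)

/-- cyclic 4-edge-connectivity has the name `C4`; `C3`: every cut has at least three edges -/
def C3 [Fintype D] : Prop :=
  ∀ A : Finset D, (∀ x ∈ A, M.σ x ∈ A) → A.Nonempty → Aᶜ.Nonempty →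
    3 ≤ (A.filter (fun x => M.α x ∉ A)).card

/-- a cut with exactly three edges: `A` the darts of one side, `b i` the three darts of `A` whose
edges lead out of `A` -/
structure Cut3 where
  A : Finset D
  b : Fin 3 → D
  inj : Injective b
  hσ : ∀ x, M.σ x ∈ A ↔ x ∈ A
  hb : ∀ x, (x ∈ A ∧ M.α x ∉ A) ↔ ∃ i, b i = x

namespace Cut3
variable {M} (c : M.Cut3)

theorem bA (i : Fin 3) : c.b i ∈ c.A := ((c.hb _).2 ⟨i, rfl⟩).1
theorem bO (i : Fin 3) : M.α (c.b i) ∉ c.A := ((c.hb _).2 ⟨i, rfl⟩).2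

/-- the darts of the contracted map: those of `A` and the three darts `α (b i)`, which form the
new vertex -/
abbrev DA : Type _ := {x : D // x ∈ c.A ∨ M.α x ∈ c.A}

/-- the new darts -/
def nb (i : Fin 3) : c.DA := ⟨M.α (c.b i), Or.inr (by rw [M.α2]; exact c.bA i)⟩

/-- the dart `b i` as a dart of the contracted map -/
def ob (i : Fin 3) : c.DA := ⟨c.b i, Or.inl (c.bA i)⟩

/-- number of a new dart -/
def idx (x : D) : Fin 3 := if x = M.α (c.b 0) then 0 else if x = M.α (c.b 1) then 1 else 2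

theorem idx_α (i : Fin 3) : c.idx (M.α (c.b i)) = i := by
  have h01 : M.α (c.b 1) ≠ M.α (c.b 0) := fun h => absurd (c.inj (αinj h)) (by decide)
  have h02 : M.α (c.b 2) ≠ M.α (c.b 0) := fun h => absurd (c.inj (αinj h)) (by decide)
  have h12 : M.α (c.b 2) ≠ M.α (c.b 1) := fun h => absurd (c.inj (αinj h)) (by decide)
  fin_cases i
  · exact if_pos rfl
  · exact (if_neg h01).trans (if_pos rfl)
  · exact (if_neg h02).trans (if_neg h12)

theorem nbA (i : Fin 3) : (c.nb i).1 ∉ c.A := c.bO i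

theorem new_of {x : c.DA} (h : x.1 ∉ c.A) : x = c.nb (c.idx x.1) := by
  obtain ⟨i, hi⟩ := (c.hb (M.α x.1)).1 ⟨x.2.resolve_left h, by rw [M.α2]; exact h⟩
  have hx : x.1 = M.α (c.b i) := by rw [hi, M.α2]
  apply Subtype.ext
  rw [hx, c.idx_α]
  rfl

/-- rotation of the contracted map -/
def conσ (x : c.DA) : c.DA :=
  if h : x.1 ∈ c.A then ⟨M.σ x.1, Or.inl ((c.hσ _).2 h)⟩ else c.nb (c.idx x.1 + 1)

/-- edges of the contracted map -/
def conα (x : c.DA) : c.DA := ⟨M.α x.1, by rw [M.α2]; exact x.2.symm⟩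

theorem conσ_in {x : c.DA} (h : x.1 ∈ c.A) : (c.conσ x).1 = M.σ x.1 := by
  unfold conσ; rw [dif_pos h]

theorem conσ_nb (i : Fin 3) : c.conσ (c.nb i) = c.nb (i + 1) := by
  unfold conσ
  rw [dif_neg (c.nbA i)]
  change c.nb (c.idx (M.α (c.b i)) + 1) = _
  rw [c.idx_α]

theorem nb_inj : Injective c.nb := fun i j h =>
  c.inj (αinj (congrArg Subtype.val h))

/-- the contracted map: the side `A`, the other side being contracted to one vertex with the
cyclic order `α (b 0), α (b 1), α (b 2)` -/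
def con : CubicMap c.DA where
  σ := c.conσ
  α := c.conα
  σ3 := by
    intro x
    by_cases h : x.1 ∈ c.A
    · have h1 := c.conσ_in h
      have h1' : (c.conσ x).1 ∈ c.A := by rw [h1]; exact (c.hσ _).2 h
      have h2 := c.conσ_in h1'
      have h2' : (c.conσ (c.conσ x)).1 ∈ c.A := by rw [h2]; exact (c.hσ _).2 h1'
      have h3 := c.conσ_in h2'
      apply Subtype.ext
      rw [h3, h2, h1, M.σ3]
    · rw [c.new_of h, c.conσ_nb, c.conσ_nb, c.conσ_nb]
      congr 1
      generalize c.idx x.1 = i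
      revert i; decide
  σ1 := by
    intro x hx
    by_cases h : x.1 ∈ c.A
    · have h1 := c.conσ_in h
      rw [hx] at h1
      exact M.σ1 _ h1.symm
    · rw [c.new_of h, c.conσ_nb] at hx
      have h2 := c.nb_inj hx
      revert h2
      generalize c.idx x.1 = i
      revert i; decide
  α2 := fun x => Subtype.ext (M.α2 x.1)
  α1 := fun x h => M.α1 x.1 (congrArg Subtype.val h)

theorem con_σ_in {x : c.DA} (h : x.1 ∈ c.A) : (c.con.σ x).1 = M.σ x.1 := c.conσ_in h
theorem con_σ_nb (i : Fin 3) : c.con.σ (c.nb i) = c.nb (i + 1) := c.conσ_nb i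
theorem con_α (x : c.DA) : (c.con.α x).1 = M.α x.1 := rfl
theorem con_α_nb (i : Fin 3) : c.con.α (c.nb i) = c.ob i := Subtype.ext (M.α2 _)
theorem con_α_ob (i : Fin 3) : c.con.α (c.ob i) = c.nb i := rfl

/-- `x` lies on the side `A` or it is a new dart -/
theorem cases (x : c.DA) : x.1 ∈ c.A ∨ ∃ i, x = c.nb i := by
  by_cases h : x.1 ∈ c.A
  · exact Or.inl h
  · exact Or.inr ⟨_, c.new_of h⟩

/-- the same cut seen from the other side -/
def op [Fintype D] : M.Cut3 where
  A := c.Aᶜ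
  b := fun i => M.α (c.b i)
  inj := fun i j h => c.inj (αinj h)
  hσ := by intro x; rw [Finset.mem_compl, Finset.mem_compl, c.hσ]
  hb := by
    intro x
    rw [Finset.mem_compl, Finset.mem_compl, not_not]
    constructor
    · rintro ⟨h1, h2⟩
      obtain ⟨i, hi⟩ := (c.hb (M.α x)).1 ⟨h2, by rw [M.α2]; exact h1⟩
      exact ⟨i, by rw [hi, M.α2]⟩
    · rintro ⟨i, rfl⟩
      exact ⟨c.bO i, by rw [M.α2]; exact c.bA i⟩

end Cut3
end CubicMap
end Pool.H64.NC
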