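import Pool.Agent.Helper64.NC.Rd.Cut3

/-!
NC-RD1. Hamilton circuits and cuts.

`ham_cut`: `U` = unused darts of a Hamilton circuit, `A` a union of vertices (darts), both `A` and
its complement nonempty. The number of used darts leading out of `A` is even and positive.
Even: let `N` be the set of used darts in `A`. Every vertex has exactly two used darts, so `N` is even:
`sw M.σ U` is an involution of `N` without fixed points (`M.pole0.sw_inv`, see the lemmas
`sw_used`, `Pole.sw_two` style lemmas on `M.pole0` in `State.lean`, `Glue.lean`). The used darts `x ∈ A`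
with `α x ∈ A` are paired by `α` (fixed point free involution), so their number is even
(`Finset.card_involution`-like or `Finset.sum_involution` in `ZMod 2`); the difference is the number
wanted.  Positive: otherwise `A` is closed under `sw M.σ U` and `ae M.α U`, so no used dart of `A` is
connected to a used dart outside of `A` (`Patch.inv_of` or `conn_le`), but both exist (a vertex in `A`
and a vertex outside, each has a used dart by `One3`).

`three_C3`: a map with exactly three Hamilton circuits `U1, U2, U3` has no cut with less than three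
edges. By `three_one` every dart is in exactly one `Ui`. For the set `B` of darts leading out of
`A`: `2 |B| = Σ_i |B \ Ui| ≥ 6`.

`cut3_one`: a Hamilton circuit misses exactly one edge of a 3-edge cut (`ham_cut`: the number of
`i` with `b i ∉ U` is even and positive, so it is `2`). -/

set_option linter.unusedSectionVars false

namespace Pool.H64.NC.CubicMap

open Function

variable {D : Type*} [Fintype D] [DecidableEq D] {M : CubicMap D}

theorem h76_even_inv {s : Finset D} (g : D → D) (hg : ∀ x ∈ s, g x ∈ s) (hi : ∀ x ∈ s, g (g x) = x)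
    (hf : ∀ x ∈ s, g x ≠ x) : Even s.card := by
  have h : ∑ _x ∈ s, (1 : ZMod 2) = 0 := by
    refine Finset.sum_involution (fun x _ => g x) ?_ ?_ ?_ ?_
    · intro x _
      exact CharTwo.add_self_eq_zero 1
    · intro x hx _
      exact hf x hx
    · intro x hx
      exact hg x hx
    · intro x hx
      exact hi x hx
  rw [Finset.sum_const, nsmul_eq_mul, mul_one] at h
  exact (ZMod.natCast_eq_zero_iff_even).1 h

theorem ham_cut {U : Finset D} (hU : M.Ham U) (A : Finset D) (hA : ∀ x ∈ A, M.σ x ∈ A)
    (h1 : A.Nonempty) (h2 : Aᶜ.Nonempty) :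
    Even (A.filter (fun x => M.α x ∉ A ∧ x ∉ U)).card ∧
      0 < (A.filter (fun x => M.α x ∉ A ∧ x ∉ U)).card := by
  have hsw : ∀ x ∈ A, sw M.σ U x ∈ A := by
    intro x hx
    rcases sw_casesM (M := M) U x with h | h | h <;> rw [h]
    · exact hx
    · exact hA x hx
    · exact hA _ (hA x hx)
  have hA' : ∀ x, M.σ x ∈ A → x ∈ A := by
    intro x hx
    have := hA _ (hA _ hx)
    rwa [M.σ3] at this
  have hused : ∀ x, ∃ y, y ∉ U ∧ (y = x ∨ y = M.σ x) := by
    intro x
    rcases hU.1.2 x with ⟨_, h, _⟩ | ⟨h, _, _⟩ | ⟨h, _, _⟩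
    · exact ⟨_, h, Or.inr rfl⟩
    · exact ⟨_, h, Or.inl rfl⟩
    · exact ⟨_, h, Or.inl rfl⟩
  constructor
  · have e1 : Even (A.filter (fun x => x ∉ U)).card := by
      apply h76_even_inv (sw M.σ U)
      · intro x hx
        rw [Finset.mem_filter] at hx ⊢
        refine ⟨hsw x hx.1, fun h => ?_⟩
        have h3 := Pole.sw_mem (p := M.pole0) h
        change sw M.σ U (sw M.σ U x) = sw M.σ U x at h3
        rw [sw_invM] at h3
        rw [← h3] at h
        exact hx.2 h
      · intro x _
        exact sw_invM U x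
      · intro x hx
        rw [Finset.mem_filter] at hx
        exact Pole.sw_ne (p := M.pole0) (M.σ1 x) hx.2 (hU.1.2 x)
    have e2 : Even (A.filter (fun x => M.α x ∈ A ∧ x ∉ U)).card := by
      apply h76_even_inv M.α
      · intro x hx
        rw [Finset.mem_filter] at hx ⊢
        refine ⟨hx.2.1, by rw [M.α2]; exact hx.1, fun h => hx.2.2 ((hU.1.1 x).2 h)⟩
      · intro x _
        exact M.α2 x
      · intro x _
        exact M.α1 x
    have e3 : (A.filter (fun x => x ∉ U)).card =
        (A.filter (fun x => M.α x ∈ A ∧ x ∉ U)).card +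
          (A.filter (fun x => M.α x ∉ A ∧ x ∉ U)).card := by
      rw [← Finset.card_union_of_disjoint]
      · congr 1
        ext x
        simp only [Finset.mem_filter, Finset.mem_union]
        tauto
      · rw [Finset.disjoint_left]
        intro x hx hx'
        rw [Finset.mem_filter] at hx hx'
        exact hx'.2.1 hx.2.1
    rw [e3] at e1
    exact (Nat.even_add.1 e1).1 e2
  · by_contra hcon
    rw [not_lt, Nat.le_zero, Finset.card_eq_zero, Finset.filter_eq_empty_iff] at hcon
    obtain ⟨x0, hx0⟩ := h1
    obtain ⟨y0, hy0⟩ := h2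
    rw [Finset.mem_compl] at hy0
    obtain ⟨x, hxU, hx⟩ := hused x0
    obtain ⟨y, hyU, hy⟩ := hused y0
    have hxA : x ∈ A := by
      rcases hx with rfl | rfl
      · exact hx0
      · exact hA _ hx0
    have hyA : y ∉ A := by
      rcases hy with rfl | rfl
      · exact hy0
      · exact fun h => hy0 (hA' _ h)
    refine hyA (Patch.inv_of (sw_invM U) (ae_invM U) (fun z => z ∈ A) hsw ?_
      (hU.2 x y hxU hyU) hxA)
    intro z hz
    unfold ae
    split_ifs with h
    · by_contra h3
      exact hcon hz ⟨h3, h.1⟩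
    · exact hz

theorem three_C3 (h : M.Three) : M.C3 := by
  obtain ⟨U1, U2, U3, hU1, hU2, hU3, h12, h13, h23, hall⟩ := h
  have hone := three_one hU1 hU2 hU3 h12 h13 h23 hall
  intro A hA h1 h2
  have key : ∀ U, M.Ham U → 2 ≤ ((A.filter (fun x => M.α x ∉ A)).filter (fun x => x ∉ U)).card := by
    intro U hU
    obtain ⟨e1, e2⟩ := ham_cut hU A hA h1 h2
    rw [Finset.filter_filter]
    obtain ⟨k, hk⟩ := e1
    omega
  have k1 := key U1 hU1
  have k2 := key U2 hU2
  have k3 := key U3 hU3
  have hsum : ((A.filter (fun x => M.α x ∉ A)).filter (fun x => x ∉ U1)).card +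
      ((A.filter (fun x => M.α x ∉ A)).filter (fun x => x ∉ U2)).card +
      ((A.filter (fun x => M.α x ∉ A)).filter (fun x => x ∉ U3)).card =
      2 * (A.filter (fun x => M.α x ∉ A)).card := by
    rw [Finset.card_filter, Finset.card_filter, Finset.card_filter, ← Finset.sum_add_distrib,
      ← Finset.sum_add_distrib, mul_comm, ← smul_eq_mul, ← Finset.sum_const]
    apply Finset.sum_congr rfl
    intro x _
    rcases hone x with ⟨a, b, c⟩ | ⟨a, b, c⟩ | ⟨a, b, c⟩ <;> simp [a, b, c]
  omega

theorem cut3_one (c : M.Cut3) {U : Finset D} (hU : M.Ham U) :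
    One3 (c.b 0 ∈ U) (c.b 1 ∈ U) (c.b 2 ∈ U) := by
  obtain ⟨e1, e2⟩ := ham_cut hU c.A (fun x hx => (c.hσ x).2 hx) ⟨_, c.bA 0⟩
    ⟨_, Finset.mem_compl.2 (c.bO 0)⟩
  have h : c.A.filter (fun x => M.α x ∉ c.A ∧ x ∉ U) =
      (Finset.univ.filter (fun i => c.b i ∉ U)).image c.b := by
    ext x
    rw [Finset.mem_filter, Finset.mem_image]
    constructor
    · rintro ⟨g1, g2, g3⟩
      obtain ⟨i, hi⟩ := (c.hb x).1 ⟨g1, g2⟩
      exact ⟨i, by rw [Finset.mem_filter]; exact ⟨Finset.mem_univ _, by rw [hi]; exact g3⟩, hi⟩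
    · rintro ⟨i, hi, rfl⟩
      exact ⟨c.bA i, c.bO i, (Finset.mem_filter.1 hi).2⟩
  rw [h, Finset.card_image_of_injective _ c.inj, Finset.card_filter, Fin.sum_univ_three] at e1 e2
  unfold One3
  by_cases a0 : c.b 0 ∈ U <;> by_cases a1 : c.b 1 ∈ U <;> by_cases a2 : c.b 2 ∈ U <;>
    simp only [a0, a1, a2, not_true_eq_false, not_false_eq_true, if_true, if_false] at e1 e2 ⊢ <;>
    first | (exfalso; revert e1 e2; decide) | tauto

end Pool.H64.NC.CubicMap
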