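import Pool.Agent.Helper64.NC.Rd.Loc
import Pool.Agent.Helper64.NC.Rd.Count
import Pool.Agent.Helper64.NC.Dt.Rot

/-! NC: the neighbours of a short face. -/

set_option linter.unusedSectionVars false

namespace Pool.H64.NC

open Function Code Dat

/-- all wheels in the lists are certified -/
def AllGood : Prop := ∀ q ∈ reps4 ++ (reps5 ++ reps6), Good q

namespace CubicMap
variable {D : Type*} [Fintype D] [DecidableEq D] {M : CubicMap D}

/-- in a cyclically 4-edge-connected plane map without triangular faces and with exactly three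
Hamilton circuits, a face of length at most 5 has a neighbour of length at least 7 -/
theorem small_face (HG : AllGood) (hM : M.Genus0) (hC : M.C4) (hn : 12 ≤ Fintype.card D)
    (hT : M.Three) (h3 : ∀ x, M.flen x ≠ 3) (x0 : D) (h5 : M.flen x0 ≤ 5) :
    ∃ y, M.Fc x0 y ∧ 7 ≤ M.flen (M.α y) := by
  by_contra hcon
  push Not at hcon
  have h4 := flen_ge4 hC hn h3
  have h6 : ∀ i, M.flen (M.α (M.face^[i] x0)) ≤ 6 := fun i => by
    have := hcon _ (fc_iterate x0 i)
    omega
  have key : ∀ p, 4 ≤ p → M.flen x0 = p → ∀ (R : List (List ℕ)),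
      (lists p).all (fun l => R.contains (l.rotate (bestr l))) = true →
      (∀ q ∈ R, Good q) → (∀ q ∈ R, smallOK q (smT q) = true) → False := by
    intro p hp hx R hR hg hs
    have hmem : nbl M x0 p ∈ lists p := by
      have := mem_lists (nbl M x0 p) (by
        intro y hy
        unfold nbl at hy
        rw [List.mem_map] at hy
        obtain ⟨i, _, rfl⟩ := hy
        have a1 := h4 (M.α (M.face^[i] x0))
        have a2 := h6 i
        omega)
      rwa [nbl_length] at this
    have h7 := List.all_eq_true.1 hR _ hmem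
    rw [List.contains_iff_mem] at h7
    set r := bestr (nbl M x0 p)
    rw [← nbl_face hx r] at h7
    obtain ⟨ι, hc, _⟩ := wheel_of hM hC hn (x0 := M.face^[r] x0) hp
      (by rw [flen_face, hx]) (fun i _ => by rw [← iterate_add_apply]; exact h6 _)
    have hq := hg _ h7
    have hall := wheel_all hM hT hc hq.wok hq.ring.z0 hq.cert
    exact small_no_three hc hq.wok hq.ring hall (hom_of hM) h4 (hs _ h7) hT
  have hx := h4 x0
  rcases (by omega : M.flen x0 = 4 ∨ M.flen x0 = 5) with h | h
  · exact key 4 (by norm_num) h reps4 rot4 (fun q hq => HG q (List.mem_append_left _ hq))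
      (fun q hq => List.all_eq_true.1 small4 q hq)
  · exact key 5 (by norm_num) h reps5 rot5
      (fun q hq => HG q (List.mem_append_right _ (List.mem_append_left _ hq)))
      (fun q hq => List.all_eq_true.1 small5 q hq)

/-- there is a face of length at least 7 -/
theorem exists_big (HG : AllGood) (hM : M.Genus0) (hC : M.C4) (hn : 12 ≤ Fintype.card D)
    (hT : M.Three) (h3 : ∀ x, M.flen x ≠ 3) : ∃ x, 7 ≤ M.flen x := by
  have : Nonempty D := Fintype.card_pos_iff.1 (by omega)
  obtain ⟨x, hx⟩ := exists_short hM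
  obtain ⟨y, _, hy⟩ := small_face HG hM hC hn hT h3 x hx
  exact ⟨_, hy⟩

/-- a hexagonal face without neighbours of length at least 7 has at most one neighbour which is
not hexagonal, and this neighbour is pentagonal -/
theorem hex_face (HG : AllGood) (hM : M.Genus0) (hC : M.C4) (hn : 12 ≤ Fintype.card D)
    (hT : M.Three) (h3 : ∀ x, M.flen x ≠ 3) (x0 : D) (hx : M.flen x0 = 6)
    (hb : ∀ y, M.Fc x0 y → M.flen (M.α y) ≤ 6) :
    (∀ y, M.Fc x0 y → 5 ≤ M.flen (M.α y)) ∧
      ∀ y z, M.Fc x0 y → M.Fc x0 z → M.flen (M.α y) ≤ 5 → M.flen (M.α z) ≤ 5 → y = z := by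
  have h4 := flen_ge4 hC hn h3
  have h6 : ∀ i, M.flen (M.α (M.face^[i] x0)) ≤ 6 := fun i => hb _ (fc_iterate x0 i)
  have hmem : nbl M x0 6 ∈ lists 6 := by
    have := mem_lists (nbl M x0 6) (by
      intro y hy
      unfold nbl at hy
      rw [List.mem_map] at hy
      obtain ⟨i, _, rfl⟩ := hy
      have a1 := h4 (M.α (M.face^[i] x0))
      have a2 := h6 i
      omega)
    rwa [nbl_length] at this
  have h7 := List.all_eq_true.1 rot6 _ hmem
  rw [Bool.or_eq_true] at h7
  rcases h7 with h7 | h7
  · exfalso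
    rw [List.contains_iff_mem] at h7
    set r := bestr (nbl M x0 6)
    rw [← nbl_face hx r] at h7
    obtain ⟨ι, hc, _⟩ := wheel_of hM hC hn (x0 := M.face^[r] x0) (p := 6) (by norm_num)
      (by rw [flen_face, hx]) (fun i _ => by rw [← iterate_add_apply]; exact h6 _)
    have hq := HG _ (List.mem_append_right _ (List.mem_append_right _ h7))
    have hall := wheel_all hM hT hc hq.wok hq.ring.z0 hq.cert
    have hle := small_big hc hq.wok hq.ring hall (hom_of hM) h4 (List.all_eq_true.1 big6 _ h7)
    obtain ⟨y, hy⟩ := exists_big HG hM hC hn hT h3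
    have := hle y
    omega
  · rw [Bool.and_eq_true] at h7
    obtain ⟨h7, h8⟩ := h7
    have g5 : ∀ i < 6, 5 ≤ M.flen (M.α (M.face^[i] x0)) := by
      intro i hi
      have := List.all_eq_true.1 h7 (M.flen (M.α (M.face^[i] x0))) (by
        unfold nbl
        rw [List.mem_map]
        exact ⟨i, List.mem_range.2 hi, rfl⟩)
      rwa [Nat.ble_eq] at this
    refine ⟨?_, ?_⟩
    · intro y hy
      obtain ⟨n, hn, rfl⟩ := fc_iter hy
      rw [hx] at hn
      exact g5 n hn
    · intro y z hy hz h9 h10
      obtain ⟨n, hn, rfl⟩ := fc_iter hy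
      obtain ⟨m, hm, rfl⟩ := fc_iter hz
      rw [hx] at hn hm
      have h11 := List.all_eq_true.1 (List.all_eq_true.1 h8 n (List.mem_range.2 hn)) m
        (List.mem_range.2 hm)
      rw [Bool.or_eq_true, Bool.or_eq_true, Nat.beq_eq, Nat.beq_eq, Nat.beq_eq,
        nbl_getD _ _ _ hn, nbl_getD _ _ _ hm] at h11
      rcases h11 with h11 | h11 | h11
      · rw [h11]
      · omega
      · omega

/-- in a face of length 4 the opposite neighbour of a neighbour `s` is not adjacent to `s` -/
theorem opp_face (hM : M.Genus0) (hC : M.C4) (hn : 12 ≤ Fintype.card D) {y w s : D}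
    (hy : M.flen y = 4) (hs : M.Fc s (M.α y)) (hw : M.Fc (M.α (M.face (M.face y))) w) :
    ¬ M.Fc s (M.α w) ∧ ¬ M.Fc s w := by
  have per : ∀ n, 0 < n → n < 4 → M.face^[n] y ≠ y := by
    intro n h1 h2 h
    have h3 : IsPeriodicPt M.face n y := h
    have h4 := h3.minimalPeriod_le h1
    have h5 : M.flen y = minimalPeriod M.face y := rfl
    omega
  have sy := @cu_symm D M
  have tr := @cu_trans D M
  set z := M.face (M.face y) with hz
  have hyz : M.Fc y z := fc_iterate y 2
  have n1 : ¬ M.Fc s (M.α z) := by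
    intro h
    have h1 := adj1 hM hC hn hyz (tr (sy hs) h)
    exact per 2 (by norm_num) (by norm_num) h1
  refine ⟨?_, fun h => n1 (tr h (sy hw))⟩
  intro h
  have a3 : M.Fc (M.α (M.α y)) z := by rw [M.α2]; exact hyz
  rcases adj2 hM hC hn hw (tr (sy h) hs) a3 with ⟨e1, e2⟩ | ⟨e1, _⟩
  · -- `σ z = w`, `σ w = α y`
    rw [← e1] at e2
    have e3 : M.σ (M.σ z) = M.α (M.face y) := by
      rw [hz, M.face_apply (M.face y), M.σ3]
    rw [e3] at e2
    exact per 1 (by norm_num) (by norm_num) (αinj e2)
  · -- `σ (α z) = y`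
    rw [M.α2] at e1
    exact per 3 (by norm_num) (by norm_num) e1

/-- the cyclically 4-edge-connected case: at least two faces have length at least 7 -/
theorem two_big (HG : AllGood) (hM : M.Genus0) (hC : M.C4) (hn : 12 ≤ Fintype.card D)
    (hT : M.Three) (h3 : ∀ x, M.flen x ≠ 3) :
    ∃ x y, 7 ≤ M.flen x ∧ 7 ≤ M.flen y ∧ ¬ M.Fc x y := by
  by_contra hcon
  push Not at hcon
  have h4 := flen_ge4 hC hn h3
  obtain ⟨s, hs⟩ := exists_big HG hM hC hn hT h3
  have sy := @cu_symm D M
  have tr := @cu_trans D M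
  have h6 : ∀ x, ¬ M.Fc s x → M.flen x ≤ 6 := by
    intro x hx
    by_contra hlt
    exact hx (hcon s x hs (by omega))
  have hadj : ∀ x, M.flen x ≤ 5 → ∃ y, M.Fc x y ∧ M.Fc s (M.α y) := by
    intro x hx
    obtain ⟨y, h1, h2⟩ := small_face HG hM hC hn hT h3 x hx
    exact ⟨y, h1, hcon s _ hs h2⟩
  have h5 : ∀ x, 5 ≤ M.flen x := by
    intro x0
    by_contra hlt
    have hx0 := h4 x0
    obtain ⟨y, hy1, hy2⟩ := hadj x0 (by omega)
    have hy : M.flen y = 4 := by rw [← flen_fc hy1]; omega
    set z := M.face (M.face y) with hz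
    have hself : M.Fc (M.α z) (M.α z) := fc_iterate _ 0
    have k1 := h6 _ (opp_face hM hC hn hy hy2 hself).2
    have k2 : 6 ≤ M.flen (M.α z) := by
      by_contra hlt2
      obtain ⟨w, w1, w2⟩ := hadj (M.α z) (by omega)
      exact (opp_face hM hC hn hy hy2 w1).1 w2
    have k3 : M.flen (M.α z) = 6 := by omega
    have k4 := (hex_face HG hM hC hn hT h3 (M.α z) k3 (fun w hw =>
      h6 _ (opp_face hM hC hn hy hy2 hw).1)).1 (M.α z) hself
    rw [M.α2] at k4
    have k5 : M.flen z = 4 := by
      rw [← hy]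
      exact (flen_fc (fc_iterate y 2)).symm
    omega
  exact one_big_count hM s h5 h6 (fun x hx => hadj x (by omega)) (by omega)

end CubicMap
end Pool.H64.NC
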