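import Pool.Agent.Helper64.NC.Rd.Cut3

/-!
NC-RD6. Minimal 3-edge cuts.

`card3`: `3 ∣ A.card` for a union `A` of vertices (`σ` has order 3 without fixed points).
`card_even`: the number of darts of `A` leading out of `A` has the parity of `A.card` (`α` is a fixed
point free involution of the other darts of `A`).
`exists_min`: among the `A` violating `C4` choose one with smallest card. By `C3` exactly three
darts lead out, so `A.card` is odd and divisible by 3, hence `≥ 9`; the same for `Aᶜ` (the darts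
leading out of `Aᶜ` are the images of those leading out of `A` under `α`). If `X ⊆ A`, `X ≠ A` is a
union of vertices, `6 ≤ X.card` and at most three darts lead out of `X` then `X` violates `C4`
too (`Xᶜ ⊇ Aᶜ`), contradiction with the choice of `A`.
`con_C4`: let `X'` be a union of vertices of `c.con` with `6 ≤ X'.card`, `6 ≤ X'ᶜ.card`. The numbers of
darts leading out of `X'` and of `X'ᶜ` are equal, so we can assume that no new dart is in `X'`
(the new darts form one vertex). `X = {x.1 | x ∈ X'} ⊆ A`, `X ≠ A` since `|c.DA| = |A| + 3` and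
`6 ≤ X'ᶜ.card`; and `x ∈ X'` leads out of `X'` iff `x.1` leads out of `X`. -/

set_option linter.unusedSectionVars false

namespace Pool.H64.NC.CubicMap

open Function

variable {D : Type*} [Fintype D] [DecidableEq D] {M : CubicMap D}

theorem card3 (A : Finset D) (hA : ∀ x ∈ A, M.σ x ∈ A) : 3 ∣ A.card := by
  let f : Function.End A := fun x => ⟨M.σ x.1, hA _ x.2⟩
  have hf : f ^ 3 ^ 1 = 1 := by
    funext x
    apply Subtype.ext
    exact M.σ3 x.1
  have : Fact (Nat.Prime 3) := ⟨by norm_num⟩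
  have h := Equiv.Perm.card_fixedPoints_modEq (p := 3) (n := 1) hf
  have h0 : Fintype.card (Function.fixedPoints f) = 0 := by
    rw [Fintype.card_eq_zero_iff]
    refine ⟨fun x => ?_⟩
    have hx : f x.1 = x.1 := x.2
    exact M.σ1 x.1.1 (congrArg Subtype.val hx)
  rw [h0, Fintype.card_coe] at h
  exact (Nat.modEq_zero_iff_dvd).1 h

theorem h96_even_inv {s : Finset D} (g : D → D) (hg : ∀ x ∈ s, g x ∈ s) (hi : ∀ x ∈ s, g (g x) = x)
    (hf : ∀ x ∈ s, g x ≠ x) : Even s.card := by
  have h : ∑ _x ∈ s, (1 : ZMod 2) = 0 := by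
    refine Finset.sum_involution (fun x _ => g x) ?_ ?_ ?_ ?_
    · intro x _
      exact CharTwo.add_self_eq_zero 1
    · intro x hx _
      exact hf x hx
    · intro x hx
      exact hg x hx
    · intro x hx
      exact hi x hx
  rw [Finset.sum_const, nsmul_eq_mul, mul_one] at h
  exact (ZMod.natCast_eq_zero_iff_even).1 h

theorem card_even (A : Finset D) :
    Even (A.card + (A.filter (fun x => M.α x ∉ A)).card) := by
  have h1 : (A.filter (fun x => M.α x ∈ A)).card + (A.filter (fun x => M.α x ∉ A)).card = A.card :=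
    Finset.card_filter_add_card_filter_not _
  have h2 : Even (A.filter (fun x => M.α x ∈ A)).card := by
    apply h96_even_inv M.α
    · intro x hx
      rw [Finset.mem_filter] at hx ⊢
      exact ⟨hx.2, by rw [M.α2]; exact hx.1⟩
    · intro x _
      exact M.α2 x
    · intro x _
      exact M.α1 x
  obtain ⟨k, hk⟩ := h2
  exact ⟨k + (A.filter (fun x => M.α x ∉ A)).card, by omega⟩

/-- as many darts lead out of the complement as out of `A` -/
theorem h96_compl (A : Finset D) :
    (Aᶜ.filter (fun x => M.α x ∉ Aᶜ)).card = (A.filter (fun x => M.α x ∉ A)).card := by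
  symm
  apply Finset.card_bij (fun x _ => M.α x)
  · intro x hx
    rw [Finset.mem_filter] at hx ⊢
    rw [Finset.mem_compl, Finset.mem_compl, not_not, M.α2]
    exact ⟨hx.2, hx.1⟩
  · intro x _ y _ h
    exact αinj h
  · intro y hy
    rw [Finset.mem_filter, Finset.mem_compl, Finset.mem_compl, not_not] at hy
    exact ⟨M.α y, by rw [Finset.mem_filter, M.α2]; exact ⟨hy.2, hy.1⟩, M.α2 y⟩

/-- `A` is a minimal side of a 3-edge cut -/
def Mini (M : CubicMap D) (A : Finset D) : Prop :=
  9 ≤ A.card ∧ ∀ X ⊆ A, (∀ x ∈ X, M.σ x ∈ X) → 6 ≤ X.card → X ≠ A →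
    4 ≤ (X.filter (fun x => M.α x ∉ X)).card

theorem h96_back {A : Finset D} (hA : ∀ x ∈ A, M.σ x ∈ A) (x : D) : M.σ x ∈ A ↔ x ∈ A := by
  constructor
  · intro h
    have := hA _ (hA _ h)
    rwa [M.σ3] at this
  · exact hA x

theorem exists_min (hC : M.C3) (hn : ¬ M.C4) : ∃ A : Finset D, (∀ x, M.σ x ∈ A ↔ x ∈ A) ∧
    9 ≤ Aᶜ.card ∧ (A.filter (fun x => M.α x ∉ A)).card = 3 ∧ M.Mini A := by
  classical
  unfold C4 at hn
  push Not at hn
  obtain ⟨A0, hA0⟩ := hn
  let S : Finset (Finset D) := Finset.univ.filter (fun A => (∀ x ∈ A, M.σ x ∈ A) ∧ 6 ≤ A.card ∧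
    6 ≤ Aᶜ.card ∧ (A.filter (fun x => M.α x ∉ A)).card < 4)
  have hS : S.Nonempty := ⟨A0, by
    rw [Finset.mem_filter]
    exact ⟨Finset.mem_univ _, hA0⟩⟩
  obtain ⟨A, hAS, hmin⟩ := Finset.exists_min_image S Finset.card hS
  rw [Finset.mem_filter] at hAS
  obtain ⟨-, hA, h6, h6', h4⟩ := hAS
  have hb := h96_back hA
  have hAc : ∀ x ∈ Aᶜ, M.σ x ∈ Aᶜ := by
    intro x hx
    rw [Finset.mem_compl] at hx ⊢
    rw [hb]
    exact hx
  have h3 := hC A hA (Finset.card_pos.1 (by omega)) (Finset.card_pos.1 (by omega))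
  have e3 : (A.filter (fun x => M.α x ∉ A)).card = 3 := by omega
  have e3' : (Aᶜ.filter (fun x => M.α x ∉ Aᶜ)).card = 3 := by rw [h96_compl, e3]
  have d1 := card3 A hA
  have d2 := card3 Aᶜ hAc
  have p1 := card_even (M := M) A
  have p2 := card_even (M := M) Aᶜ
  rw [e3] at p1
  rw [e3'] at p2
  obtain ⟨a, ha⟩ := d1
  obtain ⟨b, hb'⟩ := d2
  obtain ⟨k, hk⟩ := p1
  obtain ⟨l, hl⟩ := p2
  refine ⟨A, hb, by omega, e3, by omega, ?_⟩
  intro X hX hXσ hX6 hXA
  by_contra hlt
  rw [not_le] at hlt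
  have hXS : X ∈ S := by
    rw [Finset.mem_filter]
    refine ⟨Finset.mem_univ _, hXσ, hX6, ?_, hlt⟩
    exact le_trans h6' (Finset.card_le_card (Finset.compl_subset_compl.2 hX))
  have hle := hmin X hXS
  exact hXA (Finset.eq_of_subset_of_card_le hX hle)

theorem con_card (c : M.Cut3) : Fintype.card c.DA = c.A.card + 3 := by
  rw [Fintype.card_subtype]
  have h : (Finset.univ.filter (fun x => x ∈ c.A ∨ M.α x ∈ c.A)) =
      c.A ∪ (Finset.univ.image (fun i => M.α (c.b i))) := by
    ext x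
    rw [Finset.mem_filter, Finset.mem_union, Finset.mem_image]
    constructor
    · rintro ⟨-, h⟩
      by_cases hx : x ∈ c.A
      · exact Or.inl hx
      · right
        obtain ⟨i, hi⟩ := (c.hb (M.α x)).1 ⟨h.resolve_left hx, by rw [M.α2]; exact hx⟩
        exact ⟨i, Finset.mem_univ _, by rw [hi, M.α2]⟩
    · rintro (h | ⟨i, -, rfl⟩)
      · exact ⟨Finset.mem_univ _, Or.inl h⟩
      · exact ⟨Finset.mem_univ _, Or.inr (by rw [M.α2]; exact c.bA i)⟩
  rw [h, Finset.card_union_of_disjoint, Finset.card_image_of_injective]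
  · rfl
  · exact fun i j hij => c.inj (αinj hij)
  · rw [Finset.disjoint_left]
    intro x hx hx'
    rw [Finset.mem_image] at hx'
    obtain ⟨i, -, rfl⟩ := hx'
    exact c.bO i hx

/-- the case that no new dart is in `X'` -/
theorem h96_old (c : M.Cut3) (h : M.Mini c.A) (X' : Finset c.DA)
    (hσ : ∀ x ∈ X', c.con.σ x ∈ X') (h6 : 6 ≤ X'.card) (h6' : 6 ≤ X'ᶜ.card)
    (hn : ∀ x ∈ X', x.1 ∈ c.A) : 4 ≤ (X'.filter (fun x => c.con.α x ∉ X')).card := by
  classical
  let X : Finset D := X'.image Subtype.val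
  have hmem : ∀ x : c.DA, x.1 ∈ X ↔ x ∈ X' := by
    intro x
    rw [Finset.mem_image]
    constructor
    · rintro ⟨y, hy, hyx⟩
      rwa [← Subtype.ext hyx]
    · intro hx
      exact ⟨x, hx, rfl⟩
  have hXA : X ⊆ c.A := by
    intro x hx
    rw [Finset.mem_image] at hx
    obtain ⟨y, hy, rfl⟩ := hx
    exact hn y hy
  have hcard : X.card = X'.card := Finset.card_image_of_injective _ Subtype.val_injective
  have hXσ : ∀ x ∈ X, M.σ x ∈ X := by
    intro x hx
    rw [Finset.mem_image] at hx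
    obtain ⟨y, hy, rfl⟩ := hx
    have h1 := hσ y hy
    rw [← hmem, c.con_σ_in (hn y hy)] at h1
    exact h1
  have hne : X ≠ c.A := by
    intro he
    have h1 := Finset.card_add_card_compl X'
    rw [con_card, ← hcard, he] at h1
    omega
  have h4 := h.2 X hXA hXσ (by omega) hne
  refine le_trans h4 (le_of_eq ?_)
  symm
  apply Finset.card_bij (fun x _ => x.1)
  · intro x hx
    rw [Finset.mem_filter] at hx ⊢
    refine ⟨(hmem x).2 hx.1, ?_⟩
    have h1 := hx.2
    rw [← hmem, c.con_α] at h1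
    exact h1
  · intro x _ y _ hxy
    exact Subtype.ext hxy
  · intro y hy
    rw [Finset.mem_filter] at hy
    obtain ⟨hy1, hy2⟩ := hy
    have hyA := hXA hy1
    refine ⟨⟨y, Or.inl hyA⟩, ?_, rfl⟩
    rw [Finset.mem_filter]
    refine ⟨(hmem ⟨y, Or.inl hyA⟩).1 hy1, ?_⟩
    rw [← hmem, c.con_α]
    exact hy2

theorem con_C4 (c : M.Cut3) (h : M.Mini c.A) : c.con.C4 := by
  intro X' hσ h6 h6'
  have hb := h96_back hσ
  by_cases hn : ∀ x ∈ X', x.1 ∈ c.A
  · exact h96_old c h X' hσ h6 h6' hn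
  · push Not at hn
    obtain ⟨x, hx, hxA⟩ := hn
    have hnb : ∀ i, c.nb i ∈ X' := by
      have e := c.new_of hxA
      rw [e] at hx
      have h1 := hσ _ hx
      have h2 := hσ _ h1
      rw [c.con_σ_nb] at h1
      rw [c.con_σ_nb, c.con_σ_nb] at h2
      generalize c.idx x.1 = j at hx h1 h2
      intro i
      have hall : ∀ i j : Fin 3, i = j ∨ i = j + 1 ∨ i = j + 1 + 1 := by decide
      have hij := hall i j
      rcases hij with rfl | rfl | rfl
      · exact hx
      · exact h1
      · exact h2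
    rw [← h96_compl (M := c.con) X']
    apply h96_old c h X'ᶜ
    · intro y hy
      rw [Finset.mem_compl] at hy ⊢
      rw [hb]
      exact hy
    · exact h6'
    · rw [compl_compl]
      exact h6
    · intro y hy
      rcases c.cases y with hyA | ⟨i, rfl⟩
      · exact hyA
      · exact absurd (hnb i) (Finset.mem_compl.1 hy)

end Pool.H64.NC.CubicMap
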