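import Pool.Agent.Helper64.NC.Rd.Ring
import Pool.Agent.Helper64.NC.Rd.Min

/-!
NC-RD7. The contraction at a minimal 3-edge cut has no face of length 3 if `M` has none.
Use the lemmas of `Rd/Ring.lean`, `Rd/Min.lean`, `Rd/ConHom.lean` (being proved in parallel).

Suppose `con.flen x = 3`.  If no `y` in the face of `x` is `ob i` or `nb i` then `y.1 ∈ A`,
`α y.1 ∈ A` for all of them and `con_flen_eq` gives a face of length 3 of `M`.  Otherwise, as
`con.face (ob i) = nb (i+1)` (and so the predecessor of `nb (i+1)` is `ob i`), the face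
consists of `ob i`, `nb (i+1)` and `z`, where `z = con.face (nb (i+1)) = con.σ (ob (i+1))`, so
`z.1 = σ (b (i+1))`, and `con.face z = ob i` says `σ (α z.1) = b i`: `α (σ (b (i+1))) = σ (σ (b i))`.
Write `b0 = b i`, `b1 = b (i+1)`, `b2 = b (i+2)`; `(E)`: `α (σ b1) = σ (σ b0)`.
The vertices of `b0`, `b1` are different (no loops: `adj0_C3`-type argument or: if `b1` is at the
vertex of `b0` then `A` minus this vertex, nonempty since `9 ≤ A.card`, has at most 2 darts leading
out, contradicting `C3`).  `X` = `A` minus the 6 darts of these two vertices. `X` is nonempty, `X ≠ A`,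
and the darts leading out of `X` are among `b2`, `α (σ b0)`, `α (σ (σ b1))` (the other two inner darts
`σ (σ b0)`, `σ b1` are joined by `(E)`). By `C3` these are exactly three darts, in `X`; by `Mini`,
`X.card < 6`, so (`card3`) `X` is the vertex `{b2, σ b2, σ (σ b2)}`.  So either
(a) `α (σ b0) = σ (σ b2)`, `α (σ (σ b1)) = σ b2`; then `face (σσ b0) = σσ b1`, `face (σσ b1) = σσ b2`,
`face (σσ b2) = σσ b0`: a face of length 3 of `M`, contradiction; or
(b) `α (σ b0) = σ b2`, `α (σ (σ b1)) = σ (σ b2)`; then `face (α b0) = σ b0`, `face (σ b0) = σσ b2`,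
`face (σσ b2) = σ (σσ b1) = b1`, so `Fc (α b0) b1`, and `Fc b2 (α b0)` (`Ring3`), so `Fc b2 b1`,
contradiction to `ring_ne`. -/

set_option linter.unusedSectionVars false

namespace Pool.H64.NC.CubicMap

open Function

variable {D : Type*} [Fintype D] [DecidableEq D] {M : CubicMap D}

theorem n13_main (c : M.Cut3) (hC : M.C3) (A0 : ∀ x, ¬ M.Fc x (M.α x)) (hr : c.Ring3)
    (hm : M.Mini c.A) (h3 : ∀ x, M.flen x ≠ 3) (i : Fin 3)
    (hE : M.α (M.σ (c.b (i + 1))) = M.σ (M.σ (c.b i))) : False := by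
  have hi1 : i ≠ i + 1 := (show ∀ i : Fin 3, i ≠ i + 1 by decide) i
  have hi2 : i + 2 ≠ i := (show ∀ i : Fin 3, i + 2 ≠ i by decide) i
  have hi3 : i + 2 ≠ i + 1 := (show ∀ i : Fin 3, i + 2 ≠ i + 1 by decide) i
  have hi4 : i + 2 + 1 = i := (show ∀ i : Fin 3, i + 2 + 1 = i by decide) i
  have hall : ∀ j : Fin 3, j = i ∨ j = i + 1 ∨ j = i + 2 :=
    (show ∀ i j : Fin 3, j = i ∨ j = i + 1 ∨ j = i + 2 by decide) i
  have hring : M.Fc (c.b (i + 2)) (M.α (c.b i)) := by
    have := hr (i + 2)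
    rwa [hi4] at this
  have hrn : ¬ M.Fc (c.b (i + 2)) (c.b (i + 1)) := c.ring_ne A0 hr hi3
  have hb : ∀ x, (x ∈ c.A ∧ M.α x ∉ c.A) → x = c.b i ∨ x = c.b (i + 1) ∨ x = c.b (i + 2) := by
    intro x hx
    obtain ⟨j, rfl⟩ := (c.hb x).1 hx
    rcases hall j with rfl | rfl | rfl
    · exact Or.inl rfl
    · exact Or.inr (Or.inl rfl)
    · exact Or.inr (Or.inr rfl)
  have hA0 := c.bA i
  have hA1 := c.bA (i + 1)
  have hA2 := c.bA (i + 2)
  have hO0 := c.bO i
  have hO1 := c.bO (i + 1)
  have hO2 := c.bO (i + 2)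
  have hn01 : c.b i ≠ c.b (i + 1) := fun h => hi1 (c.inj h)
  have hn20 : c.b (i + 2) ≠ c.b i := fun h => hi2 (c.inj h)
  have hn21 : c.b (i + 2) ≠ c.b (i + 1) := fun h => hi3 (c.inj h)
  generalize c.b i = b0 at *
  generalize c.b (i + 1) = b1 at *
  generalize c.b (i + 2) = b2 at *
  have hE' : M.α (M.σ (M.σ b0)) = M.σ b1 := by rw [← hE, M.α2]
  set S : Finset D := {b0, M.σ b0, M.σ (M.σ b0), b1, M.σ b1, M.σ (M.σ b1)} with hS
  set X : Finset D := c.A \ S with hX
  have hScard : S.card ≤ 6 := Finset.card_le_six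
  have hXcard : 3 ≤ X.card := by
    have h1 := Finset.le_card_sdiff S c.A
    have h2 := hm.1
    rw [← hX] at h1
    omega
  have hXne : X.Nonempty := by
    rw [← Finset.card_pos]; omega
  have hb0X : b0 ∉ X := by
    rw [hX, Finset.mem_sdiff]
    intro h
    exact h.2 (by simp [hS])
  have hXc : Xᶜ.Nonempty := ⟨b0, by rw [Finset.mem_compl]; exact hb0X⟩
  have hXA : X ≠ c.A := fun h => hb0X (by rw [h]; exact hA0)
  have hσX : ∀ x ∈ X, M.σ x ∈ X := by
    intro x hx
    rw [hX, Finset.mem_sdiff] at hx ⊢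
    refine ⟨(c.hσ x).2 hx.1, fun h => hx.2 ?_⟩
    have hx3 : x = M.σ (M.σ (M.σ x)) := (M.σ3 x).symm
    simp only [hS, Finset.mem_insert, Finset.mem_singleton] at h ⊢
    rcases h with h | h | h | h | h | h
    · rw [h] at hx3; tauto
    · rw [h, M.σ3] at hx3; tauto
    · rw [h, M.σ3] at hx3; tauto
    · rw [h] at hx3; tauto
    · rw [h, M.σ3] at hx3; tauto
    · rw [h, M.σ3] at hx3; tauto
  set O : Finset D := X.filter (fun x => M.α x ∉ X) with hO
  set T : Finset D := {b2, M.α (M.σ b0), M.α (M.σ (M.σ b1))} with hT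
  have hOT : O ⊆ T := by
    intro x hx
    rw [hO, Finset.mem_filter] at hx
    obtain ⟨hxX, hαx⟩ := hx
    have hxX' := hxX
    rw [hX, Finset.mem_sdiff] at hxX' hαx
    obtain ⟨hxA, hxS⟩ := hxX'
    simp only [hS, Finset.mem_insert, Finset.mem_singleton, not_or] at hxS
    simp only [hT, Finset.mem_insert, Finset.mem_singleton]
    by_cases hα : M.α x ∈ c.A
    · have hin : M.α x ∈ S := by
        by_contra hcon
        exact hαx ⟨hα, hcon⟩
      have hx2 : x = M.α (M.α x) := (M.α2 x).symm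
      simp only [hS, Finset.mem_insert, Finset.mem_singleton] at hin
      rcases hin with h | h | h | h | h | h
      · rw [h] at hx2
        exact absurd (hx2 ▸ hxA) hO0
      · rw [h] at hx2; tauto
      · rw [h, hE'] at hx2
        exact absurd hx2 hxS.2.2.2.2.1
      · rw [h] at hx2
        exact absurd (hx2 ▸ hxA) hO1
      · rw [h, hE] at hx2
        exact absurd hx2 hxS.2.2.1
      · rw [h] at hx2; tauto
    · rcases hb x ⟨hxA, hα⟩ with h | h | h
      · exact absurd h hxS.1
      · exact absurd h hxS.2.2.2.1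
      · exact Or.inl h
  have hTcard : T.card ≤ 3 := Finset.card_le_three
  have hO3 : 3 ≤ O.card := hC X hσX hXne hXc
  have hTO : O = T := Finset.eq_of_subset_of_card_le hOT (by omega)
  have hT3 : T.card = 3 := by
    have := Finset.card_le_card hOT
    omega
  have hX6 : X.card < 6 := by
    by_contra hcon
    have := hm.2 X Finset.sdiff_subset hσX (by omega) hXA
    have h5 : O.card ≤ 3 := by rw [hTO]; exact hTcard
    change 4 ≤ O.card at this
    omega
  have hXthree : X.card = 3 := by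
    obtain ⟨k, hk⟩ := card3 X hσX
    omega
  have hTX : ∀ x ∈ T, x ∈ X := by
    intro x hx
    rw [← hTO, hO, Finset.mem_filter] at hx
    exact hx.1
  have h2X : b2 ∈ X := hTX _ (by simp [hT])
  have hpX : M.α (M.σ b0) ∈ X := hTX _ (by simp [hT])
  have hqX : M.α (M.σ (M.σ b1)) ∈ X := hTX _ (by simp [hT])
  have hXeq : ({b2, M.σ b2, M.σ (M.σ b2)} : Finset D) = X := by
    apply Finset.eq_of_subset_of_card_le
    · intro x hx
      simp only [Finset.mem_insert, Finset.mem_singleton] at hx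
      rcases hx with rfl | rfl | rfl
      · exact h2X
      · exact hσX _ h2X
      · exact hσX _ (hσX _ h2X)
    · have h7 : ({b2, M.σ b2, M.σ (M.σ b2)} : Finset D).card = 3 := by
        rw [Finset.card_eq_three]
        exact ⟨b2, M.σ b2, M.σ (M.σ b2), (M.σ1 b2).symm, (σσ1 b2).symm, (σσ2 b2).symm, rfl⟩
      rw [h7, hXthree]
  have hmem : ∀ x ∈ X, x = b2 ∨ x = M.σ b2 ∨ x = M.σ (M.σ b2) := by
    intro x hx
    rw [← hXeq] at hx
    simpa only [Finset.mem_insert, Finset.mem_singleton] using hx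
  have hd1 : M.α (M.σ b0) ≠ b2 := by
    intro h
    have h8 : T.card ≤ 2 := by
      rw [hT, h]
      have : ({b2, b2, M.α (M.σ (M.σ b1))} : Finset D) = {b2, M.α (M.σ (M.σ b1))} := by simp
      rw [this]
      exact Finset.card_le_two
    omega
  have hd2 : M.α (M.σ (M.σ b1)) ≠ b2 := by
    intro h
    have h8 : T.card ≤ 2 := by
      rw [hT, h]
      have : ({b2, M.α (M.σ b0), b2} : Finset D) = {b2, M.α (M.σ b0)} := by
        ext x; simp; tauto
      rw [this]
      exact Finset.card_le_two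
    omega
  have hd3 : M.α (M.σ b0) ≠ M.α (M.σ (M.σ b1)) := by
    intro h
    have h8 : T.card ≤ 2 := by
      rw [hT, h]
      have : ({b2, M.α (M.σ (M.σ b1)), M.α (M.σ (M.σ b1))} : Finset D)
        = {b2, M.α (M.σ (M.σ b1))} := by simp
      rw [this]
      exact Finset.card_le_two
    omega
  rcases (hmem _ hpX).resolve_left hd1 with hp | hp
  · rcases (hmem _ hqX).resolve_left hd2 with hq | hq
    · exact hd3 (hp.trans hq.symm)
    · -- case (b)
      have h1 : M.face (M.α b0) = M.σ b0 := by rw [M.face_apply, M.α2]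
      have h2 : M.face (M.σ b0) = M.σ (M.σ b2) := by rw [M.face_apply, hp]
      have h4 : M.face (M.σ (M.σ b2)) = b1 := by rw [M.face_apply, ← hq, M.α2, M.σ3]
      have h5 : M.Fc (M.α b0) b1 := by
        refine ⟨3, ?_⟩
        change (M.face ^ (3 : ℕ)) (M.α b0) = b1
        rw [pow_succ, pow_succ, pow_one, Equiv.Perm.mul_apply, Equiv.Perm.mul_apply, h1, h2, h4]
      exact hrn (hring.trans h5)
  · rcases (hmem _ hqX).resolve_left hd2 with hq | hq
    · -- case (a)
      have h1 : M.face (M.σ (M.σ b0)) = M.σ (M.σ b1) := by rw [M.face_apply, hE']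
      have h2 : M.face (M.σ (M.σ b1)) = M.σ (M.σ b2) := by rw [M.face_apply, hq]
      have h4 : M.face (M.σ (M.σ b2)) = M.σ (M.σ b0) := by rw [M.face_apply, ← hp, M.α2]
      apply h3 (M.σ (M.σ b0))
      have hper : Function.IsPeriodicPt M.face 3 (M.σ (M.σ b0)) := by
        change M.face^[3] (M.σ (M.σ b0)) = _
        simp only [Function.iterate_succ, Function.iterate_zero, Function.comp_apply, id, h1, h2,
          h4]
      have hdvd := hper.minimalPeriod_dvd
      have hne1 : Function.minimalPeriod M.face (M.σ (M.σ b0)) ≠ 1 := by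
        intro h
        rw [Function.minimalPeriod_eq_one_iff_isFixedPt] at h
        have h6 : M.face (M.σ (M.σ b0)) = M.σ (M.σ b0) := h
        rw [h1] at h6
        exact hn01 (σinj (σinj h6)).symm
      exact ((Nat.prime_three.eq_one_or_self_of_dvd _ hdvd).resolve_left hne1)
    · exact hd3 (hp.trans hq.symm)

theorem n13_face_ob (c : M.Cut3) (i : Fin 3) : c.con.face (c.ob i) = c.nb (i + 1) := by
  rw [face_apply, c.con_α_ob, c.con_σ_nb]

theorem con_no3 (c : M.Cut3) (hC : M.C3) (A0 : ∀ x, ¬ M.Fc x (M.α x)) (hr : c.Ring3)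
    (hm : M.Mini c.A) (h3 : ∀ x, M.flen x ≠ 3) : ∀ x, c.con.flen x ≠ 3 := by
  intro x hx
  by_cases hcase : ∀ y, c.con.Fc x y → y.1 ∈ c.A ∧ M.α y.1 ∈ c.A
  · exact h3 x.1 ((c.con_flen_eq x hcase).symm.trans hx)
  push Not at hcase
  obtain ⟨y, hxy, hy⟩ := hcase
  obtain ⟨i, hi⟩ : ∃ i, c.con.Fc x (c.ob i) := by
    rcases c.cases y with hyA | ⟨j, rfl⟩
    · obtain ⟨i, hi⟩ := (c.hb y.1).1 ⟨hyA, hy hyA⟩
      refine ⟨i, ?_⟩
      have : y = c.ob i := Subtype.ext hi.symm
      rwa [← this]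
    · refine ⟨j + 2, ?_⟩
      have h1 : c.con.face (c.ob (j + 2)) = c.nb j := by
        rw [n13_face_ob, (show ∀ j : Fin 3, j + 2 + 1 = j by decide) j]
      rw [← h1] at hxy
      exact (Equiv.Perm.sameCycle_apply_right.1 hxy)
  have hper : ∀ z, c.con.Fc x z → c.con.face (c.con.face (c.con.face z)) = z := by
    rintro z ⟨k, rfl⟩
    have h1 : c.con.face (c.con.face (c.con.face x)) = x := by
      have h2 : Function.IsPeriodicPt c.con.face 3 x := by
        have := Function.isPeriodicPt_minimalPeriod c.con.face x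
        unfold flen at hx
        rwa [hx] at this
      have h4 : c.con.face^[3] x = x := h2
      simpa only [Function.iterate_succ, Function.iterate_zero, Function.comp_apply, id] using h4
    have h5 : ∀ w, c.con.face ((c.con.face ^ k) w) = (c.con.face ^ k) (c.con.face w) := by
      intro w
      rw [← Equiv.Perm.mul_apply, ← Equiv.Perm.mul_apply, (Commute.refl c.con.face).zpow_right k]
    rw [h5, h5, h5, h1]
  have h1 := hper _ hi
  rw [n13_face_ob, face_apply c.con (c.nb (i + 1)), c.con_α_nb, face_apply] at h1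
  apply n13_main c hC A0 hr hm h3 i
  have hob : (c.con.σ (c.ob (i + 1))).1 = M.σ (c.b (i + 1)) := c.con_σ_in (c.bA (i + 1))
  have hα : (c.con.α (c.con.σ (c.ob (i + 1)))).1 = M.α (M.σ (c.b (i + 1))) := by
    rw [c.con_α, hob]
  rcases c.cases (c.con.α (c.con.σ (c.ob (i + 1)))) with hA | ⟨j, hj⟩
  · have h2 := c.con_σ_in hA
    rw [h1, hα] at h2
    have h4 : c.b i = M.σ (M.α (M.σ (c.b (i + 1)))) := h2
    rw [h4, M.σ3]
  · rw [hj, c.con_σ_nb] at h1
    exfalso
    apply c.nbA (j + 1)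
    rw [h1]
    exact c.bA i

end Pool.H64.NC.CubicMap
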