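import Pool.Agent.Helper64.NC.Rd.Face
import Pool.Agent.Helper64.NC.Rd.ConThree
import Pool.Agent.Helper64.NC.Rd.NoTri

/-! NC: reduction to cyclically 4-edge-connected maps, and the main theorem. -/

set_option linter.unusedSectionVars false

namespace Pool.H64.NC

open Function

universe u

namespace CubicMap

theorem card_six {D : Type u} [Fintype D] [DecidableEq D] (M : CubicMap D) :
    6 ∣ Fintype.card D := by
  have h3 : 3 ∣ (Finset.univ : Finset D).card := card3 (M := M) Finset.univ (fun _ _ => Finset.mem_univ _)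
  have h2 := card_even (M := M) Finset.univ
  have h4 : (Finset.univ.filter (fun x : D => M.α x ∉ (Finset.univ : Finset D))) = ∅ := by
    rw [Finset.filter_eq_empty_iff]
    intro x _
    simp
  rw [h4, Finset.card_empty, add_zero] at h2
  rw [Finset.card_univ] at h2 h3
  have h5 : 2 ∣ Fintype.card D := even_iff_two_dvd.1 h2
  omega

/-- A plane map with exactly three Hamilton circuits, more than two vertices and no face of length
3 can be reduced to a cyclically 4-edge-connected one. -/
theorem reduce {D : Type u} [Fintype D] [DecidableEq D] {M : CubicMap D} (hM : M.Genus0)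
    (hT : M.Three) (hn : 6 < Fintype.card D) (h3 : ∀ x, M.flen x ≠ 3) :
    ∃ (D' : Type u) (_ : Fintype D') (_ : DecidableEq D') (M' : CubicMap D'),
      M'.Genus0 ∧ M'.Three ∧ M'.C4 ∧ 12 ≤ Fintype.card D' ∧ (∀ x, M'.flen x ≠ 3) ∧
      ∃ f : D' → D, (∀ x, M'.flen x ≤ M.flen (f x)) ∧ ∀ x y, M'.Fc x y ↔ M.Fc (f x) (f y) := by
  by_cases hC : M.C4
  · have h6 := card_six M
    exact ⟨D, inferInstance, inferInstance, M, hM, hT, hC, by omega, h3, id,
      fun x => le_refl _, fun x y => Iff.rfl⟩
  · have hC3 := three_C3 hT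
    obtain ⟨A, hσ, hA9, hcut, hmin⟩ := exists_min hC3 hC
    obtain ⟨c, hcA, hr⟩ := exists_ring hM hC3 A hσ hcut
    subst hcA
    have A0 := adj0_C3 hM hC3
    have hcard := con_card c
    have hne : Nonempty c.DA := Fintype.card_pos_iff.1 (by rw [hcard]; omega)
    refine ⟨c.DA, inferInstance, inferInstance, c.con, ?_, c.con_three hT, con_C4 c hmin, ?_,
      con_no3 c hC3 A0 hr hmin h3, Subtype.val, c.con_flen_le hr, fun x y => c.con_fc_iff A0 hr⟩
    · exact genus0_of_hom (c.con_conn hM.1) (c.con_hom A0 hr (hom_of hM))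
    · rw [hcard]
      have := hmin.1
      omega

/-- **Main theorem.** A plane cubic map with more than two vertices, with exactly three Hamilton
circuits and without triangular faces has two faces of length at least 7. -/
theorem main_two_big (HG : AllGood) {D : Type u} [Fintype D] [DecidableEq D] {M : CubicMap D}
    (hM : M.Genus0) (hT : M.Three) (hn : 6 < Fintype.card D) (h3 : ∀ x, M.flen x ≠ 3) :
    ∃ x y, 7 ≤ M.flen x ∧ 7 ≤ M.flen y ∧ ¬ M.Fc x y := by
  obtain ⟨D', i1, i2, M', h1, h2, h4, h5, h6, f, h7, h8⟩ := reduce hM hT hn h3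
  obtain ⟨x, y, hx, hy, hxy⟩ := two_big HG h1 h4 h5 h2 h6
  exact ⟨f x, f y, hx.trans (h7 x), hy.trans (h7 y), fun h => hxy ((h8 x y).2 h)⟩

end CubicMap
end Pool.H64.NC
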