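import Pool.Agent.Helper64.NC.Rd.Tri

/-! NC: membership in the class `𝒯` and unique 3-edge-colourability. -/

set_option linter.unusedSectionVars false

namespace Pool.H64.NC

open Function

universe u

namespace CubicMap

/-- two vertices joined by three parallel edges: the base case -/
theorem base_loopless {D : Type u} [Fintype D] [DecidableEq D] {M : CubicMap D} (hC : M.C3)
    (h6 : Fintype.card D = 6) (x : D) : M.α x ≠ M.σ x ∧ M.α x ≠ M.σ (M.σ x) := by
  classical
  set A : Finset D := {x, M.σ x, M.σ (M.σ x)} with hA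
  have hAc : A.card ≤ 3 := Finset.card_le_three
  have hσ : ∀ y ∈ A, M.σ y ∈ A := by
    intro y hy
    rw [hA, Finset.mem_insert, Finset.mem_insert, Finset.mem_singleton] at hy
    rcases hy with rfl | rfl | rfl
    · simp [hA]
    · simp [hA]
    · rw [M.σ3]; simp [hA]
  have hcc := Finset.card_add_card_compl A
  have h1 := hC A hσ ⟨x, by simp [hA]⟩ (Finset.card_pos.1 (by omega))
  have h2 : A.filter (fun y => M.α y ∉ A) = A :=
    Finset.eq_of_subset_of_card_le (Finset.filter_subset _ _) (hAc.trans h1)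
  have h3 : x ∈ A.filter (fun y => M.α y ∉ A) := by rw [h2]; simp [hA]
  have h4 := (Finset.mem_filter.1 h3).2
  constructor
  · intro h
    apply h4
    rw [h]; simp [hA]
  · intro h
    apply h4
    rw [h]; simp [hA]

theorem three_card_pos {D : Type u} [Fintype D] [DecidableEq D] {M : CubicMap D} (h : M.Three) :
    0 < Fintype.card D := by
  obtain ⟨U1, U2, U3, -, -, -, h12, -⟩ := h
  rw [Fintype.card_pos_iff]
  by_contra hne
  rw [not_nonempty_iff] at hne
  exact h12 (by ext x; exact hne.elim x)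

/-- **Main theorem.** A plane cubic map with exactly three Hamilton circuits and at most one face of
length at least 7 belongs to the class `𝒯`. -/
theorem one_big_InT (HG : AllGood) : ∀ (n : ℕ) (D : Type u) [Fintype D] [DecidableEq D]
    (M : CubicMap D), Fintype.card D = n → M.Genus0 → M.Three →
    (∀ x y, 7 ≤ M.flen x → 7 ≤ M.flen y → M.Fc x y) → InT D M := by
  intro n
  induction n using Nat.strong_induction_on with
  | _ n ih =>
    intro D _ _ M hn hM hT h1
    have h6 := card_six M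
    have h0 := three_card_pos hT
    have hC := three_C3 hT
    by_cases hn6 : 6 < Fintype.card D
    · have h3 : ∃ x, M.flen x = 3 := by
        by_contra h
        push Not at h
        obtain ⟨x, y, hx, hy, hxy⟩ := main_two_big HG hM hT hn6 h
        exact hxy (h1 x y hx hy)
      obtain ⟨x, hx⟩ := h3
      have hn12 : 12 ≤ Fintype.card D := by omega
      obtain ⟨c, hr, hc, hexp⟩ := tri_expand hM hC hn12 hx
      have A0 := adj0_C3 hM hC
      have hcard := con_card c
      have hne : Nonempty c.DA := Fintype.card_pos_iff.1 (by rw [hcard]; omega)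
      refine InT.step c.DA D c.con M (ih _ ?_ c.DA c.con rfl ?_ (c.con_three hT) ?_) hexp
      · rw [hcard]; omega
      · exact genus0_of_hom (c.con_conn hM.1) (c.con_hom A0 hr (hom_of hM))
      · intro y z hy hz
        exact (c.con_fc_iff A0 hr).2 (h1 _ _ (hy.trans (c.con_flen_le hr y))
          (hz.trans (c.con_flen_le hr z)))
    · have h66 : Fintype.card D = 6 := by omega
      exact InT.base D M (by rw [Nat.card_eq_fintype_card]; exact h66) (base_loopless hC h66)

/-- proper 3-edge-colouring (a colour for every dart, the same for both darts of an edge) -/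
def Col {D : Type*} (M : CubicMap D) (c : D → Fin 3) : Prop :=
  (∀ x, c (M.α x) = c x) ∧ ∀ x, c (M.σ x) ≠ c x

/-- uniquely 3-edge-colourable: there is a proper 3-edge-colouring and any two of them differ by a
permutation of the colours -/
def UniqCol {D : Type*} (M : CubicMap D) : Prop :=
  (∃ c, M.Col c) ∧ ∀ c c', M.Col c → M.Col c' → ∃ π : Equiv.Perm (Fin 3), ∀ x, c' x = π (c x)

theorem fin3_perm (a b c a' b' c' : Fin 3) (h1 : b ≠ a) (h2 : c ≠ b) (h3 : a ≠ c) (h1' : b' ≠ a')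
    (h2' : c' ≠ b') (h3' : a' ≠ c') : ∃ π : Equiv.Perm (Fin 3), a' = π a ∧ b' = π b ∧ c' = π c := by
  revert a b c a' b' c'
  decide

theorem fin3_tri (a0 a1 a2 y0 y1 y2 : Fin 3) (h1 : a0 ≠ y0) (h2 : a2 ≠ a0) (h3 : y0 ≠ a2)
    (h4 : a1 ≠ y1) (h5 : a0 ≠ a1) (h6 : y1 ≠ a0) (h7 : a2 ≠ y2) (h8 : a1 ≠ a2) (h9 : y2 ≠ a1) :
    y0 = a1 ∧ y1 = a2 ∧ y2 = a0 := by
  revert a0 a1 a2 y0 y1 y2
  decide

theorem uniq_base {D : Type u} [Finite D] {M : CubicMap D} (h6 : Nat.card D = 6)
    (h : ∀ x, M.α x ≠ M.σ x ∧ M.α x ≠ M.σ (M.σ x)) {c c' : D → Fin 3} (hc : M.Col c)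
    (hc' : M.Col c') : ∃ π : Equiv.Perm (Fin 3), ∀ x, c' x = π (c x) := by
  classical
  have := Fintype.ofFinite D
  have hD : 0 < Fintype.card D := by rw [← Nat.card_eq_fintype_card, h6]; norm_num
  obtain ⟨x⟩ := Fintype.card_pos_iff.1 hD
  obtain ⟨π, p1, p2, p3⟩ := fin3_perm (c x) (c (M.σ x)) (c (M.σ (M.σ x))) (c' x) (c' (M.σ x))
    (c' (M.σ (M.σ x))) (hc.2 _) (hc.2 _) (by have := hc.2 (M.σ (M.σ x)); rwa [M.σ3] at this)
    (hc'.2 _) (hc'.2 _) (by have := hc'.2 (M.σ (M.σ x)); rwa [M.σ3] at this)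
  set A : Finset D := {x, M.σ x, M.σ (M.σ x)} with hA
  have hAc : A.card = 3 := by
    rw [hA, Finset.card_insert_of_notMem, Finset.card_insert_of_notMem, Finset.card_singleton]
    · rw [Finset.mem_singleton]; exact (M.σ1 _).symm
    · rw [Finset.mem_insert, Finset.mem_singleton, not_or]
      exact ⟨(M.σ1 _).symm, (M.σσ1 x).symm⟩
  have hAp : ∀ y ∈ A, c' y = π (c y) := by
    intro y hy
    rw [hA, Finset.mem_insert, Finset.mem_insert, Finset.mem_singleton] at hy
    rcases hy with rfl | rfl | rfl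
    · exact p1
    · exact p2
    · exact p3
  have hdis : Disjoint A (A.image M.α) := by
    rw [Finset.disjoint_left]
    intro y h1 h2
    obtain ⟨z, hz, rfl⟩ := Finset.mem_image.1 h2
    have e1 : M.α z = z ∨ M.α z = M.σ z ∨ M.α z = M.σ (M.σ z) := by
      rw [hA, Finset.mem_insert, Finset.mem_insert, Finset.mem_singleton] at h1 hz
      rcases hz with rfl | rfl | rfl
      · exact h1
      · rw [M.σ3]
        tauto
      · rw [M.σ3]
        tauto
    rcases e1 with e | e | e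
    · exact M.α1 _ e
    · exact (h z).1 e
    · exact (h z).2 e
  have hun : A ∪ A.image M.α = Finset.univ := by
    apply Finset.eq_univ_of_card
    rw [Finset.card_union_of_disjoint hdis, Finset.card_image_of_injective _ M.αinj, hAc,
      ← Nat.card_eq_fintype_card, h6]
  refine ⟨π, fun y => ?_⟩
  have hy : y ∈ A ∪ A.image M.α := by rw [hun]; exact Finset.mem_univ _
  rcases Finset.mem_union.1 hy with hy | hy
  · exact hAp y hy
  · obtain ⟨z, hz, rfl⟩ := Finset.mem_image.1 hy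
    rw [hc.1, hc'.1]
    exact hAp z hz

/-- colours around an expanded vertex -/
theorem col_new {D' D : Type*} {M' : CubicMap D'} {M : CubicMap D} {f : D' → D} {w : D'}
    (h4 : ∀ x, (x = w ∨ x = M'.σ w ∨ x = M'.σ (M'.σ w)) →
      M.α (M.σ (f x)) = M.σ (M.σ (f (M'.σ x)))) {c : D → Fin 3} (hc : M.Col c) :
    ∀ x, (x = w ∨ x = M'.σ w ∨ x = M'.σ (M'.σ w)) → c (f x) = c (M.σ (f (M'.σ x))) := by
  have e0 := h4 w (Or.inl rfl)
  have e1 := h4 (M'.σ w) (Or.inr (Or.inl rfl))
  have e2 := h4 (M'.σ (M'.σ w)) (Or.inr (Or.inr rfl))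
  rw [M'.σ3] at e2
  have b1 : c (M.σ (M.σ (f (M'.σ w)))) = c (M.σ (f w)) := by rw [← e0, hc.1]
  have b2 : c (M.σ (M.σ (f (M'.σ (M'.σ w))))) = c (M.σ (f (M'.σ w))) := by rw [← e1, hc.1]
  have b0 : c (M.σ (M.σ (f w))) = c (M.σ (f (M'.σ (M'.σ w)))) := by rw [← e2, hc.1]
  have v : ∀ y, c (M.σ y) ≠ c y ∧ c (M.σ (M.σ y)) ≠ c (M.σ y) ∧ c y ≠ c (M.σ (M.σ y)) := by
    intro y
    refine ⟨hc.2 _, hc.2 _, ?_⟩
    have := hc.2 (M.σ (M.σ y))
    rwa [M.σ3] at this
  obtain ⟨v1, v2, v3⟩ := v (f w)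
  obtain ⟨v4, v5, v6⟩ := v (f (M'.σ w))
  obtain ⟨v7, v8, v9⟩ := v (f (M'.σ (M'.σ w)))
  rw [b0] at v2 v3
  rw [b1] at v5 v6
  rw [b2] at v8 v9
  obtain ⟨r0, r1, r2⟩ := fin3_tri _ _ _ _ _ _ v1 v2 v3 v4 v5 v6 v7 v8 v9
  rintro x (rfl | rfl | rfl)
  · exact r0
  · exact r1
  · rw [M'.σ3]; exact r2

theorem uniq_step {D' D : Type*} {M' : CubicMap D'} {M : CubicMap D} (h : Expands M' M)
    (ih : ∀ c c', M'.Col c → M'.Col c' → ∃ π : Equiv.Perm (Fin 3), ∀ x, c' x = π (c x))
    {c c' : D → Fin 3} (hc : M.Col c) (hc' : M.Col c') :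
    ∃ π : Equiv.Perm (Fin 3), ∀ x, c' x = π (c x) := by
  obtain ⟨f, w, h1, h2, h3, h4, h5⟩ := h
  have hat : ∀ x, (x = w ∨ x = M'.σ w ∨ x = M'.σ (M'.σ w)) →
      (M'.σ x = w ∨ M'.σ x = M'.σ w ∨ M'.σ x = M'.σ (M'.σ w)) := by
    rintro x (rfl | rfl | rfl)
    · exact Or.inr (Or.inl rfl)
    · exact Or.inr (Or.inr rfl)
    · rw [M'.σ3]; exact Or.inl rfl
  have res : ∀ d : D → Fin 3, M.Col d → M'.Col (fun x => d (f x)) := by
    intro d hd
    refine ⟨fun x => by
      change d (f (M'.α x)) = d (f x)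
      rw [← h2]; exact hd.1 _, fun x => ?_⟩
    by_cases hx : x = w ∨ x = M'.σ w ∨ x = M'.σ (M'.σ w)
    · have k1 := col_new h4 hd x hx
      have k2 := col_new h4 hd _ (hat x hx)
      change d (f (M'.σ x)) ≠ d (f x)
      rw [k1, ne_comm]
      exact hd.2 _
    · rw [not_or, not_or] at hx
      change d (f (M'.σ x)) ≠ d (f x)
      rw [← h3 x hx.1 hx.2.1 hx.2.2]
      exact hd.2 _
  obtain ⟨π, hπ⟩ := ih _ _ (res c hc) (res c' hc')
  have ha : ∀ x, (x = w ∨ x = M'.σ w ∨ x = M'.σ (M'.σ w)) →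
      c' (M.σ (f x)) = π (c (M.σ (f x))) := by
    intro x hx
    have k1 := col_new h4 hc _ (hat _ (hat x hx))
    have k2 := col_new h4 hc' _ (hat _ (hat x hx))
    rw [M'.σ3] at k1 k2
    rw [← k1, ← k2]
    exact hπ _
  refine ⟨π, fun y => ?_⟩
  by_cases hy : ∀ x, f x ≠ y
  · obtain ⟨x, hx, hyx⟩ := (h5 y).1 hy
    rcases hyx with rfl | rfl
    · exact ha x hx
    · have e := h4 _ (hat _ (hat x hx))
      rw [M'.σ3] at e
      rw [← e, hc.1, hc'.1]
      exact ha _ (hat _ (hat x hx))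
  · push Not at hy
    obtain ⟨x, rfl⟩ := hy
    exact hπ x

theorem InT_uniq {D : Type u} {M : CubicMap D} (h : InT D M) :
    ∀ c c', M.Col c → M.Col c' → ∃ π : Equiv.Perm (Fin 3), ∀ x, c' x = π (c x) := by
  induction h with
  | base D M h6 h =>
    intro c c' hc hc'
    have : Finite D := Nat.finite_of_card_ne_zero (by rw [h6]; norm_num)
    exact uniq_base h6 h hc hc'
  | step D' D M' M _ h ih =>
    intro c c' hc hc'
    exact uniq_step h ih hc hc'

/-- the 3-edge-colouring given by the three Hamilton circuits -/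
theorem three_col {D : Type u} [Fintype D] [DecidableEq D] {M : CubicMap D} (h : M.Three) :
    ∃ c, M.Col c := by
  obtain ⟨U1, U2, U3, hU1, hU2, hU3, h12, h13, h23, hall⟩ := h
  have hone := three_one hU1 hU2 hU3 h12 h13 h23 hall
  refine ⟨fun x => if x ∈ U1 then 0 else if x ∈ U2 then 1 else 2, fun x => ?_, fun x => ?_⟩
  · have e1 := hU1.1.1 x
    have e2 := hU2.1.1 x
    simp only [e1, e2]
  · have e0 := hone x
    have e0' := hone (M.σ x)
    have e1 := hU1.1.2 x
    have e2 := hU2.1.2 x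
    have e3 := hU3.1.2 x
    unfold One3 at e0 e0' e1 e2 e3
    by_cases a1 : x ∈ U1 <;> by_cases a2 : x ∈ U2 <;> by_cases b1 : M.σ x ∈ U1 <;>
      by_cases b2 : M.σ x ∈ U2 <;> simp [a1, a2, b1, b2] at e0 e0' e1 e2 e3 ⊢
    all_goals tauto

theorem one_big_uniq (HG : AllGood) {D : Type u} [Fintype D] [DecidableEq D] {M : CubicMap D}
    (hM : M.Genus0) (hT : M.Three) (h1 : ∀ x y, 7 ≤ M.flen x → 7 ≤ M.flen y → M.Fc x y) :
    M.UniqCol :=
  ⟨three_col hT, InT_uniq (one_big_InT HG _ D M rfl hM hT h1)⟩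

end CubicMap
end Pool.H64.NC
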