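import Pool.Agent.Helper64.NC.Rd.ConHom
import Pool.Agent.Helper64.NC.St.Cut

/-!
NC-RD5. Faces at a 3-edge cut.

`cut_of_even`: extract it from the first half of the proof of `cu_cut` in `St/Cut.lean`
(`planar_boundary M.face M.permα ...` gives `k` with `k` constant on vertices and
`1_S = k + k ∘ α`; `A = {k = 1}`).
`adj0_C3`: `S = {x, α x}` (`M.Fc x (α x)` makes it even on every face); the set `A` of
`cut_of_even` has exactly one dart leading out of it (namely `x` or `α x`), `A` and its complement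
are nonempty; contradiction with `C3`.
`exists_ring`: for a dart `x` with `x ∈ A`, `α x ∉ A` follow the face: `face x = σ (α x) ∉ A`; let
`n ≥ 1` be the last index such that `face^k x ∉ A` for `1 ≤ k ≤ n` (it exists, the face is a
cycle through `x ∈ A`); `y = face^n x ∉ A`, `face y = σ (α y) ∈ A`, so `z = α y ∈ A`, `α z ∉ A`.
Put `f x = z`: `Fc x (α (f x))`. `f x ≠ x` by `adj0_C3`. `f` is injective: `face^n x = face^m x'`
with `n ≥ m` gives `x' = face^(n-m) x ∈ A`, so `n = m` (as `n - m ≤ n - 1`... `n - m = 0` or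
`1 ≤ n - m ≤ n`). A fixed point free injective map of a set with three elements is a 3-cycle.
So `b 0` arbitrary, `b 1 = f (b 0)`, `b 2 = f (b 1)`.
`con_fc`: enough for one step of `con.face` (`SameCycle` is generated by steps; `con.face (ob i) =
nb (i+1)`, use `Ring3`; `(con.face x).1 = face x.1` if `α x.1 ∈ A`).
`con_fc_iff`: the converse: it is enough that for `x : c.DA`, the first `face^k x.1` (`k ≥ 1`)
which is in `DA` is `(con.face x).1`. If `α x.1 ∈ A` this is clear (`k = 1`). If `x = ob i`: the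
first return to `DA` is a dart `y ∉ A` with `α y ∈ A` (or `y ∈ A`, impossible since the dart before would
be of the form `α z`, `z ∈ A`), so `y = α (b j)` with `Fc (b i) (α (b j))`; by `ring_ne` and
`Ring3` `j = i + 1`.
`con_flen_le`: the `con.face`-cycle of `x` is mapped injectively to the `face`-cycle of `x.1`
(`flen` = number of elements of the cycle).
`con_flen_eq`: if the cycle of `x` consists of darts `y` with `y.1 ∈ A`, `α y.1 ∈ A` then
`(con.face^k x).1 = face^k x.1` for all `k`. -/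

set_option linter.unusedSectionVars false

namespace Pool.H64.NC.CubicMap

open Function

variable {D : Type*} [Fintype D] [DecidableEq D] {M : CubicMap D}

open Classical in
theorem cut_of_even (hM : M.Genus0) (S : Finset D) (hα : ∀ x ∈ S, M.α x ∈ S)
    (hev : ∀ d, ∑ x ∈ S, (if M.Fc d x then (1 : ZMod 2) else 0) = 0) :
    ∃ A : Finset D, (∀ x, M.σ x ∈ A ↔ x ∈ A) ∧ ∀ x, x ∈ S ↔ (x ∈ A ↔ M.α x ∉ A) := by
  have hα' : ∀ x, M.α x ∈ S ↔ x ∈ S := fun x =>
    ⟨fun h => by have := hα _ h; rwa [M.α2] at this, hα x⟩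
  have hfp : M.face * M.permα = M.permσ := by
    ext x
    change M.σ (M.α (M.α x)) = M.σ x
    rw [M.α2]
  obtain ⟨k, hk1, hk2⟩ := planar_boundary M.face M.permα M.α2 M.α1
    (by
      intro T hT hcl
      apply hM.1 T hT
      intro d hd
      have h1 := (hcl _ (hcl d hd).2).1
      refine ⟨?_, (hcl d hd).2⟩
      change M.σ (M.α (M.α d)) ∈ T at h1
      rwa [M.α2] at h1)
    (by rw [hfp, add_comm]; exact hM.2)
    (fun x => if x ∈ S then 1 else 0)
    (by
      intro d
      change (if M.α d ∈ S then (1 : ZMod 2) else 0) = if d ∈ S then 1 else 0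
      simp only [hα'])
    (by
      intro d
      refine Eq.trans ?_ (hev d)
      rw [Finset.sum_filter]
      have hr : ∑ x ∈ S, (if M.Fc d x then (1 : ZMod 2) else 0) =
          ∑ x, if x ∈ S then (if M.Fc d x then (1 : ZMod 2) else 0) else 0 := by
        rw [← Finset.sum_filter (fun x => x ∈ S)
          (fun x => if M.Fc d x then (1 : ZMod 2) else 0)]
        apply Finset.sum_congr _ (fun _ _ => rfl)
        ext x; simp
      rw [hr]
      apply Finset.sum_congr rfl
      intro x _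
      unfold Fc
      by_cases h1 : M.face.SameCycle d x <;> by_cases h2 : x ∈ S <;> simp [h1, h2])
  have hkσ : ∀ d, k (M.σ d) = k d := by
    intro d
    have h1 := hk1 d
    change k (M.σ (M.α (M.α d))) = k d at h1
    rwa [M.α2] at h1
  refine ⟨Finset.univ.filter (fun x => k x = 1), ?_, ?_⟩
  · intro x
    rw [Finset.mem_filter, Finset.mem_filter, hkσ]
    simp only [Finset.mem_univ, true_and]
  · intro x
    have h1 : (if x ∈ S then (1 : ZMod 2) else 0) = k x + k (M.α x) := hk2 x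
    simp only [Finset.mem_filter, Finset.mem_univ, true_and]
    by_cases h : x ∈ S
    · rw [if_pos h] at h1
      refine ⟨fun _ => ?_, fun _ => h⟩
      rcases cu_zmod (k x) with h2 | h2 <;> rcases cu_zmod (k (M.α x)) with h3 | h3 <;>
        rw [h2, h3] at h1 ⊢ <;> revert h1 <;> decide
    · rw [if_neg h] at h1
      refine ⟨fun h' => absurd h' h, fun he => ?_⟩
      exfalso
      revert he h1
      rcases cu_zmod (k x) with h2 | h2 <;> rcases cu_zmod (k (M.α x)) with h3 | h3 <;>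
        rw [h2, h3] <;> decide

theorem adj0_C3 (hM : M.Genus0) (hC : M.C3) (x : D) : ¬ M.Fc x (M.α x) := by
  classical
  intro hx
  have hne : x ≠ M.α x := fun h => M.α1 x h.symm
  have hcard : ({x, M.α x} : Finset D).card = 2 := Finset.card_pair hne
  obtain ⟨A, hσ, hA⟩ := cut_of_even hM {x, M.α x} (by
    intro z hz
    simp only [Finset.mem_insert, Finset.mem_singleton] at hz ⊢
    rcases hz with rfl | rfl
    · right; rfl
    · left; exact M.α2 _) (by
    intro d
    rw [Finset.sum_pair hne]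
    by_cases h : M.Fc d x
    · rw [if_pos h, if_pos ((cu_right hx).mp h)]; decide
    · rw [if_neg h, if_neg (fun h' => h ((cu_right hx).mpr h'))]; decide)
  have h1 : x ∈ A ↔ M.α x ∉ A := (hA x).1 (by simp)
  have h2 : A.Nonempty ∧ Aᶜ.Nonempty := by
    by_cases hxA : x ∈ A
    · exact ⟨⟨x, hxA⟩, ⟨M.α x, by rw [Finset.mem_compl]; exact h1.1 hxA⟩⟩
    · refine ⟨⟨M.α x, ?_⟩, ⟨x, by rw [Finset.mem_compl]; exact hxA⟩⟩
      by_contra h
      exact hxA (h1.2 h)
  have h3 := hC A (fun y hy => (hσ y).2 hy) h2.1 h2.2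
  have h4 : A.filter (fun y => M.α y ∉ A) ⊆ {x, M.α x} := by
    intro y hy
    rw [Finset.mem_filter] at hy
    exact (hA y).2 ⟨fun _ => hy.2, fun _ => hy.1⟩
  have h5 := Finset.card_le_card h4
  omega

omit [DecidableEq D] in
theorem rd5_pos (x : D) : ∃ n, 1 ≤ n ∧ (M.face ^ n) x = x := by
  obtain ⟨n, h0, h1⟩ := isOfFinOrder_iff_pow_eq_one.1 (isOfFinOrder_of_finite M.face)
  exact ⟨n, h0, by rw [h1]; rfl⟩

/-- the first return to `A` -/
theorem rd5_ret (A : Finset D) (hσ : ∀ x, M.σ x ∈ A ↔ x ∈ A) (x : D) (hx : x ∈ A)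
    (hx' : M.α x ∉ A) : ∃ n z, z ∈ A ∧ M.α z ∉ A ∧ M.α z = (M.face ^ n) x ∧
      ∀ k, 1 ≤ k → k ≤ n → (M.face ^ k) x ∉ A := by
  classical
  have hex : ∃ n, 1 ≤ n ∧ (M.face ^ n) x ∈ A := by
    obtain ⟨n, h0, h1⟩ := rd5_pos (M := M) x
    exact ⟨n, h0, by rw [h1]; exact hx⟩
  obtain ⟨hN1, hNA⟩ := Nat.find_spec hex
  have hmin : ∀ k, k < Nat.find hex → ¬ (1 ≤ k ∧ (M.face ^ k) x ∈ A) := fun k hk =>
    Nat.find_min hex hk
  generalize Nat.find hex = N at hN1 hNA hmin
  obtain ⟨n, rfl⟩ : ∃ n, N = n + 1 := ⟨N - 1, by omega⟩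
  rw [pow_succ', Equiv.Perm.mul_apply, M.face_apply, hσ] at hNA
  have hn1 : n ≠ 0 := by
    rintro rfl
    exact hx' hNA
  refine ⟨n, M.α ((M.face ^ n) x), hNA, ?_, ?_, ?_⟩
  · rw [M.α2]
    intro h
    exact hmin n (by omega) ⟨by omega, h⟩
  · rw [M.α2]
  · intro k hk1 hk2 h
    exact hmin k (by omega) ⟨hk1, h⟩

theorem rd5_inj (A : Finset D) {x x' : D} {n n' : ℕ}
    (hx' : x' ∈ A) (h : (M.face ^ n) x = (M.face ^ n') x') (hnn : n' ≤ n)
    (hm : ∀ k, 1 ≤ k → k ≤ n → (M.face ^ k) x ∉ A) : x = x' := by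
  obtain ⟨m, rfl⟩ : ∃ m, n = n' + m := ⟨n - n', by omega⟩
  rw [pow_add, Equiv.Perm.mul_apply] at h
  have h1 := (M.face ^ n').injective h
  rcases Nat.eq_zero_or_pos m with rfl | h0
  · simpa using h1
  · exact absurd (h1 ▸ hx') (hm m h0 (by omega))

theorem exists_ring (hM : M.Genus0) (hC : M.C3) (A : Finset D) (hσ : ∀ x, M.σ x ∈ A ↔ x ∈ A)
    (h3 : (A.filter (fun x => M.α x ∉ A)).card = 3) : ∃ c : M.Cut3, c.A = A ∧ c.Ring3 := by
  classical
  set B := A.filter (fun x => M.α x ∉ A) with hB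
  have hBm : ∀ x, x ∈ B ↔ x ∈ A ∧ M.α x ∉ A := by
    intro x
    rw [hB, Finset.mem_filter]
  choose! n f hf1 hf2 hf3 hf4 using fun x (h : x ∈ A ∧ M.α x ∉ A) => rd5_ret A hσ x h.1 h.2
  have hfB : ∀ x ∈ B, f x ∈ B := fun x hx =>
    (hBm _).2 ⟨hf1 x ((hBm x).1 hx), hf2 x ((hBm x).1 hx)⟩
  have hfc : ∀ x ∈ B, M.Fc x (M.α (f x)) := fun x hx =>
    ⟨n x, by rw [zpow_natCast]; exact (hf3 x ((hBm x).1 hx)).symm⟩
  have hne : ∀ x ∈ B, f x ≠ x := by
    intro x hx h
    have h1 := hfc x hx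
    rw [h] at h1
    exact adj0_C3 hM hC x h1
  have hinj : ∀ x ∈ B, ∀ y ∈ B, f x = f y → x = y := by
    intro x hx y hy h
    have h1 := hf3 x ((hBm x).1 hx)
    have h2 := hf3 y ((hBm y).1 hy)
    rw [h, h2] at h1
    rcases le_total (n x) (n y) with h4 | h4
    · exact (rd5_inj A ((hBm x).1 hx).1 h1 h4 (hf4 y ((hBm y).1 hy))).symm
    · exact rd5_inj A ((hBm y).1 hy).1 h1.symm h4 (hf4 x ((hBm x).1 hx))
  obtain ⟨b0, hb0⟩ : B.Nonempty := by
    rw [← Finset.card_pos, h3]; omega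
  have hb1 := hfB b0 hb0
  have hb2 := hfB _ hb1
  have n1 := hne b0 hb0
  have n2 := hne _ hb1
  have n3 : f (f b0) ≠ b0 := by
    intro h
    have h5 : ∃ t ∈ B, t ≠ b0 ∧ t ≠ f b0 := by
      by_contra hcon
      push Not at hcon
      have h6 : B ⊆ {b0, f b0} := by
        intro t ht
        rw [Finset.mem_insert, Finset.mem_singleton]
        by_cases h7 : t = b0
        · left; exact h7
        · right; exact hcon t ht h7
      have h7 := (Finset.card_le_card h6).trans Finset.card_le_two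
      omega
    obtain ⟨t, ht, t0, t1⟩ := h5
    have h6 : ({b0, f b0, t, f t} : Finset D) ⊆ B := by
      intro z hz
      simp only [Finset.mem_insert, Finset.mem_singleton] at hz
      rcases hz with rfl | rfl | rfl | rfl
      · exact hb0
      · exact hb1
      · exact ht
      · exact hfB t ht
    have h7 := Finset.card_le_card h6
    rw [Finset.card_insert_of_notMem, Finset.card_insert_of_notMem, Finset.card_insert_of_notMem,
      Finset.card_singleton] at h7
    · omega
    · rw [Finset.mem_singleton]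
      exact (hne t ht).symm
    · simp only [Finset.mem_insert, Finset.mem_singleton, not_or]
      exact ⟨fun h => t1 h.symm, fun h' => t0 (hinj _ hb0 _ ht h').symm⟩
    · simp only [Finset.mem_insert, Finset.mem_singleton, not_or]
      exact ⟨n1.symm, fun h => t0 h.symm, fun h' => t1 (hinj _ hb1 _ ht (h.trans h')).symm⟩
  have hBe : B = {b0, f b0, f (f b0)} := by
    symm
    apply Finset.eq_of_subset_of_card_le
    · intro z hz
      simp only [Finset.mem_insert, Finset.mem_singleton] at hz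
      rcases hz with rfl | rfl | rfl
      · exact hb0
      · exact hb1
      · exact hb2
    · rw [h3, Finset.card_insert_of_notMem, Finset.card_insert_of_notMem, Finset.card_singleton]
      · rw [Finset.mem_singleton]
        exact n2.symm
      · simp only [Finset.mem_insert, Finset.mem_singleton, not_or]
        exact ⟨n1.symm, n3.symm⟩
  have h33 : f (f (f b0)) = b0 := by
    have h4 := hfB _ hb2
    rw [hBe] at h4
    simp only [Finset.mem_insert, Finset.mem_singleton] at h4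
    rcases h4 with h4 | h4 | h4
    · exact h4
    · exact absurd (hinj _ hb2 _ hb0 h4) n3
    · exact absurd h4 (hne _ hb2)
  have hbinj : Injective ![b0, f b0, f (f b0)] := by
    intro i j h
    fin_cases i <;> fin_cases j
    · rfl
    · exact absurd h n1.symm
    · exact absurd h n3.symm
    · exact absurd h n1
    · rfl
    · exact absurd h n2.symm
    · exact absurd h n3
    · exact absurd h n2
    · rfl
  refine ⟨⟨A, ![b0, f b0, f (f b0)], hbinj, hσ, ?_⟩, rfl, ?_⟩
  · intro x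
    rw [← hBm, hBe]
    simp only [Finset.mem_insert, Finset.mem_singleton]
    constructor
    · rintro (rfl | rfl | rfl)
      · exact ⟨0, rfl⟩
      · exact ⟨1, rfl⟩
      · exact ⟨2, rfl⟩
    · rintro ⟨i, rfl⟩
      fin_cases i
      · left; rfl
      · right; left; rfl
      · right; right; rfl
  · intro i
    fin_cases i
    · exact hfc _ hb0
    · exact hfc _ hb1
    · have h4 := hfc _ hb2
      rw [h33] at h4
      exact h4

namespace Cut3
variable (c : M.Cut3)

omit [Fintype D] in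
theorem rd5_in {x : c.DA} (h : M.α x.1 ∈ c.A) : (c.con.face x).1 = M.face x.1 := by
  rw [face_apply, face_apply]
  exact c.con_σ_in (x := c.con.α x) h

omit [Fintype D] in
theorem rd5_ob {x : c.DA} (h : M.α x.1 ∉ c.A) : ∃ i, x = c.ob i := by
  obtain ⟨i, hi⟩ := (c.hb x.1).1 ⟨x.2.resolve_right h, h⟩
  exact ⟨i, Subtype.ext hi.symm⟩

omit [Fintype D] in
theorem rd5_face_ob (i : Fin 3) : (c.con.face (c.ob i)).1 = M.α (c.b (i + 1)) := by
  rw [face_apply, c.con_α_ob, c.con_σ_nb]
  rfl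

omit [Fintype D] in
theorem rd5_step (hr : c.Ring3) (x : c.DA) : M.Fc x.1 (c.con.face x).1 := by
  by_cases h : M.α x.1 ∈ c.A
  · rw [c.rd5_in h]
    exact Equiv.Perm.sameCycle_apply_right.mpr (Equiv.Perm.SameCycle.refl _ _)
  · obtain ⟨i, rfl⟩ := c.rd5_ob h
    rw [c.rd5_face_ob]
    exact hr i

omit [Fintype D] in
theorem rd5_pow (hr : c.Ring3) (n : ℕ) (x : c.DA) : M.Fc x.1 ((c.con.face ^ n) x).1 := by
  induction n with
  | zero => exact Equiv.Perm.SameCycle.refl _ _
  | succ n ih =>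
    rw [pow_succ', Equiv.Perm.mul_apply]
    exact ih.trans (c.rd5_step hr _)

theorem con_fc (hr : c.Ring3) {x y : c.DA} (h : c.con.Fc x y) : M.Fc x.1 y.1 := by
  obtain ⟨n, rfl⟩ := Equiv.Perm.SameCycle.exists_nat_pow_eq h
  exact c.rd5_pow hr n x

omit [Fintype D] in
/-- the first return of `face` to the darts of the contracted map -/
theorem rd5_first (A0 : ∀ x, ¬ M.Fc x (M.α x)) (hr : c.Ring3) (z : c.DA) (m : ℕ)
    (h : (M.face ^ (m + 1)) z.1 ∈ c.A ∨ M.α ((M.face ^ (m + 1)) z.1) ∈ c.A)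
    (hm : ∀ j, 1 ≤ j → j ≤ m → ¬ ((M.face ^ j) z.1 ∈ c.A ∨ M.α ((M.face ^ j) z.1) ∈ c.A)) :
    (M.face ^ (m + 1)) z.1 = (c.con.face z).1 := by
  by_cases h1 : M.α z.1 ∈ c.A
  · rcases Nat.eq_zero_or_pos m with rfl | h0
    · rw [c.rd5_in h1]; simp
    · exfalso
      apply hm 1 le_rfl h0
      left
      rw [pow_one, M.face_apply, c.hσ]
      exact h1
  · obtain ⟨i, hi⟩ := c.rd5_ob h1
    have hy : (M.face ^ (m + 1)) z.1 ∉ c.A := by
      intro h2
      rw [pow_succ', Equiv.Perm.mul_apply, M.face_apply, c.hσ] at h2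
      rcases Nat.eq_zero_or_pos m with rfl | h0
      · exact h1 h2
      · exact hm m h0 le_rfl (Or.inr h2)
    have h2 := h.resolve_left hy
    obtain ⟨j, hj⟩ := (c.hb _).1 ⟨h2, by rw [M.α2]; exact hy⟩
    have h3 : (M.face ^ (m + 1)) z.1 = M.α (c.b j) := by rw [hj, M.α2]
    have h4 : M.Fc (c.b i) (M.α (c.b j)) := by
      rw [← h3, hi]
      exact ⟨(m + 1 : ℕ), by rw [zpow_natCast]; rfl⟩
    have h5 : j = i + 1 := by
      by_contra hne
      have h6 : i ≠ j + 2 := by
        rintro rfl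
        apply hne
        clear * -
        revert j
        decide
      apply c.ring_ne A0 hr h6
      have h7 := hr (j + 2)
      have h8 : j + 2 + 1 = j := by
        clear * -
        revert j
        decide
      rw [h8] at h7
      exact h4.trans h7.symm
    rw [h3, hi, c.rd5_face_ob, h5]

omit [Fintype D] in
theorem rd5_conv (A0 : ∀ x, ¬ M.Fc x (M.α x)) (hr : c.Ring3) (x : c.DA) (n : ℕ) :
    ∃ z : c.DA, c.con.Fc x z ∧ ∃ m, (M.face ^ n) x.1 = (M.face ^ m) z.1 ∧
      ∀ j, 1 ≤ j → j ≤ m → ¬ ((M.face ^ j) z.1 ∈ c.A ∨ M.α ((M.face ^ j) z.1) ∈ c.A) := by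
  induction n with
  | zero => exact ⟨x, Equiv.Perm.SameCycle.refl _ _, 0, rfl, fun j h1 h2 => by omega⟩
  | succ n ih =>
    obtain ⟨z, hz, m, h1, h2⟩ := ih
    have h3 : (M.face ^ (n + 1)) x.1 = (M.face ^ (m + 1)) z.1 := by
      rw [pow_succ', Equiv.Perm.mul_apply, h1, pow_succ', Equiv.Perm.mul_apply]
    by_cases h : (M.face ^ (m + 1)) z.1 ∈ c.A ∨ M.α ((M.face ^ (m + 1)) z.1) ∈ c.A
    · refine ⟨c.con.face z, Equiv.Perm.sameCycle_apply_right.mpr hz, 0, ?_, fun j h1 h2 => by omega⟩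
      rw [h3, c.rd5_first A0 hr z m h h2]
      rfl
    · refine ⟨z, hz, m + 1, h3, ?_⟩
      intro j hj1 hj2
      rcases Nat.lt_or_ge m j with h5 | h5
      · have h6 : j = m + 1 := by omega
        rw [h6]; exact h
      · exact h2 j hj1 h5

theorem con_fc_iff (A0 : ∀ x, ¬ M.Fc x (M.α x)) (hr : c.Ring3) {x y : c.DA} :
    c.con.Fc x y ↔ M.Fc x.1 y.1 := by
  refine ⟨c.con_fc hr, fun h => ?_⟩
  obtain ⟨n, hn⟩ := Equiv.Perm.SameCycle.exists_nat_pow_eq h
  obtain ⟨z, hz, m, h1, h2⟩ := c.rd5_conv A0 hr x n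
  rw [hn] at h1
  rcases Nat.eq_zero_or_pos m with rfl | h0
  · have h3 : y = z := Subtype.ext h1
    rw [h3]; exact hz
  · exact absurd (h1 ▸ y.2) (h2 m h0 le_rfl)

theorem con_flen_le (hr : c.Ring3) (x : c.DA) : c.con.flen x ≤ M.flen x.1 := by
  have hper : 0 < M.flen x.1 := by
    obtain ⟨n, h0, h1⟩ := rd5_pos (M := M) x.1
    apply Function.IsPeriodicPt.minimalPeriod_pos h0
    change (⇑M.face)^[n] x.1 = x.1
    rw [Equiv.Perm.iterate_eq_pow]
    exact h1
  have key : ∀ j : ℕ, ∃ k, k < M.flen x.1 ∧ ((c.con.face)^[j] x).1 = (M.face)^[k] x.1 := by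
    intro j
    have h1 := c.rd5_pow hr j x
    obtain ⟨n, hn⟩ := Equiv.Perm.SameCycle.exists_nat_pow_eq h1
    refine ⟨n % M.flen x.1, Nat.mod_lt _ hper, ?_⟩
    have h2 : (⇑M.face)^[n % M.flen x.1] x.1 = (⇑M.face)^[n] x.1 :=
      Function.iterate_mod_minimalPeriod_eq
    rw [h2, Equiv.Perm.iterate_eq_pow, Equiv.Perm.iterate_eq_pow, hn]
  choose k hk1 hk2 using key
  have hinj : Injective (fun j : Fin (c.con.flen x) => (⟨k j, hk1 j⟩ : Fin (M.flen x.1))) := by
    intro i j h
    have h1 : k i = k j := congrArg Fin.val h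
    have h2 : ((c.con.face)^[(i : ℕ)] x).1 = ((c.con.face)^[(j : ℕ)] x).1 := by
      rw [hk2, hk2, h1]
    apply Fin.ext
    exact Function.iterate_injOn_Iio_minimalPeriod i.2 j.2 (Subtype.ext h2)
  have h5 := Fintype.card_le_of_injective _ hinj
  simpa using h5

theorem con_flen_eq (x : c.DA) (h : ∀ y, c.con.Fc x y → y.1 ∈ c.A ∧ M.α y.1 ∈ c.A) :
    c.con.flen x = M.flen x.1 := by
  have key : ∀ n : ℕ, ((c.con.face)^[n] x).1 = (M.face)^[n] x.1 := by
    intro n
    induction n with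
    | zero => rfl
    | succ n ih =>
      rw [Function.iterate_succ_apply', Function.iterate_succ_apply', ← ih]
      apply c.rd5_in
      apply (h _ _).2
      exact ⟨(n : ℕ), by rw [zpow_natCast, Equiv.Perm.iterate_eq_pow]⟩
  unfold flen
  rw [Function.minimalPeriod_eq_minimalPeriod_iff]
  intro n
  constructor
  · intro h1
    change (⇑M.face)^[n] x.1 = x.1
    rw [← key, h1]
  · intro h1
    change (⇑c.con.face)^[n] x = x
    apply Subtype.ext
    rw [key]
    exact h1

end Cut3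
end Pool.H64.NC.CubicMap
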