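import Pool.Agent.Helper64.NC.Side
import Pool.Agent.Helper64.NC.Cross
import Pool.Agent.Helper64.NC.Assemble
import Pool.Agent.Helper64.NC.Rd.ConHom

/-!
NC-RD8. Maps which consist of one wheel only.

`M` contains the wheel with sizes `q` (`Coded M q ι`) and every dart of `M` is a dart of the wheel
(`hall`).  Then `α` joins the legs of the wheel in pairs.
1. `τ`: for a leg `i`, `M.α (ι l_i)` (`l_i = (wL q)[i]`) is `ι c` with `c ∈ codes q`, and `c` is a leg
   (otherwise `M.α (ι c) = ι (c ^^^ 1)`, so `l_i = c ^^^ 1`, but `isLeg (c ^^^ 1) = false` by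
   `WOK.xr`). So there is `τ : Fin K → Fin K` (`K = (wL q).length`) with
   `M.α (ι (wL q)[i]) = ι (wL q)[τ i]`; `τ (τ i) = i`, `τ i ≠ i`.
2. Noncrossing: `T = hc.patch hq`, `T.P` is everything; `T.ext.Closed ∅` (no vertices), and
   `T.ext.trace ∅ = τ` (in the relation `T.ext.R ∅` the class of `m i` is `{m i, α (m i)}`, `part_spec`,
   `part_none`). `CubicMap.Patch.nct` with `Sided` (as in the proof of `cert_no_three` in
   `Assemble.lean`) gives `NCt τ`.
3. `dfsS_sound`: copy of `dfs_step`, `dfsT_sound` (`St/Dfs.lean`) for the leaf check `leafS`: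
   if `dfsS q tab K 0 0 = true` then `leafS q tab (pack f K) = true` for every noncrossing
   involution `f` of `{0, ..., K-1}`; apply to `f = ext0 τ` (see `leaf_all` in `Assemble.lean`).
4. With `t = pack (ext0 τ) K`: `dig t i = τ i`. For `x ∈ codes q`: `M.α (ι x) = ι (alF q t x)` and
   `alF q t x ∈ codes q`; `M.face (ι x) = ι (fcF q t x)`.
   The first alternative of `leafS` (a fixed point) is impossible.
   `shortF`: gives `x` with `face^[k] (ι x) = ι x`, `k = 1, 2` or `3`, contradicting `4 ≤ flen`.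
5. `four`: four different masks with `hamF q t b`. For such `b` (`match_exists`) there is `C` with
   `T.Inner C` and `Match hc C b` (`x ∈ C ↔ bt b = true` for the codes). `M.Clo C`: for a leg use the
   equality of the bits at `l_i` and `alF q t l_i`; for other codes `Inner.e`.  Connectivity: all
   darts collected by `walkF` are connected to the starting dart (`other_spec`: for a used code `y`
   `ι (other (TB q) b y) = sw M.σ C (ι y)`; then `ae M.α C (ι z) = ι (alF q t z)`); by `covW` every used
   dart is collected, so `M.Ham C`. The four sets `C` are different, since the masks are different,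
   have all their bits among the codes (`b ||| fullM q = fullM q`) and (`Match`) are determined
   by `C` (see `match_inj`).  Four Hamilton circuits contradict `M.Three`. -/

set_option linter.unusedSectionVars false

namespace Pool.H64.NC

open Function Code

/-- partner across the edge; the legs are joined according to the digits of `t` -/
def alF (q : List ℕ) (t x : ℕ) : ℕ :=
  bif isLeg x then (wL q).getD (dig t (pos (wL q) x)) 0 else x ^^^ 1

/-- the face permutation on codes -/
def fcF (q : List ℕ) (t x : ℕ) : ℕ := nx (TB q) (alF q t x)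

/-- there is a face of length at most 3 -/
def shortF (q : List ℕ) (t : ℕ) : Bool :=
  (codes q).any (fun x =>
    let y := fcF q t x
    let z := fcF q t y
    Nat.beq y x || (Nat.beq z x || Nat.beq (fcF q t z) x))

/-- follow a circuit and collect the darts -/
def walkF (q : List ℕ) (t b : ℕ) : ℕ → ℕ → ℕ → ℕ
  | 0, _, W => W
  | n + 1, y, W =>
    let z := other (TB q) b y
    walkF q t b n (alF q t z) (W ||| (1 <<< y) ||| (1 <<< z))

/-- the mask `b` (unused edges) is a Hamilton circuit of the wheel with joined legs -/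
def hamF (q : List ℕ) (t b : ℕ) : Bool :=
  validB q b && (Nat.beq (b ||| fullM q) (fullM q) &&
  ((wL q).all (fun x => bt b (x / 2) == bt b (alF q t x / 2)) &&
  (codes q).any (fun y => !bt b (y / 2) &&
    covW b (codes q) (walkF q t b (wV q).length y 0))))

def four (q : List ℕ) (t : ℕ) : List ℕ → Bool
  | [a, b, c, d] => Nat.blt a b && (Nat.blt b c && (Nat.blt c d && (hamF q t a && (hamF q t b &&
      (hamF q t c && hamF q t d)))))
  | _ => false

def leafS (q : List ℕ) (tab : List (ℕ × List ℕ)) (t : ℕ) : Bool :=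
  (List.range (wL q).length).any (fun i => Nat.beq (dig t i) i) ||
    (shortF q t || four q t (look tab t))

/-- run over all noncrossing involutions -/
def dfsS (q : List ℕ) (tab : List (ℕ × List ℕ)) : ℕ → ℕ → ℕ → Bool
  | 0, _, t => leafS q tab t
  | n + 1, i, t =>
    let a := clm t i i
    bif Nat.beq a 0 then
      dfsS q tab n (i + 1) (t + (i <<< (4 * i))) &&
        (List.range (lim (wL q).length t i i - (i + 1))).all (fun k =>
          dfsS q tab n (i + 1) (t + ((i + 1 + k) <<< (4 * i))))
    else dfsS q tab n (i + 1) (t + ((a - 1) <<< (4 * i)))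

def smallOK (q : List ℕ) (tab : List (ℕ × List ℕ)) : Bool := dfsS q tab (wL q).length 0 0

theorem h27_step (q : List ℕ) (tab : List (ℕ × List ℕ)) (f : ℕ → ℕ)
    (hK : (wL q).length ≤ 15) (h1 : ∀ i < (wL q).length, f i < (wL q).length)
    (h2 : ∀ i < (wL q).length, f (f i) = i)
    (h3 : ∀ a < (wL q).length, ∀ i < (wL q).length, a < i → i < f a → f i < f a) (n : ℕ) :
    ∀ i, n + i = (wL q).length → dfsS q tab n i (pack f i) = true →
      leafS q tab (pack f (wL q).length) = true := by
  induction n with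
  | zero =>
    intro i hi h
    rw [zero_add] at hi
    rw [hi] at h
    exact h
  | succ n ih =>
    intro i hi h
    have hiK : i < (wL q).length := by omega
    refine ih (i + 1) (by omega) ?_
    have hd : ∀ a < i, dig (pack f i) a = f a := fun a ha =>
      dig_pack f i a ha fun j hj => by have := h1 j (by omega); omega
    rw [pack]
    rw [dfsS] at h
    by_cases hc : clm (pack f i) i i = 0
    · have hb : Nat.beq (clm (pack f i) i i) 0 = true := by rw [hc]; rfl
      simp only [hb, cond_true, Bool.and_eq_true] at h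
      have hge : i ≤ f i := by
        by_contra hlt
        rw [not_le] at hlt
        refine dfs_clm_zero _ _ _ hc (f i) hlt ?_
        rw [hd _ hlt]
        exact h2 i hiK
      rcases Nat.eq_or_lt_of_le hge with he | hl
      · rw [← he]
        exact h.1
      · have hlim : f i < lim (wL q).length (pack f i) i i := by
          refine dfs_lim _ _ _ _ _ (h1 i hiK) fun a ha hia => ?_
          rw [hd a ha] at hia ⊢
          exact h3 a (by omega) i hiK ha hia
        have h4 := List.all_eq_true.mp h.2 (f i - (i + 1)) (List.mem_range.mpr (by omega))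
        rw [show i + 1 + (f i - (i + 1)) = f i by omega] at h4
        exact h4
    · have hb : Nat.beq (clm (pack f i) i i) 0 = false := by
        rw [Bool.eq_false_iff]
        intro h5
        exact hc (Nat.eq_of_beq_eq_true h5)
      simp only [hb, cond_false] at h
      obtain ⟨h5, h6⟩ := dfs_clm_ne _ _ _ hc
      rw [hd _ h5] at h6
      have h7 : clm (pack f i) i i - 1 = f i := by
        rw [← h6, h2 _ (by omega), h6]
      rw [h7] at h
      exact h

theorem dfsS_sound (q : List ℕ) (tab : List (ℕ × List ℕ)) (f : ℕ → ℕ)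
    (hK : (wL q).length ≤ 15) (h1 : ∀ i < (wL q).length, f i < (wL q).length)
    (h2 : ∀ i < (wL q).length, f (f i) = i)
    (h3 : ∀ a < (wL q).length, ∀ i < (wL q).length, a < i → i < f a → f i < f a)
    (h : smallOK q tab = true) : leafS q tab (pack f (wL q).length) = true :=
  h27_step q tab f hK h1 h2 h3 (wL q).length 0 (by omega) h

theorem h27_pos_lt : ∀ (L : List ℕ) (x : ℕ), x ∈ L → pos L x < L.length
  | [], x, h => absurd h (List.not_mem_nil)
  | a :: l, x, h => by
    by_cases ha : a = x
    · have h0 : pos (a :: l) x = 0 := by simp [pos, ha]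
      rw [h0]
      simp
    · have h1 : pos (a :: l) x = pos l x + 1 := by
        have h2 : Nat.beq a x = false := by
          rw [Bool.eq_false_iff]; intro h3; exact ha (Nat.beq_eq.mp h3)
        simp [pos, h2]
      have h3 : x ∈ l := by
        rcases List.mem_cons.1 h with h4 | h4
        · exact absurd h4.symm ha
        · exact h4
      have h4 := h27_pos_lt l x h3
      rw [h1, List.length_cons]
      omega

section
variable {D : Type*} [Fintype D] [DecidableEq D] {M : CubicMap D} {q : List ℕ} {ι : ℕ → D}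
variable (hc : Coded M q ι) (hq : WOK q) (hall : ∀ y, ∃ c ∈ codes q, ι c = y)
include hc hq hall

theorem h27_P (y : D) : y ∈ (hc.patch hq).P := by
  obtain ⟨c, hcc, h⟩ := hall y
  exact (mem_P hc hq).2 ⟨c, hcc, h⟩

theorem h27_leg (i : Fin (wL q).length) :
    ∃ j, j ≠ i ∧ M.α ((hc.patch hq).m i) = (hc.patch hq).m j := by
  have hl : (wL q)[i] ∈ wL q := List.getElem_mem _
  have hlc := hq.legc _ hl
  have hll : isLeg (wL q)[i] = true := (hq.leg _ hlc).2 hl
  obtain ⟨c, hcc, h⟩ := hall (M.α ((hc.patch hq).m i))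
  have hleg : isLeg c = true := by
    by_contra hcon
    rw [Bool.not_eq_true] at hcon
    have h1 := hc.al c hcc hcon
    rw [h, M.α2] at h1
    obtain ⟨h2, h3⟩ := hq.xr c hcc hcon
    have h4 : (wL q)[i] = c ^^^ 1 := hc.inj _ hlc _ h2 h1
    rw [h4, h3] at hll
    exact Bool.noConfusion hll
  obtain ⟨j, hj, hjc⟩ := List.getElem_of_mem ((hq.leg c hcc).1 hleg)
  refine ⟨⟨j, hj⟩, ?_, ?_⟩
  · intro hji
    have h5 : (hc.patch hq).m i = ι c := by
      rw [← hji]
      exact congrArg ι hjc
    rw [h] at h5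
    exact M.α1 _ h5.symm
  · rw [← h]
    exact (congrArg ι hjc).symm

theorem h27_closed : (hc.patch hq).ext.Closed ∅ := by
  refine ⟨?_, ?_, ?_⟩
  · intro x hx
    exact absurd ((hc.patch hq).ext_σ_in (h27_P hc hq hall x)) hx
  · intro x hx
    exact absurd hx (Finset.notMem_empty x)
  · intro x
    exact ⟨fun hx => absurd hx (Finset.notMem_empty x), fun hx => absurd hx (Finset.notMem_empty _)⟩

theorem h27_tau (i : Fin (wL q).length) :
    M.α ((hc.patch hq).m i) = (hc.patch hq).m ((hc.patch hq).ext.trace ∅ i) ∧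
      (hc.patch hq).ext.trace ∅ i ≠ i := by
  obtain ⟨j, hj, hα⟩ := h27_leg hc hq hall i
  have hα' : M.α ((hc.patch hq).m j) = (hc.patch hq).m i := by rw [← hα, M.α2]
  have hR : (hc.patch hq).ext.R ∅ ((hc.patch hq).m i) ((hc.patch hq).m j) := by
    have h1 : ae (hc.patch hq).ext.a ∅ ((hc.patch hq).m i) = (hc.patch hq).m j := by
      rw [Pole.ae_used (p := (hc.patch hq).ext) (Finset.notMem_empty _) (Finset.notMem_empty _),
        (hc.patch hq).ext_a_out ((hc.patch hq).X_of_leg i), hα]
    have h2 : (hc.patch hq).ext.R ∅ ((hc.patch hq).m i)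
        (ae (hc.patch hq).ext.a ∅ ((hc.patch hq).m i)) := Conn.ma _
    rwa [h1] at h2
  have hu : ∀ k, k ≠ i → (hc.patch hq).ext.R ∅ ((hc.patch hq).m i) ((hc.patch hq).m k) → k = j := by
    intro k hk hr
    have key : (fun y => y = (hc.patch hq).m i ∨ y = (hc.patch hq).m j) ((hc.patch hq).m k) := by
      refine CubicMap.Patch.inv_of ((hc.patch hq).ext.sw_inv ∅) ((hc.patch hq).ext.ae_inv ∅)
        (fun y => y = (hc.patch hq).m i ∨ y = (hc.patch hq).m j) ?_ ?_ hr (Or.inl rfl)
      · intro y hy
        rw [Pole.sw_leg (p := (hc.patch hq).ext) ((hc.patch hq).ext_σ_in (h27_P hc hq hall y))]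
        exact hy
      · intro y hy
        rw [Pole.ae_used (p := (hc.patch hq).ext) (Finset.notMem_empty _) (Finset.notMem_empty _)]
        rcases hy with rfl | rfl
        · rw [(hc.patch hq).ext_a_out ((hc.patch hq).X_of_leg i)]
          exact Or.inr hα
        · rw [(hc.patch hq).ext_a_out ((hc.patch hq).X_of_leg j)]
          exact Or.inl hα'
    rcases key with h | h
    · exact absurd ((hc.patch hq).inj h) hk
    · exact (hc.patch hq).inj h
  have ht : (hc.patch hq).ext.trace ∅ i = j := part_eq hj hR hu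
  rw [ht]
  exact ⟨hα, hj⟩

/-- the packed pairing of the legs -/
theorem h27_al {t : ℕ} (ht : ∀ i : Fin (wL q).length,
    dig t i = ((hc.patch hq).ext.trace ∅ i : Fin (wL q).length)) {x : ℕ} (hx : x ∈ codes q) :
    M.α (ι x) = ι (alF q t x) ∧ alF q t x ∈ codes q := by
  unfold alF
  by_cases hl : isLeg x = true
  · have hxL := (hq.leg x hx).1 hl
    have hlt := h27_pos_lt (wL q) x hxL
    have hget := pos_get (wL q) x hlt
    have h1 := (h27_tau hc hq hall ⟨pos (wL q) x, hlt⟩).1
    have h2 := ht ⟨pos (wL q) x, hlt⟩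
    rw [m_eq, m_eq] at h1
    have h3 : (wL q)[(⟨pos (wL q) x, hlt⟩ : Fin (wL q).length)] = x := hget
    rw [h3] at h1
    have h4 : (wL q).getD (dig t (pos (wL q) x)) 0 =
        (wL q)[(hc.patch hq).ext.trace ∅ ⟨pos (wL q) x, hlt⟩] := by
      have h5 : dig t (pos (wL q) x) =
        ((hc.patch hq).ext.trace ∅ ⟨pos (wL q) x, hlt⟩ : Fin (wL q).length) := h2
      rw [h5, List.getD_eq_getElem?_getD,
        List.getElem?_eq_getElem ((hc.patch hq).ext.trace ∅ ⟨pos (wL q) x, hlt⟩).2]
      rfl
    rw [hl, cond_true, h4]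
    exact ⟨h1, hq.legc _ (List.getElem_mem _)⟩
  · have hl' : isLeg x = false := Bool.eq_false_iff.2 hl
    rw [hl', cond_false]
    exact ⟨hc.al x hx hl', (hq.xr x hx hl').1⟩

theorem h27_fc {t : ℕ} (ht : ∀ i : Fin (wL q).length,
    dig t i = ((hc.patch hq).ext.trace ∅ i : Fin (wL q).length)) {x : ℕ} (hx : x ∈ codes q) :
    M.face (ι x) = ι (fcF q t x) ∧ fcF q t x ∈ codes q := by
  obtain ⟨h1, h2⟩ := h27_al hc hq hall ht hx
  obtain ⟨h3, h4⟩ := nx_spec hc hq h2
  unfold fcF
  rw [M.face_apply, h1, h3]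
  exact ⟨rfl, h4⟩

theorem h27_short {t : ℕ} (ht : ∀ i : Fin (wL q).length,
    dig t i = ((hc.patch hq).ext.trace ∅ i : Fin (wL q).length))
    (hs : shortF q t = true) : ∃ x, M.flen x ≤ 3 := by
  unfold shortF at hs
  obtain ⟨x, hx, h⟩ := List.any_eq_true.1 hs
  simp only [Bool.or_eq_true, Nat.beq_eq] at h
  obtain ⟨f1, c1⟩ := h27_fc hc hq hall ht hx
  obtain ⟨f2, c2⟩ := h27_fc hc hq hall ht c1
  obtain ⟨f3, c3⟩ := h27_fc hc hq hall ht c2
  have p : ∀ n, 0 < n → (⇑M.face)^[n] (ι x) = ι x → n ≤ 3 → M.flen (ι x) ≤ 3 := by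
    intro n hn hp h3
    exact (Function.IsPeriodicPt.minimalPeriod_le hn hp).trans h3
  refine ⟨ι x, ?_⟩
  rcases h with h | h | h
  · refine p 1 (by norm_num) ?_ (by norm_num)
    rw [Function.iterate_one, f1, h]
  · refine p 2 (by norm_num) ?_ (by norm_num)
    rw [Function.iterate_succ_apply', Function.iterate_one, f1, f2, h]
  · refine p 3 (by norm_num) ?_ (by norm_num)
    rw [Function.iterate_succ_apply', Function.iterate_succ_apply', Function.iterate_one, f1, f2,
      f3, h]

section
variable {t : ℕ} (ht : ∀ i : Fin (wL q).length,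
    dig t i = ((hc.patch hq).ext.trace ∅ i : Fin (wL q).length))
variable {C : Finset D} {b : ℕ} (hC : (hc.patch hq).Inner C) (hm : Match hc C b)
include ht hC hm

theorem h27_clo (hb : (wL q).all (fun x => bt b (x / 2) == bt b (alF q t x / 2)) = true) :
    M.Clo C := by
  refine ⟨?_, fun x => hC.v x (h27_P hc hq hall x)⟩
  intro x
  by_cases hX : (hc.patch hq).X x
  · obtain ⟨c, hcc, rfl⟩ := hall x
    have hl := (X_code hc hq hcc).1 hX
    have hcL := (hq.leg c hcc).1 hl
    have h1 := List.all_eq_true.1 hb c hcL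
    rw [beq_iff_eq] at h1
    obtain ⟨h2, h3⟩ := h27_al hc hq hall ht hcc
    rw [h2, hm c hcc, hm _ h3, h1]
  · exact hC.e x hX

theorem h27_walk (hclo : M.Clo C) : ∀ (n y W : ℕ), y ∈ codes q → bt b (y / 2) = false →
    ∀ x, bt (walkF q t b n y W) x = true → bt W x = true ∨
      (x ∈ codes q ∧ Conn (sw M.σ C) (ae M.α C) (ι y) (ι x))
  | 0, y, W, _, _ => fun x hx => Or.inl hx
  | n + 1, y, W, hy, hb => by
    intro x hx
    obtain ⟨z1, z2, z3⟩ := other_spec hc hq hC hm hy hb
    have hyP : ι y ∈ (hc.patch hq).P := h27_P hc hq hall _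
    have hsw : (hc.patch hq).swI C (ι y) = sw M.σ C (ι y) := if_pos hyP
    rw [hsw] at z3
    have hyz : Conn (sw M.σ C) (ae M.α C) (ι y) (ι (other (TB q) b y)) := by
      have h1 : Conn (sw M.σ C) (ae M.α C) (ι y) (sw M.σ C (ι y)) := Conn.ms _
      rwa [z3] at h1
    obtain ⟨a1, a2⟩ := h27_al hc hq hall ht z1
    have hzC : ι (other (TB q) b y) ∉ C := fun h => by
      rw [(hm _ z1).1 h] at z2; exact Bool.noConfusion z2
    have haC : ι (alF q t (other (TB q) b y)) ∉ C := fun h => by
      rw [← a1] at h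
      exact hzC ((hclo.1 _).2 h)
    have hab : bt b (alF q t (other (TB q) b y) / 2) = false := by
      rw [Bool.eq_false_iff]
      intro h
      exact haC ((hm _ a2).2 h)
    have hza : Conn (sw M.σ C) (ae M.α C) (ι y) (ι (alF q t (other (TB q) b y))) := by
      have h1 : ae M.α C (ι (other (TB q) b y)) = M.α (ι (other (TB q) b y)) :=
        Pole.ae_used (p := M.pole0) hzC (by
          change M.α (ι (other (TB q) b y)) ∉ C
          rw [a1]; exact haC)
      have h2 : Conn (sw M.σ C) (ae M.α C) (ι (other (TB q) b y))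
        (ae M.α C (ι (other (TB q) b y))) := Conn.ma _
      rw [h1, a1] at h2
      exact hyz.trans h2
    rw [walkF] at hx
    rcases h27_walk hclo n _ _ a2 hab x hx with h | ⟨h, h'⟩
    · rw [bt_or, bt_or, bt_one, bt_one] at h
      rcases h with (h | h) | h
      · exact Or.inl h
      · rw [h]
        exact Or.inr ⟨hy, Conn.refl _⟩
      · rw [h]
        exact Or.inr ⟨z1, hyz⟩
    · exact Or.inr ⟨h, hza.trans h'⟩

theorem h27_ham (hb : (wL q).all (fun x => bt b (x / 2) == bt b (alF q t x / 2)) = true)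
    (hw : (codes q).any (fun y => !bt b (y / 2) &&
      covW b (codes q) (walkF q t b (wV q).length y 0)) = true) : M.Ham C := by
  have hclo := h27_clo hc hq hall ht hC hm hb
  refine ⟨hclo, ?_⟩
  obtain ⟨y, hy, h⟩ := List.any_eq_true.1 hw
  rw [Bool.and_eq_true, Bool.not_eq_true'] at h
  obtain ⟨hyb, hcov⟩ := h
  have key : ∀ x, x ∉ C → Conn (sw M.σ C) (ae M.α C) (ι y) x := by
    intro x hx
    obtain ⟨c, hcc, rfl⟩ := hall x
    have h1 := List.all_eq_true.1 hcov c hcc
    rw [Bool.or_eq_true] at h1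
    rcases h1 with h1 | h1
    · exact absurd ((hm c hcc).2 h1) hx
    · rcases h27_walk hc hq hall ht hC hm hclo _ _ _ hy hyb c h1 with h2 | h2
      · unfold bt at h2
        simp at h2
      · exact h2.2
  intro x z hx hz
  exact (key x hx).symm.trans (key z hz)

end

theorem h27_hamF {t : ℕ} (ht : ∀ i : Fin (wL q).length,
    dig t i = ((hc.patch hq).ext.trace ∅ i : Fin (wL q).length)) {b : ℕ}
    (hb : hamF q t b = true) : (∃ C, M.Ham C ∧ Match hc C b) ∧ b ||| fullM q = fullM q := by
  unfold hamF at hb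
  rw [Bool.and_eq_true, Bool.and_eq_true, Bool.and_eq_true, Nat.beq_eq] at hb
  obtain ⟨h1, h2, h3, h4⟩ := hb
  obtain ⟨C, hC, hm⟩ := match_exists hc hq h1
  exact ⟨⟨C, h27_ham hc hq hall ht hC hm h3 h4, hm⟩, h2⟩

end

theorem h27_inj {D : Type*} [DecidableEq D] {M : CubicMap D} {q : List ℕ} {ι : ℕ → D}
    (hc : Coded M q ι) {C : Finset D} {a b : ℕ} (ha : a ||| fullM q = fullM q)
    (hb : b ||| fullM q = fullM q) (h : Match hc C a) (h' : Match hc C b) : a = b := by
  have key : ∀ z, z ||| fullM q = fullM q → ∀ e, bt z e = true → ∃ c ∈ codes q, e = c / 2 := by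
    intro z hz e he
    rw [← fullM_bt, ← hz, bt_or]
    exact Or.inl he
  apply bt_ext
  intro e
  constructor
  · intro he
    obtain ⟨c, hcc, rfl⟩ := key a ha e he
    exact (h' c hcc).1 ((h c hcc).2 he)
  · intro he
    obtain ⟨c, hcc, rfl⟩ := key b hb e he
    exact (h c hcc).1 ((h' c hcc).2 he)

theorem small_no_three {D : Type*} [Fintype D] [DecidableEq D] {M : CubicMap D} {q : List ℕ}
    {ι : ℕ → D} (hc : Coded M q ι) (hq : WOK q) (hr : Ring q)
    (hall : ∀ y, ∃ c ∈ codes q, ι c = y) (hB : M.Hom) (h4 : ∀ x, 4 ≤ M.flen x)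
    {tab : List (ℕ × List ℕ)} (h : smallOK q tab = true) : ¬ M.Three := by
  have hS : (hc.patch hq).Sided := fun a b hab e e1 e2 e3 e4 =>
    side hc hq hr hB hab e e1 e2 e3 e4
  have hN := CubicMap.Patch.nct hS (h27_closed hc hq hall)
  set τ := (hc.patch hq).ext.trace ∅ with hτ
  have hK := hq.K15
  have h16 : ∀ j < (wL q).length, ext0 τ j < 16 := fun j hj => by
    have := ext0_lt τ hj; omega
  have ht : ∀ i : Fin (wL q).length, dig (pack (ext0 τ) (wL q).length) i = (τ i : ℕ) := by
    intro i
    rw [dig_pack _ _ _ i.2 h16, ext0_val]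
  have hleaf : leafS q tab (pack (ext0 τ) (wL q).length) = true := by
    refine dfsS_sound q tab (ext0 τ) hK (fun i hi => ext0_lt τ hi) ?_ ?_ h
    · intro i hi
      have h1 : ext0 τ i = (τ ⟨i, hi⟩ : ℕ) := ext0_val τ ⟨i, hi⟩
      rw [h1, ext0_val, hN.1]
    · intro a ha i hi h1 h2
      have e1 : ext0 τ a = (τ ⟨a, ha⟩ : ℕ) := ext0_val τ ⟨a, ha⟩
      have e2 : ext0 τ i = (τ ⟨i, hi⟩ : ℕ) := ext0_val τ ⟨i, hi⟩
      rw [e1] at h2 ⊢
      rw [e2]
      exact hN.2 ⟨a, ha⟩ ⟨i, hi⟩ h1 h2
  unfold leafS at hleaf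
  rw [Bool.or_eq_true, Bool.or_eq_true] at hleaf
  rcases hleaf with h1 | h1 | h1
  · obtain ⟨i, hi, h2⟩ := List.any_eq_true.1 h1
    rw [Nat.beq_eq] at h2
    have hi' := List.mem_range.1 hi
    have h3 := ht ⟨i, hi'⟩
    have h5 : (τ ⟨i, hi'⟩ : ℕ) = i := h3.symm.trans h2
    exact absurd (Fin.ext h5) (h27_tau hc hq hall ⟨i, hi'⟩).2
  · obtain ⟨x, hx⟩ := h27_short hc hq hall ht h1
    have := h4 x
    omega
  · generalize look tab (pack (ext0 τ) (wL q).length) = l at h1
    rcases l with _ | ⟨a, _ | ⟨b, _ | ⟨c, _ | ⟨d, _ | ⟨e, l⟩⟩⟩⟩⟩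
    · simp [four] at h1
    · simp [four] at h1
    · simp [four] at h1
    · simp [four] at h1
    · rw [four, Bool.and_eq_true, Bool.and_eq_true, Bool.and_eq_true, Bool.and_eq_true,
        Bool.and_eq_true, Bool.and_eq_true, Nat.blt_eq, Nat.blt_eq, Nat.blt_eq] at h1
      obtain ⟨lab, lbc, lcd, ha, hb, hc', hd⟩ := h1
      obtain ⟨⟨A, hA, mA⟩, fa⟩ := h27_hamF hc hq hall ht ha
      obtain ⟨⟨B, hB', mB⟩, fb⟩ := h27_hamF hc hq hall ht hb
      obtain ⟨⟨C, hC, mC⟩, fc⟩ := h27_hamF hc hq hall ht hc'
      obtain ⟨⟨E, hE, mE⟩, fd⟩ := h27_hamF hc hq hall ht hd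
      have nAB : A ≠ B := by
        rintro rfl
        have := h27_inj hc fa fb mA mB
        omega
      have nAC : A ≠ C := by
        rintro rfl
        have := h27_inj hc fa fc mA mC
        omega
      have nAE : A ≠ E := by
        rintro rfl
        have := h27_inj hc fa fd mA mE
        omega
      have nBC : B ≠ C := by
        rintro rfl
        have := h27_inj hc fb fc mB mC
        omega
      have nBE : B ≠ E := by
        rintro rfl
        have := h27_inj hc fb fd mB mE
        omega
      have nCE : C ≠ E := by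
        rintro rfl
        have := h27_inj hc fc fd mC mE
        omega
      rintro ⟨U1, U2, U3, _, _, _, _, _, _, hU⟩
      rcases hU A hA with hA' | hA' | hA' <;> rcases hU B hB' with hB'' | hB'' | hB'' <;>
        rcases hU C hC with hC' | hC' | hC' <;> rcases hU E hE with hE' | hE' | hE' <;>
        first
          | exact nAB (hA'.trans hB''.symm)
          | exact nAC (hA'.trans hC'.symm)
          | exact nAE (hA'.trans hE'.symm)
          | exact nBC (hB''.trans hC'.symm)
          | exact nBE (hB''.trans hE'.symm)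
          | exact nCE (hC'.trans hE'.symm)
    · simp [four] at h1

end Pool.H64.NC
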