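import Pool.Agent.Helper64.NC.Rd.Final

/-! NC: contraction of a triangle. -/

set_option linter.unusedSectionVars false

namespace Pool.H64.NC

open Function

universe u

/-- `M` arises from `M'` by expanding the vertex of the dart `w` to a triangle: the darts of `M'`
become darts of `M` (by `f`), with the same edges and, away from the vertex of `w`, with the same
rotation; each of the three darts `x` at that vertex becomes a dart of a vertex of its own, whose
two other darts `M.σ (f x)`, `M.σ (M.σ (f x))` are new, and the new darts form the edges of a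
triangle. -/
def Expands {D' D : Type*} (M' : CubicMap D') (M : CubicMap D) : Prop :=
  ∃ (f : D' → D) (w : D'), Function.Injective f ∧ (∀ x, M.α (f x) = f (M'.α x)) ∧
    (∀ x, x ≠ w → x ≠ M'.σ w → x ≠ M'.σ (M'.σ w) → M.σ (f x) = f (M'.σ x)) ∧
    (∀ x, (x = w ∨ x = M'.σ w ∨ x = M'.σ (M'.σ w)) →
      M.α (M.σ (f x)) = M.σ (M.σ (f (M'.σ x)))) ∧
    ∀ y, (∀ x, f x ≠ y) ↔ ∃ x, (x = w ∨ x = M'.σ w ∨ x = M'.σ (M'.σ w)) ∧
      (y = M.σ (f x) ∨ y = M.σ (M.σ (f x)))

/-- The class `𝒯` (for plane maps): obtained from the map with two vertices and three parallel edges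
by expanding vertices to triangles. -/
inductive InT : (D : Type u) → CubicMap D → Prop
  | base (D : Type u) (M : CubicMap D) : Nat.card D = 6 →
      (∀ x, M.α x ≠ M.σ x ∧ M.α x ≠ M.σ (M.σ x)) → InT D M
  | step (D' D : Type u) (M' : CubicMap D') (M : CubicMap D) : InT D' M' → Expands M' M → InT D M

namespace CubicMap

variable {D : Type u} [Fintype D] [DecidableEq D] {M : CubicMap D}

theorem fin3a (i : Fin 3) : i + 1 + 1 = i + 2 := by revert i; decide
theorem fin3b (i : Fin 3) : i + 1 + 2 = i := by revert i; decide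

theorem face_three {x : D} (hx : M.flen x = 3) : M.face (M.face (M.face x)) = x := by
  have h := flen_iter (M := M) x
  rw [hx] at h
  exact h

/-- contraction of a triangle -/
theorem tri_expand (hM : M.Genus0) (hC : M.C3) (hn : 12 ≤ Fintype.card D) {x : D}
    (hx : M.flen x = 3) : ∃ c : M.Cut3, c.Ring3 ∧ c.A.card + 9 = Fintype.card D ∧
      Expands c.con M := by
  classical
  have A0 := adj0_C3 hM hC
  set X : Fin 3 → D := fun i => M.face^[i.val] x with hX
  have hX3 : ∀ i, M.σ (M.α (X i)) = X (i + 1) := by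
    intro i
    have h := face_three hx
    fin_cases i
    · rfl
    · rfl
    · exact h
  have hX3' : ∀ i, M.σ (M.α (X (i + 2))) = X i := by
    intro i
    rw [hX3]
    congr 1
    revert i; decide
  -- the third dart at the vertex of `X i`
  have hY : ∀ i, M.σ (M.σ (X i)) = M.α (X (i + 2)) := by
    intro i
    rw [← hX3' i, M.σ3]
  set B : Finset D := Finset.univ.image X ∪ Finset.univ.image (fun i => M.α (X i)) ∪
    Finset.univ.image (fun i => M.σ (X i)) with hB
  have hBm : ∀ y, y ∈ B ↔ ∃ i, y = X i ∨ y = M.α (X i) ∨ y = M.σ (X i) := by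
    intro y
    rw [hB]
    simp only [Finset.mem_union, Finset.mem_image, Finset.mem_univ, true_and]
    constructor
    · rintro ((⟨i, rfl⟩ | ⟨i, rfl⟩) | ⟨i, rfl⟩)
      · exact ⟨i, Or.inl rfl⟩
      · exact ⟨i, Or.inr (Or.inl rfl)⟩
      · exact ⟨i, Or.inr (Or.inr rfl)⟩
    · rintro ⟨i, h | h | h⟩
      · exact Or.inl (Or.inl ⟨i, h.symm⟩)
      · exact Or.inl (Or.inr ⟨i, h.symm⟩)
      · exact Or.inr ⟨i, h.symm⟩
  have hBσ : ∀ y ∈ B, M.σ y ∈ B := by
    intro y hy
    obtain ⟨i, rfl | rfl | rfl⟩ := (hBm y).1 hy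
    · exact (hBm _).2 ⟨i, Or.inr (Or.inr rfl)⟩
    · exact (hBm _).2 ⟨i + 1, Or.inl (hX3 i)⟩
    · exact (hBm _).2 ⟨i + 2, Or.inr (Or.inl (hY i))⟩
  have hBσ' : ∀ y, M.σ y ∈ B ↔ y ∈ B := by
    intro y
    refine ⟨fun h => ?_, hBσ y⟩
    have := hBσ _ (hBσ _ h)
    rwa [M.σ3] at this
  have hBcard : B.card ≤ 9 := by
    rw [hB]
    refine (Finset.card_union_le _ _).trans ?_
    have h1 := Finset.card_union_le (Finset.univ.image X) (Finset.univ.image (fun i => M.α (X i)))
    have h2 : (Finset.univ.image X).card ≤ 3 := Finset.card_image_le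
    have h3 : (Finset.univ.image (fun i => M.α (X i))).card ≤ 3 := Finset.card_image_le
    have h4 : (Finset.univ.image (fun i => M.σ (X i))).card ≤ 3 := Finset.card_image_le
    omega
  have hcc := Finset.card_add_card_compl B
  have hlv := hC B hBσ ⟨X 0, (hBm _).2 ⟨0, Or.inl rfl⟩⟩ (Finset.card_pos.1 (by omega))
  -- the leaving darts
  have hsub : B.filter (fun y => M.α y ∉ B) ⊆ Finset.univ.image (fun i => M.σ (X i)) := by
    intro y hy
    obtain ⟨h1, h2⟩ := Finset.mem_filter.1 hy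
    obtain ⟨i, rfl | rfl | rfl⟩ := (hBm y).1 h1
    · exact absurd ((hBm _).2 ⟨i, Or.inr (Or.inl rfl)⟩) h2
    · exact absurd ((hBm _).2 ⟨i, Or.inl (M.α2 _)⟩) h2
    · exact Finset.mem_image.2 ⟨i, Finset.mem_univ _, rfl⟩
  have hYc : (Finset.univ.image (fun i => M.σ (X i))).card ≤ 3 := Finset.card_image_le
  have heq := Finset.eq_of_subset_of_card_le hsub (hYc.trans hlv)
  have hlvc : (B.filter (fun y => M.α y ∉ B)).card = 3 :=
    le_antisymm ((Finset.card_le_card hsub).trans hYc) hlv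
  have hlm : ∀ i, M.α (M.σ (X i)) ∉ B := by
    intro i
    have : M.σ (X i) ∈ B.filter (fun y => M.α y ∉ B) := by
      rw [heq]; exact Finset.mem_image.2 ⟨i, Finset.mem_univ _, rfl⟩
    exact (Finset.mem_filter.1 this).2
  have hYinj : Injective (fun i => M.σ (X i)) := by
    have h5 : (Finset.univ.image (fun i : Fin 3 => M.σ (X i))).card = Fintype.card (Fin 3) := by
      rw [← heq, hlvc]; rfl
    intro i j h
    exact Finset.card_image_iff.1 (h5.trans Finset.card_univ.symm) (Finset.mem_coe.2 (Finset.mem_univ i))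
      (Finset.mem_coe.2 (Finset.mem_univ j)) h
  have hXB : ∀ i, X i ∈ B := fun i => (hBm _).2 ⟨i, Or.inl rfl⟩
  have hαXB : ∀ i, M.α (X i) ∈ B := fun i => (hBm _).2 ⟨i, Or.inr (Or.inl rfl)⟩
  have hσXB : ∀ i, M.σ (X i) ∈ B := fun i => (hBm _).2 ⟨i, Or.inr (Or.inr rfl)⟩
  have hXinj : Injective X := fun i j h => hYinj (congrArg M.σ h)
  have hne1 : ∀ i j, X i ≠ M.α (X j) := by
    intro i j h
    apply hlm i
    rw [h, hX3]
    exact hαXB _
  have hne2 : ∀ i j, X i ≠ M.σ (X j) := by
    intro i j h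
    apply hlm j
    rw [← h]
    exact hαXB _
  have hne3 : ∀ i j, M.α (X i) ≠ M.σ (X j) := by
    intro i j h
    apply hlm j
    rw [← h, M.α2]
    exact hXB _
  have hBc : B.card = 9 := by
    rw [hB, Finset.card_union_of_disjoint, Finset.card_union_of_disjoint,
      Finset.card_image_of_injective _ hXinj,
      Finset.card_image_of_injective _ (fun i j h => hXinj (M.αinj h)),
      Finset.card_image_of_injective _ hYinj]
    · rfl
    · rw [Finset.disjoint_left]
      intro y h1 h2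
      obtain ⟨i, -, rfl⟩ := Finset.mem_image.1 h1
      obtain ⟨j, -, h⟩ := Finset.mem_image.1 h2
      exact hne1 i j h.symm
    · rw [Finset.disjoint_left]
      intro y h1 h2
      obtain ⟨j, -, rfl⟩ := Finset.mem_image.1 h2
      rcases Finset.mem_union.1 h1 with h1 | h1
      · obtain ⟨i, -, h⟩ := Finset.mem_image.1 h1
        exact hne2 i j h
      · obtain ⟨i, -, h⟩ := Finset.mem_image.1 h1
        exact hne3 i j h
  -- the cut
  have hAσ : ∀ y, M.σ y ∈ Bᶜ ↔ y ∈ Bᶜ := by
    intro y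
    rw [Finset.mem_compl, Finset.mem_compl, hBσ']
  have hA3 : (Bᶜ.filter (fun y => M.α y ∉ Bᶜ)).card = 3 := by
    rw [← hlvc]
    apply Finset.card_bij (fun y _ => M.α y)
    · intro y hy
      obtain ⟨h1, h2⟩ := Finset.mem_filter.1 hy
      rw [Finset.mem_filter, M.α2]
      rw [Finset.mem_compl] at h1 h2
      exact ⟨not_not.1 h2, h1⟩
    · intro y _ z _ h
      exact M.αinj h
    · intro y hy
      obtain ⟨h1, h2⟩ := Finset.mem_filter.1 hy
      refine ⟨M.α y, ?_, M.α2 y⟩
      rw [Finset.mem_filter, Finset.mem_compl, Finset.mem_compl, M.α2, not_not]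
      exact ⟨h2, h1⟩
  obtain ⟨c, hcA, hr⟩ := exists_ring hM hC Bᶜ hAσ hA3
  have hmA : ∀ y, y ∈ c.A ↔ y ∉ B := by
    intro y; rw [hcA, Finset.mem_compl]
  -- every leaving dart of the triangle is `α (b k)`
  have hk : ∀ j, ∃ k, M.α (c.b k) = M.σ (X j) := by
    intro j
    obtain ⟨k, hk⟩ := (c.hb (M.α (M.σ (X j)))).1
      ⟨(hmA _).2 (hlm j), by rw [hmA, M.α2, not_not]; exact hσXB j⟩
    exact ⟨k, by rw [hk, M.α2]⟩
  have hj : ∀ i, ∃ j, M.α (c.b i) = M.σ (X j) := by
    intro i
    have h1 : M.α (c.b i) ∈ B := by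
      have := c.bO i
      rw [hmA, not_not] at this
      exact this
    have h2 : M.α (c.b i) ∈ B.filter (fun y => M.α y ∉ B) := by
      rw [Finset.mem_filter, M.α2]
      exact ⟨h1, (hmA _).1 (c.bA i)⟩
    rw [heq] at h2
    obtain ⟨j, -, h⟩ := Finset.mem_image.1 h2
    exact ⟨j, h.symm⟩
  have hσY : ∀ j, M.σ (M.σ (X j)) = M.α (X (j + 2)) := hY
  have hσσY : ∀ j, M.σ (M.σ (M.σ (X j))) = X j := fun j => M.σ3 _
  -- the ring order
  have hord : ∀ i j, M.α (c.b i) = M.σ (X j) → M.α (c.b (i + 1)) = M.σ (X (j + 2)) := by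
    intro i j hij
    obtain ⟨k, hk⟩ := hk (j + 2)
    have f1 : M.Fc (c.b i) (M.α (c.b k)) := by
      have g1 : M.face (c.b i) = M.α (X (j + 2)) := by
        rw [face_apply, hij, hσY]
      have g2 : M.face (M.α (X (j + 2))) = M.σ (X (j + 2)) := by
        rw [face_apply, M.α2]
      rw [hk, ← g2, ← g1]
      refine ⟨2, ?_⟩
      rfl
    have hne : k ≠ i := by
      rintro rfl
      exact A0 _ f1
    have hne' : k ≠ i + 2 := by
      rintro rfl
      have f2 := hr i
      have f3 := hr (i + 1)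
      rw [fin3a] at f3
      exact A0 _ (f3.trans (f1.symm.trans f2))
    have : k = i + 1 := by
      revert hne hne'
      clear hk f1 hij
      revert i k; decide
    rw [← this]; exact hk
  refine ⟨c, hr, by rw [hcA, Finset.card_compl]; omega, Subtype.val, c.nb 0,
    Subtype.val_injective, fun y => rfl, ?_, ?_, ?_⟩
  · intro y h0 h1 h2
    rcases c.cases y with h | ⟨i, rfl⟩
    · exact (c.con_σ_in h).symm
    · exfalso
      rw [c.con_σ_nb] at h1 h2
      rw [c.con_σ_nb] at h2
      fin_cases i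
      · exact h0 rfl
      · exact h1 rfl
      · exact h2 rfl
  · have key : ∀ i, M.α (M.σ (c.nb i).1) = M.σ (M.σ (c.con.σ (c.nb i)).1) := by
      intro i
      rw [c.con_σ_nb]
      change M.α (M.σ (M.α (c.b i))) = M.σ (M.σ (M.α (c.b (i + 1))))
      obtain ⟨j, hj⟩ := hj i
      rw [hord i j hj, hj, hσσY, hσY, M.α2]
    rintro y (rfl | rfl | rfl)
    · exact key 0
    · rw [c.con_σ_nb]; exact key _
    · rw [c.con_σ_nb, c.con_σ_nb]; exact key _
  · have hat : ∀ y : c.DA, (y = c.nb 0 ∨ y = c.con.σ (c.nb 0) ∨ y = c.con.σ (c.con.σ (c.nb 0))) ↔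
        ∃ i, y = c.nb i := by
      intro y
      rw [c.con_σ_nb, c.con_σ_nb]
      constructor
      · rintro (h | h | h)
        · exact ⟨_, h⟩
        · exact ⟨_, h⟩
        · exact ⟨_, h⟩
      · rintro ⟨i, rfl⟩
        fin_cases i
        · exact Or.inl rfl
        · exact Or.inr (Or.inl rfl)
        · exact Or.inr (Or.inr rfl)
    intro y
    constructor
    · intro h
      have hyB : y ∈ B := by
        by_contra hy
        exact h ⟨y, Or.inl ((hmA y).2 hy)⟩ rfl
      have hyα : M.α y ∈ B := by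
        by_contra hy
        exact h ⟨y, Or.inr ((hmA _).2 hy)⟩ rfl
      obtain ⟨i, hi⟩ := (hBm y).1 hyB
      rcases hi with rfl | rfl | rfl
      · obtain ⟨k, hk⟩ := hk i
        refine ⟨c.nb k, (hat _).2 ⟨k, rfl⟩, Or.inr ?_⟩
        change _ = M.σ (M.σ (M.α (c.b k)))
        rw [hk, hσσY]
      · obtain ⟨k, hk⟩ := hk (i + 1)
        refine ⟨c.nb k, (hat _).2 ⟨k, rfl⟩, Or.inl ?_⟩
        change _ = M.σ (M.α (c.b k))
        rw [hk, hσY, fin3b]
      · exact absurd hyα (hlm i)
    · rintro ⟨z, hz, hy⟩ t ht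
      obtain ⟨k, rfl⟩ := (hat z).1 hz
      obtain ⟨j, hj⟩ := hj k
      have h1 : y ∈ B ∧ M.α y ∈ B := by
        rcases hy with rfl | rfl
        · change M.σ (M.α (c.b k)) ∈ B ∧ M.α (M.σ (M.α (c.b k))) ∈ B
          rw [hj, hσY, M.α2]
          exact ⟨hαXB _, hXB _⟩
        · change M.σ (M.σ (M.α (c.b k))) ∈ B ∧ M.α (M.σ (M.σ (M.α (c.b k)))) ∈ B
          rw [hj, hσσY]
          exact ⟨hXB _, hαXB _⟩
      rcases t.2 with h | h
      · rw [ht] at h
        exact (hmA _).1 h h1.1
      · rw [ht] at h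
        exact (hmA _).1 h h1.2

end CubicMap
end Pool.H64.NC
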